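import Mathlib

/-!
# The total isolation game

`openNbhd G S` is the open neighbourhood of `S`, `Playable G S v` says that `v` may be selected
when `S` is the set of vertices selected so far, `gameValue` is the value of a position and
`gameTotalIsolationNumber` the game total isolation number.
-/

namespace TotalIsolation

open Finset

variable {V : Type*} [Fintype V] [DecidableEq V]

/-- The open neighbourhood `N_G(S)` of a set `S` of vertices. -/
def openNbhd (G : SimpleGraph V) (S : Finset V) : Set V :=
  {x | ∃ u ∈ S, G.Adj u x}

/-- `v` is playable when the set of vertices selected so far is `S`: it has a neighbour `u` such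
that either `u` lies in a component of `G - N_G(S)` with at least two vertices, or `u` is a
selected vertex which is an isolated vertex of `G - N_G(S)`. -/
def Playable (G : SimpleGraph V) (S : Finset V) (v : V) : Prop :=
  ∃ u, G.Adj v u ∧ ∃ hu : u ∈ (openNbhd G S)ᶜ,
    (2 ≤ ((G.induce (openNbhd G S)ᶜ).connectedComponentMk ⟨u, hu⟩).supp.ncard ∨
      (u ∈ S ∧ ∀ w : ((openNbhd G S)ᶜ : Set V),
        ¬ (G.induce (openNbhd G S)ᶜ).Adj ⟨u, hu⟩ w))

/-- A selected vertex is never playable again. -/
theorem Playable.not_mem {G : SimpleGraph V} {S : Finset V} {v : V} (h : Playable G S v) :
    v ∉ S := by
  obtain ⟨u, hvu, hu, -⟩ := h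
  intro hv
  exact hu ⟨v, hv, hvu⟩

open Classical in
/-- The number of vertices that are still selected when both players play optimally from the
position in which `S` is the set of selected vertices; `true` means that Dominator (the
minimising player) is to move, `false` that Staller (the maximising player) is to move.  The game
is over as soon as no vertex is playable. -/
noncomputable def gameValue (G : SimpleGraph V) : Bool → Finset V → ℕ
  | dominatorMoves, S =>
    if ∃ v, Playable G S v then
      1 + (if dominatorMoves then
            ⨅ v : {v // Playable G S v}, gameValue G false (insert v.1 S)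
          else
            ⨆ v : {v // Playable G S v}, gameValue G true (insert v.1 S))
    else 0
termination_by _ S => (univ \ S).card
decreasing_by
  all_goals
    apply Finset.card_lt_card
    refine Finset.ssubset_iff_subset_ne.2 ⟨Finset.sdiff_subset_sdiff (le_refl _)
      (Finset.subset_insert _ _), ?_⟩
    intro h
    have h1 : v.1 ∈ univ \ S := by simpa using v.2.not_mem
    rw [← h] at h1
    simp at h1

/-- The game total isolation number `ι_g^t(G)`: Dominator moves first and nothing is selected. -/
noncomputable def gameTotalIsolationNumber (G : SimpleGraph V) : ℕ :=
  gameValue G true ∅

end TotalIsolation
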