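import Mathlib
import Pool.Agent.Lib_helper69.Iso.Defs

/-!
# Proof of the two thirds bound for the game total isolation number

A vertex is white (`WV`) when it is unselected, undominated and has an undominated neighbour,
`TV` when it is selected and undominated, grey (`PV`) when it is unselected, dominated and has a
white or `TV` neighbour.  The potential `Phi` is twice the number of white vertices plus the
number of grey and of `TV` vertices plus the number of `TV` vertices which are leaves of the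
graph.  It is at most `2 n` at the start, and `3 * value <= Phi` whenever Dominator is to move.
If some move drops `Phi` by at least five, Dominator plays it (every reply drops `Phi` by one);
if the best drop is four, a suitable move of drop four leaves only replies of drop at least two
(`reply_two`); if the best drop is three, the position is very restricted (`CIII`) and a local
analysis (`lemmaW`) shows that Dominator has a move after which every reply of drop two can be
answered by a move of drop five, or by a move of drop four and then a move of drop five.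
-/

set_option linter.unusedSectionVars false
set_option linter.unusedVariables false

namespace TotalIsolation

open Finset

section Colours

variable {V : Type*} [Fintype V] [DecidableEq V]

/-! ### the four kinds of vertices -/

/-- `x` is dominated by the selected set. -/
def Dom (G : SimpleGraph V) (S : Finset V) (x : V) : Prop := ∃ u ∈ S, G.Adj u x

/-- white vertices: unselected, undominated, with an undominated neighbour -/
def WV (G : SimpleGraph V) (S : Finset V) (x : V) : Prop :=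
  x ∉ S ∧ ¬ Dom G S x ∧ ∃ y, ¬ Dom G S y ∧ G.Adj x y

/-- selected undominated vertices -/
def TV (G : SimpleGraph V) (S : Finset V) (x : V) : Prop := x ∈ S ∧ ¬ Dom G S x

/-- dominated unselected vertices with an active neighbour -/
def PV (G : SimpleGraph V) (S : Finset V) (x : V) : Prop :=
  x ∉ S ∧ Dom G S x ∧ ∃ y, (WV G S y ∨ TV G S y) ∧ G.Adj x y

theorem playable_iff (G : SimpleGraph V) (S : Finset V) (v : V) :
    Playable G S v ↔ (WV G S v ∨ PV G S v) := by
  have key : Playable G S v ↔ ∃ u, (WV G S u ∨ TV G S u) ∧ G.Adj v u := by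
    constructor
    · rintro ⟨u, hvu, hu, h⟩
      have hud : ¬ Dom G S u := hu
      refine ⟨u, ?_, hvu⟩
      rcases h with h | h
      · left
        have hne : ∃ b, b ∈ ((G.induce (openNbhd G S)ᶜ).connectedComponentMk ⟨u, hu⟩).supp ∧
            b ≠ ⟨u, hu⟩ := by
          by_contra hcon
          push Not at hcon
          have : ((G.induce (openNbhd G S)ᶜ).connectedComponentMk ⟨u, hu⟩).supp ⊆
              {⟨u, hu⟩} := fun b hb => hcon b hb
          have h2 := Set.ncard_le_ncard this (Set.finite_singleton _)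
          rw [Set.ncard_singleton] at h2
          omega
        obtain ⟨b, hb, hbu⟩ := hne
        rw [SimpleGraph.ConnectedComponent.mem_supp_iff, SimpleGraph.ConnectedComponent.eq] at hb
        obtain ⟨p⟩ := hb.symm
        cases p with
        | nil => exact absurd rfl hbu
        | cons h0 q =>
          rename_i c
          have hadj : G.Adj u c.1 := h0
          refine ⟨?_, hud, c.1, c.2, hadj⟩
          intro hS
          exact c.2 ⟨u, hS, hadj⟩
      · right
        exact ⟨h.1, hud⟩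
    · rintro ⟨u, hu | hu, hvu⟩
      · obtain ⟨h1, h2, y, hy, huy⟩ := hu
        refine ⟨u, hvu, h2, Or.inl ?_⟩
        have : ({⟨u, h2⟩, ⟨y, hy⟩} : Set ((openNbhd G S)ᶜ : Set V)) ⊆
            ((G.induce (openNbhd G S)ᶜ).connectedComponentMk ⟨u, h2⟩).supp := by
          intro b hb
          rw [SimpleGraph.ConnectedComponent.mem_supp_iff, SimpleGraph.ConnectedComponent.eq]
          rcases hb with rfl | hb
          · exact SimpleGraph.Reachable.refl _
          · rw [Set.mem_singleton_iff] at hb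
            subst hb
            apply SimpleGraph.Adj.reachable
            exact huy.symm
        have h3 := Set.ncard_le_ncard this (Set.toFinite _)
        rw [Set.ncard_pair] at h3
        · exact h3
        · intro h
          have := congrArg Subtype.val h
          simp at this
          exact huy.ne this
      · refine ⟨u, hvu, hu.2, Or.inr ⟨hu.1, ?_⟩⟩
        intro w hw
        exact w.2 ⟨u, hu.1, hw⟩
  rw [key]
  constructor
  · rintro ⟨u, hu, hvu⟩
    have hvS : v ∉ S := by
      intro hv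
      rcases hu with hu | hu
      · exact hu.2.1 ⟨v, hv, hvu⟩
      · exact hu.2 ⟨v, hv, hvu⟩
    by_cases hd : Dom G S v
    · exact Or.inr ⟨hvS, hd, u, hu, hvu⟩
    · left
      refine ⟨hvS, hd, u, ?_, hvu⟩
      rcases hu with hu | hu
      · exact hu.2.1
      · exact hu.2
  · rintro (h | h)
    · obtain ⟨h1, h2, y, hy, hvy⟩ := h
      refine ⟨y, Or.inl ⟨?_, hy, v, h2, hvy.symm⟩, hvy⟩
      intro hyS
      exact h2 ⟨y, hyS, hvy.symm⟩
    · obtain ⟨-, -, y, hy, hvy⟩ := h
      exact ⟨y, hy, hvy⟩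

end Colours

variable {V : Type*} [Fintype V] [DecidableEq V] {G : SimpleGraph V} {S : Finset V} {v : V}

theorem dom_insert (x : V) : Dom G (insert v S) x ↔ Dom G S x ∨ G.Adj v x := by
  unfold Dom
  constructor
  · rintro ⟨u, hu, h⟩
    rcases Finset.mem_insert.1 hu with rfl | hu
    · exact Or.inr h
    · exact Or.inl ⟨u, hu, h⟩
  · rintro (⟨u, hu, h⟩ | h)
    · exact ⟨u, Finset.mem_insert_of_mem hu, h⟩
    · exact ⟨v, Finset.mem_insert_self _ _, h⟩

/-- a white vertex has a white neighbour -/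
theorem WV.exists_adj {x : V} (h : WV G S x) : ∃ y, WV G S y ∧ G.Adj x y := by
  obtain ⟨h1, h2, y, hy, hxy⟩ := h
  refine ⟨y, ⟨?_, hy, x, h2, hxy.symm⟩, hxy⟩
  intro hyS
  exact h2 ⟨y, hyS, hxy.symm⟩

/-- every neighbour of a white vertex is white or grey -/
theorem WV.adj {x y : V} (h : WV G S x) (hxy : G.Adj x y) : WV G S y ∨ PV G S y := by
  have hyS : y ∉ S := fun hy => h.2.1 ⟨y, hy, hxy.symm⟩
  by_cases hd : Dom G S y
  · exact Or.inr ⟨hyS, hd, x, Or.inl h, hxy.symm⟩
  · exact Or.inl ⟨hyS, hd, x, h.2.1, hxy.symm⟩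

/-- every neighbour of a selected undominated vertex is grey -/
theorem TV.adj {x y : V} (h : TV G S x) (hxy : G.Adj x y) : PV G S y :=
  ⟨fun hy => h.2 ⟨y, hy, hxy.symm⟩, ⟨x, h.1, hxy⟩, x, Or.inr h, hxy.symm⟩

theorem PV.exists_adj {x : V} (h : PV G S x) : ∃ y, (WV G S y ∨ TV G S y) ∧ G.Adj x y := h.2.2

theorem not_WV_of_TV {x : V} (h : TV G S x) : ¬ WV G S x := fun h' => h'.1 h.1

theorem not_WV_of_PV {x : V} (h : PV G S x) : ¬ WV G S x := fun h' => h'.2.1 h.2.1

theorem not_TV_of_PV {x : V} (h : PV G S x) : ¬ TV G S x := fun h' => h'.2 h.2.1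

theorem WV_insert (hv : WV G S v ∨ PV G S v) (x : V) :
    WV G (insert v S) x ↔ WV G S x ∧ x ≠ v ∧ ¬ G.Adj v x ∧
      ∃ y, WV G S y ∧ G.Adj x y ∧ ¬ G.Adj v y := by
  constructor
  · rintro ⟨h1, h2, y, h3, h4⟩
    rw [dom_insert] at h2 h3
    push Not at h2 h3
    have hx : WV G S x := ⟨fun h => h1 (Finset.mem_insert_of_mem h), h2.1, y, h3.1, h4⟩
    refine ⟨hx, fun h => h1 (h ▸ Finset.mem_insert_self _ _), h2.2, y, ⟨?_, h3.1, x, h2.1, h4.symm⟩, h4, h3.2⟩
    intro hy
    exact h2.1 ⟨y, hy, h4.symm⟩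
  · rintro ⟨h1, h2, h3, y, h4, h5, h6⟩
    refine ⟨?_, ?_, y, ?_, h5⟩
    · rw [Finset.mem_insert]
      push Not
      exact ⟨h2, h1.1⟩
    · rw [dom_insert]
      push Not
      exact ⟨h1.2.1, h3⟩
    · rw [dom_insert]
      push Not
      exact ⟨h4.2.1, h6⟩

theorem TV_insert (hv : WV G S v ∨ PV G S v) (x : V) :
    TV G (insert v S) x ↔ (TV G S x ∧ ¬ G.Adj v x) ∨ (x = v ∧ WV G S v) := by
  constructor
  · rintro ⟨h1, h2⟩
    rw [dom_insert] at h2
    push Not at h2
    rcases Finset.mem_insert.1 h1 with rfl | h1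
    · right
      refine ⟨rfl, ?_⟩
      rcases hv with hv | hv
      · exact hv
      · exact absurd hv.2.1 h2.1
    · exact Or.inl ⟨⟨h1, h2.1⟩, h2.2⟩
  · rintro (⟨h1, h2⟩ | ⟨rfl, h⟩)
    · refine ⟨Finset.mem_insert_of_mem h1.1, ?_⟩
      rw [dom_insert]
      push Not
      exact ⟨h1.2, h2⟩
    · refine ⟨Finset.mem_insert_self _ _, ?_⟩
      rw [dom_insert]
      push Not
      exact ⟨h.2.1, fun h => h.ne rfl⟩

theorem PV_insert (hv : WV G S v ∨ PV G S v) (x : V) :
    PV G (insert v S) x ↔ x ≠ v ∧ (PV G S x ∨ (WV G S x ∧ G.Adj v x)) ∧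
      ∃ y, (WV G (insert v S) y ∨ TV G (insert v S) y) ∧ G.Adj x y := by
  constructor
  · rintro ⟨h1, h2, y, h3, h4⟩
    rw [Finset.mem_insert] at h1
    push Not at h1
    rw [dom_insert] at h2
    refine ⟨h1.1, ?_, y, h3, h4⟩
    by_cases hd : Dom G S x
    · left
      refine ⟨h1.2, hd, ?_⟩
      rcases h3 with h3 | h3
      · exact ⟨y, Or.inl ((WV_insert hv y).1 h3).1, h4⟩
      · rcases (TV_insert hv y).1 h3 with h3 | ⟨rfl, h3⟩
        · exact ⟨y, Or.inr h3.1, h4⟩
        · exact ⟨y, Or.inl h3, h4⟩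
    · right
      have hvx : G.Adj v x := by tauto
      refine ⟨⟨h1.2, hd, ?_⟩, hvx⟩
      rcases h3 with h3 | h3
      · exact ⟨y, ((WV_insert hv y).1 h3).1.2.1, h4⟩
      · rcases (TV_insert hv y).1 h3 with h3 | ⟨rfl, h3⟩
        · exact absurd ⟨y, h3.1.1, h4.symm⟩ hd
        · exact ⟨y, h3.2.1, h4⟩
  · rintro ⟨h1, h2, y, h3, h4⟩
    refine ⟨?_, ?_, y, h3, h4⟩
    · rw [Finset.mem_insert]
      push Not
      refine ⟨h1, ?_⟩
      rcases h2 with h2 | h2
      · exact h2.1
      · exact h2.1.1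
    · rw [dom_insert]
      rcases h2 with h2 | h2
      · exact Or.inl h2.2.1
      · exact Or.inr h2.2

/-- `x` has at most one neighbour -/
def Leaf (G : SimpleGraph V) (x : V) : Prop := ∀ y z, G.Adj x y → G.Adj x z → y = z

open Classical in
/-- the weight of a vertex -/
noncomputable def wt (G : SimpleGraph V) (S : Finset V) (x : V) : ℕ :=
  if WV G S x then 2 else if TV G S x then (if Leaf G x then 2 else 1)
    else if PV G S x then 1 else 0

/-- the potential -/
noncomputable def Phi (G : SimpleGraph V) (S : Finset V) : ℕ := ∑ x, wt G S x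

theorem wt_W {x : V} (h : WV G S x) : wt G S x = 2 := by simp [wt, h]

theorem wt_T {x : V} (h : TV G S x) : 1 ≤ wt G S x := by
  have := not_WV_of_TV h
  simp only [wt, this, h, if_true, if_false]
  split_ifs <;> omega

theorem wt_T_leaf {x : V} (h : TV G S x) (hl : Leaf G x) : wt G S x = 2 := by
  have := not_WV_of_TV h
  simp [wt, this, h, hl]

theorem wt_T_eq {x : V} (h : TV G S x) (hl : ¬ Leaf G x) : wt G S x = 1 := by
  have := not_WV_of_TV h
  simp [wt, this, h, hl]

theorem wt_P {x : V} (h : PV G S x) : wt G S x = 1 := by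
  have h1 := not_WV_of_PV h
  have h2 := not_TV_of_PV h
  simp [wt, h1, h2, h]

theorem wt_zero {x : V} (h1 : ¬ WV G S x) (h2 : ¬ TV G S x) (h3 : ¬ PV G S x) :
    wt G S x = 0 := by simp [wt, h1, h2, h3]

theorem wt_le_two (x : V) : wt G S x ≤ 2 := by
  unfold wt
  split_ifs <;> omega

theorem wt_le_one {x : V} (h1 : ¬ WV G S x) (h2 : ¬ TV G S x) : wt G S x ≤ 1 := by
  unfold wt
  split_ifs <;> omega

theorem wt_mono (hv : WV G S v ∨ PV G S v) (x : V) : wt G (insert v S) x ≤ wt G S x := by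
  by_cases h1 : WV G (insert v S) x
  · rw [wt_W h1, wt_W ((WV_insert hv x).1 h1).1]
  by_cases h2 : TV G (insert v S) x
  · rcases (TV_insert hv x).1 h2 with h | ⟨rfl, h⟩
    · by_cases hl : Leaf G x
      · rw [wt_T_leaf h2 hl, wt_T_leaf h.1 hl]
      · rw [wt_T_eq h2 hl, wt_T_eq h.1 hl]
    · rw [wt_W h]
      exact wt_le_two _
  by_cases h3 : PV G (insert v S) x
  · rw [wt_P h3]
    rcases ((PV_insert hv x).1 h3).2.1 with h | h
    · rw [wt_P h]
    · rw [wt_W h.1]; omega
  · rw [wt_zero h1 h2 h3]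
    exact Nat.zero_le _

theorem sum_list_le {V : Type*} [Fintype V] [DecidableEq V] (g : V → ℕ) (l : List (V × ℕ)) :
    ∀ f : V → ℕ, (∀ x, f x ≤ g x) → (l.map Prod.fst).Nodup →
      (∀ p ∈ l, f p.1 + p.2 ≤ g p.1) → ∑ x, f x + (l.map Prod.snd).sum ≤ ∑ x, g x := by
  induction l with
  | nil =>
    intro f hf _ _
    simpa using Finset.sum_le_sum (fun x _ => hf x)
  | cons p l ih =>
    intro f hf hnd h
    have hnd' := List.nodup_cons.1 (by simpa using hnd : (p.1 :: l.map Prod.fst).Nodup)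
    have hp := h p (List.mem_cons_self)
    have key := ih (fun x => f x + (if x = p.1 then p.2 else 0)) (by
        intro x
        show f x + (if x = p.1 then p.2 else 0) ≤ g x
        split_ifs with hx
        · rw [hx]; exact hp
        · simpa using hf x) hnd'.2 (by
        intro q hq
        have hne : q.1 ≠ p.1 := by
          intro he
          exact hnd'.1 (he ▸ List.mem_map_of_mem hq)
        simp only [hne, if_false, Nat.add_zero]
        exact h q (List.mem_cons_of_mem _ hq))
    rw [Finset.sum_add_distrib] at key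
    simp only [Finset.sum_ite_eq', Finset.mem_univ, if_true] at key
    simp only [List.map_cons, List.sum_cons]
    omega

/-- `x` loses at least `d` when `v` is selected. -/
def Loses (G : SimpleGraph V) (S : Finset V) (v x : V) (d : ℕ) : Prop :=
  wt G (insert v S) x + d ≤ wt G S x

theorem drop_list (hv : WV G S v ∨ PV G S v) (l : List (V × ℕ))
    (hnd : (l.map Prod.fst).Nodup) (h : ∀ p ∈ l, Loses G S v p.1 p.2) :
    Phi G (insert v S) + (l.map Prod.snd).sum ≤ Phi G S :=
  sum_list_le _ l _ (wt_mono hv) hnd h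

theorem drop1 (hv : WV G S v ∨ PV G S v) {a : V} {i : ℕ} (ha : Loses G S v a i) :
    Phi G (insert v S) + i ≤ Phi G S := by
  simpa using drop_list hv [(a, i)] (by simp) (by simpa using ha)

theorem drop2 (hv : WV G S v ∨ PV G S v) {a b : V} {i j : ℕ} (ha : Loses G S v a i)
    (hb : Loses G S v b j) (hab : a ≠ b) :
    Phi G (insert v S) + (i + j) ≤ Phi G S := by
  simpa using drop_list hv [(a, i), (b, j)] (by simp [hab]) (by
    intro p hp
    simp only [List.mem_cons, List.not_mem_nil, or_false] at hp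
    rcases hp with rfl | rfl <;> assumption)

theorem drop3 (hv : WV G S v ∨ PV G S v) {a b c : V} {i j k : ℕ} (ha : Loses G S v a i)
    (hb : Loses G S v b j) (hc : Loses G S v c k) (hab : a ≠ b) (hac : a ≠ c) (hbc : b ≠ c) :
    Phi G (insert v S) + (i + j + k) ≤ Phi G S := by
  have := drop_list hv [(a, i), (b, j), (c, k)] (by simp [hab, hac, hbc]) (by
    intro p hp
    simp only [List.mem_cons, List.not_mem_nil, or_false] at hp
    rcases hp with rfl | rfl | rfl <;> assumption)
  simp at this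
  omega

theorem drop4 (hv : WV G S v ∨ PV G S v) {a b c d : V} {i j k l : ℕ} (ha : Loses G S v a i)
    (hb : Loses G S v b j) (hc : Loses G S v c k) (hd : Loses G S v d l)
    (hab : a ≠ b) (hac : a ≠ c) (had : a ≠ d) (hbc : b ≠ c) (hbd : b ≠ d) (hcd : c ≠ d) :
    Phi G (insert v S) + (i + j + k + l) ≤ Phi G S := by
  have := drop_list hv [(a, i), (b, j), (c, k), (d, l)] (by simp [hab, hac, had, hbc, hbd, hcd]) (by
    intro p hp
    simp only [List.mem_cons, List.not_mem_nil, or_false] at hp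
    rcases hp with rfl | rfl | rfl | rfl <;> assumption)
  simp at this
  omega

theorem drop5 (hv : WV G S v ∨ PV G S v) {a b c d e : V} {i j k l m : ℕ} (ha : Loses G S v a i)
    (hb : Loses G S v b j) (hc : Loses G S v c k) (hd : Loses G S v d l) (he : Loses G S v e m)
    (hab : a ≠ b) (hac : a ≠ c) (had : a ≠ d) (hae : a ≠ e) (hbc : b ≠ c) (hbd : b ≠ d)
    (hbe : b ≠ e) (hcd : c ≠ d) (hce : c ≠ e) (hde : d ≠ e) :
    Phi G (insert v S) + (i + j + k + l + m) ≤ Phi G S := by
  have := drop_list hv [(a, i), (b, j), (c, k), (d, l), (e, m)]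
    (by simp [hab, hac, had, hae, hbc, hbd, hbe, hcd, hce, hde]) (by
    intro p hp
    simp only [List.mem_cons, List.not_mem_nil, or_false] at hp
    rcases hp with rfl | rfl | rfl | rfl | rfl <;> assumption)
  simp at this
  omega

/-! ### when a vertex loses weight -/

/-- `v` itself, grey -/
theorem loses_self_P (hv : PV G S v) : Loses G S v v 1 := by
  unfold Loses
  have h1 : ¬ WV G (insert v S) v := fun h => h.1 (Finset.mem_insert_self _ _)
  have h2 : ¬ TV G (insert v S) v := by
    rw [TV_insert (Or.inr hv)]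
    rintro (⟨h, -⟩ | ⟨-, h⟩)
    · exact h.2 hv.2.1
    · exact not_WV_of_PV hv h
  have h3 : ¬ PV G (insert v S) v := fun h => h.1 (Finset.mem_insert_self _ _)
  rw [wt_zero h1 h2 h3, wt_P hv]

/-- `v` itself, white, with at least two neighbours -/
theorem loses_self_W (hv : WV G S v) (hl : ¬ Leaf G v) : Loses G S v v 1 := by
  unfold Loses
  have h2 : TV G (insert v S) v := by
    rw [TV_insert (Or.inl hv)]
    exact Or.inr ⟨rfl, hv⟩
  rw [wt_T_eq h2 hl, wt_W hv]

/-- a neighbour of `v` is neither white nor selected-undominated afterwards -/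
theorem not_active_of_adj (hv : WV G S v ∨ PV G S v) {x : V} (h : G.Adj v x) :
    ¬ WV G (insert v S) x ∧ ¬ TV G (insert v S) x := by
  constructor
  · rw [WV_insert hv]
    tauto
  · rw [TV_insert hv]
    rintro (⟨-, h1⟩ | ⟨rfl, -⟩)
    · exact h1 h
    · exact h.ne rfl

/-- a white neighbour loses at least 1 -/
theorem loses_adj_W (hv : WV G S v ∨ PV G S v) {x : V} (hx : WV G S x) (h : G.Adj v x) :
    Loses G S v x 1 := by
  unfold Loses
  have h1 := not_active_of_adj hv h
  have := wt_le_one h1.1 h1.2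
  rw [wt_W hx]
  omega

/-- a white neighbour all of whose other neighbours become inactive loses 2 -/
theorem loses_adj_W_two (hv : WV G S v ∨ PV G S v) {x : V} (hx : WV G S x) (h : G.Adj v x)
    (hd : ∀ y, G.Adj x y → ¬ WV G (insert v S) y ∧ ¬ TV G (insert v S) y) :
    Loses G S v x 2 := by
  unfold Loses
  have h1 := not_active_of_adj hv h
  have h3 : ¬ PV G (insert v S) x := by
    intro hp
    obtain ⟨y, hy, hxy⟩ := hp.2.2
    have := hd y hxy
    tauto
  rw [wt_zero h1.1 h1.2 h3, wt_W hx]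

/-- a selected neighbour disappears -/
theorem loses_adj_T (hv : WV G S v ∨ PV G S v) {x : V} (hx : TV G S x) (h : G.Adj v x) :
    Loses G S v x 1 := by
  unfold Loses
  have h1 := not_active_of_adj hv h
  have h3 : ¬ PV G (insert v S) x := fun hp => hp.1 (Finset.mem_insert_of_mem hx.1)
  rw [wt_zero h1.1 h1.2 h3]
  simpa using wt_T hx

theorem loses_adj_T_leaf (hv : WV G S v ∨ PV G S v) {x : V} (hx : TV G S x) (h : G.Adj v x)
    (hl : Leaf G x) : Loses G S v x 2 := by
  unfold Loses
  have h1 := not_active_of_adj hv h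
  have h3 : ¬ PV G (insert v S) x := fun hp => hp.1 (Finset.mem_insert_of_mem hx.1)
  rw [wt_zero h1.1 h1.2 h3, wt_T_leaf hx hl]

/-- a white vertex which becomes isolated loses 2 -/
theorem loses_iso (hv : WV G S v ∨ PV G S v) {x : V} (hx : WV G S x) (hxv : x ≠ v)
    (h : ¬ G.Adj v x) (hd : ∀ y, WV G S y → G.Adj x y → G.Adj v y) : Loses G S v x 2 := by
  unfold Loses
  have h1 : ¬ WV G (insert v S) x := by
    rw [WV_insert hv]
    rintro ⟨-, -, -, y, h4, h5, h6⟩
    exact h6 (hd y h4 h5)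
  have h2 : ¬ TV G (insert v S) x := by
    rw [TV_insert hv]
    rintro (⟨h, -⟩ | ⟨h, -⟩)
    · exact not_WV_of_TV h hx
    · exact hxv h
  have h3 : ¬ PV G (insert v S) x := by
    rw [PV_insert hv]
    rintro ⟨-, h4 | h4, -⟩
    · exact not_WV_of_PV h4 hx
    · exact h h4.2
  rw [wt_zero h1 h2 h3, wt_W hx]

/-- after the move, `y` is inactive -/
theorem iso_not_active (hv : WV G S v ∨ PV G S v) {x : V} (hx : WV G S x) (hxv : x ≠ v)
    (hd : ∀ y, WV G S y → G.Adj x y → G.Adj v y) :
    ¬ WV G (insert v S) x ∧ ¬ TV G (insert v S) x := by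
  constructor
  · rw [WV_insert hv]
    rintro ⟨-, -, -, y, h4, h5, h6⟩
    exact h6 (hd y h4 h5)
  · rw [TV_insert hv]
    rintro (⟨h, -⟩ | ⟨h, -⟩)
    · exact not_WV_of_TV h hx
    · exact hxv h

/-- a grey vertex dies if all its neighbours are inactive afterwards -/
theorem loses_dead (hv : WV G S v ∨ PV G S v) {x : V} (hx : PV G S x)
    (hd : ∀ y, G.Adj x y → ¬ WV G (insert v S) y ∧ ¬ TV G (insert v S) y) :
    Loses G S v x 1 := by
  unfold Loses
  have h1 : ¬ WV G (insert v S) x := by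
    rw [WV_insert hv]
    exact fun h => not_WV_of_PV hx h.1
  have h2 : ¬ TV G (insert v S) x ∨ x = v := by
    rw [TV_insert hv]
    by_cases h : x = v
    · exact Or.inr h
    · left
      rintro (⟨h', -⟩ | ⟨h', -⟩)
      · exact not_TV_of_PV hx h'
      · exact h h'
  rcases h2 with h2 | rfl
  · have h3 : ¬ PV G (insert v S) x := by
      intro hp
      obtain ⟨y, hy, hxy⟩ := hp.2.2
      have := hd y hxy
      tauto
    rw [wt_zero h1 h2 h3, wt_P hx]
  · exact loses_self_P hx

/-- what is active after the move was active before -/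
theorem not_active_of (hv : WV G S v ∨ PV G S v) {x : V} (hx : ¬ WV G S x ∧ ¬ TV G S x) :
    ¬ WV G (insert v S) x ∧ ¬ TV G (insert v S) x := by
  constructor
  · rw [WV_insert hv]
    exact fun h => hx.1 h.1
  · rw [TV_insert hv]
    rintro (⟨h, -⟩ | ⟨rfl, h⟩)
    · exact hx.2 h
    · exact hx.1 h

/-- playable in terms of colours -/
def Pl (G : SimpleGraph V) (S : Finset V) (v : V) : Prop := WV G S v ∨ PV G S v

theorem value_true_le {d : V} (hd : Pl G S d) :
    gameValue G true S ≤ 1 + gameValue G false (insert d S) := by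
  have hd' : Playable G S d := (playable_iff G S d).2 hd
  rw [gameValue]
  rw [if_pos ⟨d, hd'⟩]
  simp only [if_true]
  apply Nat.add_le_add_left
  exact ciInf_le (OrderBot.bddBelow _) (⟨d, hd'⟩ : {v // Playable G S v})

theorem value_false_le (m : ℕ) (h : ∀ v, Pl G S v → gameValue G true (insert v S) + 1 ≤ m) :
    gameValue G false S ≤ m := by
  rw [gameValue]
  by_cases h1 : ∃ v, Playable G S v
  · rw [if_pos h1]
    obtain ⟨v, hv⟩ := h1
    have h2 := h v ((playable_iff G S v).1 hv)
    have : Nonempty {v // Playable G S v} := ⟨⟨v, hv⟩⟩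
    have h3 : (⨆ v : {v // Playable G S v}, gameValue G true (insert v.1 S)) ≤ m - 1 := by
      apply ciSup_le
      intro w
      have := h w.1 ((playable_iff G S w.1).1 w.2)
      omega
    rw [if_neg (by simp)]
    omega
  · rw [if_neg h1]
    exact Nat.zero_le _

theorem value_true_zero (h : ∀ v, ¬ Pl G S v) : gameValue G true S = 0 := by
  rw [gameValue]
  rw [if_neg]
  rintro ⟨v, hv⟩
  exact h v ((playable_iff G S v).1 hv)

/-- `Good G S g`: Dominator, to move, is `g` units below the bound `Phi / 3`. -/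
def Good (G : SimpleGraph V) (S : Finset V) (g : ℕ) : Prop :=
  3 * gameValue G true S + g ≤ Phi G S

/-- one round of the game -/
theorem good_step {g : ℕ} {d : V} (hd : Pl G S d) (h0 : 3 + g ≤ Phi G S)
    (h : ∀ v, Pl G (insert d S) v →
      3 * gameValue G true (insert v (insert d S)) + 6 + g ≤ Phi G S) : Good G S g := by
  unfold Good
  have h1 := value_true_le hd
  have h2 : gameValue G false (insert d S) ≤ (Phi G S - g) / 3 - 1 := by
    apply value_false_le
    intro v hv
    have := h v hv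
    omega
  omega

/-- active vertices -/
def Act (G : SimpleGraph V) (S : Finset V) (x : V) : Prop := WV G S x ∨ TV G S x

/-- no component has exactly two vertices (local form) -/
def NoK2 (G : SimpleGraph V) : Prop :=
  ∀ x y, G.Adj x y → ∃ z, z ≠ x ∧ z ≠ y ∧ (G.Adj z x ∨ G.Adj z y)

/-- some move of Dominator decreases the potential by at least five -/
def Five (G : SimpleGraph V) (S : Finset V) : Prop :=
  ∃ d, Pl G S d ∧ Phi G (insert d S) + 5 ≤ Phi G S

/-- no white vertex is a leaf of `G` -/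
def NL (G : SimpleGraph V) (S : Finset V) : Prop := ∀ w, WV G S w → ¬ Leaf G w

theorem not_leaf {x y z : V} (h1 : G.Adj x y) (h2 : G.Adj x z) (h : y ≠ z) : ¬ Leaf G x :=
  fun hl => h (hl y z h1 h2)

theorem not_act_iff {x : V} : ¬ Act G S x ↔ ¬ WV G S x ∧ ¬ TV G S x := by
  unfold Act; tauto

theorem PV.not_act {x : V} (h : PV G S x) : ¬ WV G S x ∧ ¬ TV G S x :=
  ⟨not_WV_of_PV h, not_TV_of_PV h⟩

theorem loses_adj_act (hv : Pl G S v) {x : V} (hx : Act G S x) (h : G.Adj v x) :
    Loses G S v x 1 := by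
  rcases hx with hx | hx
  · exact loses_adj_W hv hx h
  · exact loses_adj_T hv hx h

/-- K2 component of white vertices with an outer neighbour of the first vertex -/
theorem five_K2_aux {z y p : V} (hz : WV G S z) (hy : WV G S y) (hzy : G.Adj z y)
    (uz : ∀ u, WV G S u → G.Adj z u → u = y) (uy : ∀ u, WV G S u → G.Adj y u → u = z)
    (hp : PV G S p) (hpz : G.Adj p z) : Five G S := by
  have hv : Pl G S p := Or.inr hp
  refine ⟨p, hv, ?_⟩
  have hpy : p ≠ y := fun h => not_WV_of_PV hp (h ▸ hy)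
  have hpz' : p ≠ z := hpz.ne
  have hyin : ¬ WV G (insert p S) y ∧ ¬ TV G (insert p S) y := by
    apply iso_not_active hv hy hpy.symm
    intro u hu hyu
    rw [uy u hu hyu]; exact hpz
  have l1 : Loses G S p z 2 := by
    apply loses_adj_W_two hv hz hpz
    intro u hzu
    rcases hz.adj hzu with hu | hu
    · rw [uz u hu hzu]; exact hyin
    · exact not_active_of hv hu.not_act
  have l2 : Loses G S p y 2 := by
    by_cases h : G.Adj p y
    · apply loses_adj_W_two hv hy h
      intro u hyu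
      rcases hy.adj hyu with hu | hu
      · rw [uy u hu hyu]; exact not_active_of_adj hv hpz
      · exact not_active_of hv hu.not_act
    · apply loses_iso hv hy hpy.symm h
      intro u hu hyu
      rw [uy u hu hyu]; exact hpz
  exact drop3 hv (loses_self_P hp) l1 l2 hpz' hpy hzy.ne

theorem five_K2 (hC : NoK2 G) {z y : V} (hz : WV G S z) (hy : WV G S y) (hzy : G.Adj z y)
    (uz : ∀ u, WV G S u → G.Adj z u → u = y) (uy : ∀ u, WV G S u → G.Adj y u → u = z) :
    Five G S := by
  obtain ⟨p, hpz, hpy, h | h⟩ := hC z y hzy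
  · have hp : PV G S p := by
      rcases hz.adj h.symm with h' | h'
      · exact absurd (uz p h' h.symm) hpy
      · exact h'
    exact five_K2_aux hz hy hzy uz uy hp h
  · have hp : PV G S p := by
      rcases hy.adj h.symm with h' | h'
      · exact absurd (uy p h' h.symm) hpz
      · exact h'
    exact five_K2_aux hy hz hzy.symm uy uz hp h

/-- a white vertex at distance two from a white vertex of white degree one -/
theorem five_P4 {z y x x' : V} (hz : WV G S z) (hy : WV G S y) (hx : WV G S x) (hx' : WV G S x')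
    (hyx : G.Adj y x) (hxx' : G.Adj x x') (hx'y : x' ≠ y) (hzy : G.Adj z y)
    (hxz : x ≠ z)
    (uz : ∀ u, WV G S u → G.Adj z u → u = y) : Five G S := by
  have hv : Pl G S x := Or.inl hx
  refine ⟨x, hv, ?_⟩
  have hx'z : x' ≠ z := by
    rintro rfl
    exact hyx.ne (uz x hx hxx'.symm).symm
  have l1 := loses_self_W hx (not_leaf hyx.symm hxx' hx'y.symm)
  have l2 := loses_adj_W hv hy hyx.symm
  have l3 := loses_adj_W hv hx' hxx'
  have l4 : Loses G S x z 2 := by
    apply loses_iso hv hz hxz.symm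
    · intro h
      exact hyx.ne (uz x hx h.symm).symm
    · intro u hu hzu
      rw [uz u hu hzu]; exact hyx.symm
  exact drop4 hv l1 l2 l3 l4 hyx.ne.symm hxx'.ne hxz hx'y.symm hzy.ne.symm hx'z

/-- star -/
theorem five_star {z y x x' : V} (hz : WV G S z) (hy : WV G S y) (hx : WV G S x)
    (hx' : WV G S x') (hzy : G.Adj z y)
    (hxz : x ≠ z) (hx'z : x' ≠ z) (hxx' : x ≠ x') (hyx : G.Adj y x) (hyx' : G.Adj y x')
    (uz : ∀ u, WV G S u → G.Adj z u → u = y)
    (ux : ∀ u, WV G S u → G.Adj x u → u = y)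
    (ux' : ∀ u, WV G S u → G.Adj x' u → u = y) : Five G S := by
  have hv : Pl G S z := Or.inl hz
  refine ⟨z, hv, ?_⟩
  have l2 := loses_adj_W hv hy hzy
  have l3 : Loses G S z x 2 := by
    apply loses_iso hv hx hxz
    · intro h
      exact hyx.ne (uz x hx h).symm
    · intro u hu hxu
      rw [ux u hu hxu]; exact hzy
  have l4 : Loses G S z x' 2 := by
    apply loses_iso hv hx' hx'z
    · intro h
      exact hyx'.ne (uz x' hx' h).symm
    · intro u hu hxu
      rw [ux' u hu hxu]; exact hzy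
  exact drop3 hv l2 l3 l4 hyx.ne hyx'.ne hxx'

/-- a white component which is a path `z, y, x` on three vertices -/
structure IsP3 (G : SimpleGraph V) (S : Finset V) (z y x : V) : Prop where
  hz : WV G S z
  hy : WV G S y
  hx : WV G S x
  zy : G.Adj z y
  yx : G.Adj y x
  ne : z ≠ x
  uz : ∀ u, WV G S u → G.Adj z u → u = y
  uy : ∀ u, WV G S u → G.Adj y u → u = z ∨ u = x
  ux : ∀ u, WV G S u → G.Adj x u → u = y

theorem IsP3.symm {z y x : V} (h : IsP3 G S z y x) : IsP3 G S x y z where
  hz := h.hx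
  hy := h.hy
  hx := h.hz
  zy := h.yx.symm
  yx := h.zy.symm
  ne := h.ne.symm
  uz := h.ux
  uy := fun u hu hyu => (h.uy u hu hyu).symm
  ux := h.uz

theorem IsP3.nzx {z y x : V} (h : IsP3 G S z y x) : ¬ G.Adj z x := fun h' =>
  h.yx.ne (h.uz x h.hx h').symm

/-- Lemma R -/
theorem lemmaR (hC : NoK2 G) {z y : V} (hz : WV G S z) (hy : WV G S y) (hzy : G.Adj z y)
    (uz : ∀ u, WV G S u → G.Adj z u → u = y) : Five G S ∨ ∃ x, IsP3 G S z y x := by
  by_cases h1 : ∃ x, WV G S x ∧ G.Adj y x ∧ x ≠ z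
  · obtain ⟨x, hx, hyx, hxz⟩ := h1
    by_cases h2 : ∃ x', WV G S x' ∧ G.Adj x x' ∧ x' ≠ y
    · obtain ⟨x', hx', hxx', hx'y⟩ := h2
      exact Or.inl (five_P4 hz hy hx hx' hyx hxx' hx'y hzy hxz uz)
    · have ux : ∀ u, WV G S u → G.Adj x u → u = y := by
        intro u hu hxu
        by_contra h
        exact h2 ⟨u, hu, hxu, h⟩
      by_cases h3 : ∃ w, WV G S w ∧ G.Adj y w ∧ w ≠ z ∧ w ≠ x
      · obtain ⟨w, hw, hyw, hwz, hwx⟩ := h3
        left
        by_cases h4 : ∃ x', WV G S x' ∧ G.Adj w x' ∧ x' ≠ y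
        · obtain ⟨x', hx', hxx', hx'y⟩ := h4
          exact five_P4 hz hy hw hx' hyw hxx' hx'y hzy hwz uz
        · have uw : ∀ u, WV G S u → G.Adj w u → u = y := by
            intro u hu hxu
            by_contra h
            exact h4 ⟨u, hu, hxu, h⟩
          exact five_star hz hy hx hw hzy hxz hwz hwx.symm hyx hyw uz ux uw
      · right
        refine ⟨x, hz, hy, hx, hzy, hyx, hxz.symm, uz, ?_, ux⟩
        intro u hu hyu
        by_contra h
        push Not at h
        exact h3 ⟨u, hu, hyu, h.1, h.2⟩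
  · left
    apply five_K2 hC hz hy hzy uz
    intro u hu hyu
    by_contra h
    exact h1 ⟨u, hu, hyu, h⟩

/-- the middle of a white `P3` has an outer neighbour -/
theorem five_P3_mid {z y x p : V} (h : IsP3 G S z y x) (hp : PV G S p) (hpy : G.Adj p y) :
    Five G S := by
  have hv : Pl G S p := Or.inr hp
  refine ⟨p, hv, ?_⟩
  have hpz : p ≠ z := fun h' => not_WV_of_PV hp (h' ▸ h.hz)
  have hpx : p ≠ x := fun h' => not_WV_of_PV hp (h' ▸ h.hx)
  have aux : ∀ w, WV G S w → w ≠ p → (∀ u, WV G S u → G.Adj w u → u = y) → Loses G S p w 2 := by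
    intro w hw hwp uw
    by_cases hpw : G.Adj p w
    · apply loses_adj_W_two hv hw hpw
      intro u hwu
      rcases hw.adj hwu with hu | hu
      · rw [uw u hu hwu]; exact not_active_of_adj hv hpy
      · exact not_active_of hv hu.not_act
    · apply loses_iso hv hw hwp hpw
      intro u hu hwu
      rw [uw u hu hwu]; exact hpy
  exact drop3 hv (loses_self_P hp) (aux z h.hz hpz.symm h.uz) (aux x h.hx hpx.symm h.ux)
    hpz hpx h.ne

theorem four_P3 {z y x : V} (h : IsP3 G S z y x) (hl : ¬ Leaf G z) :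
    Phi G (insert z S) + 4 ≤ Phi G S := by
  have hv : Pl G S z := Or.inl h.hz
  have l3 : Loses G S z x 2 := by
    apply loses_iso hv h.hx h.ne.symm h.nzx
    intro u hu hxu
    rw [h.ux u hu hxu]; exact h.zy
  exact drop3 hv (loses_self_W h.hz hl) (loses_adj_W hv h.hy h.zy) l3 h.zy.ne h.ne h.yx.ne

/-- an outer vertex all of whose active neighbours belong to the `P3` -/
theorem five_P3_hang_aux {z y x q : V} (h : IsP3 G S z y x) (hq : PV G S q)
    (hqz : ¬ G.Adj q z) (hqy : ¬ G.Adj q y)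
    (uq : ∀ u, Act G S u → G.Adj q u → u = z ∨ u = y ∨ u = x) (hl : ¬ Leaf G z) :
    Five G S := by
  have hv : Pl G S z := Or.inl h.hz
  refine ⟨z, hv, ?_⟩
  have hqz' : q ≠ z := fun h' => not_WV_of_PV hq (h' ▸ h.hz)
  have hqx' : q ≠ x := fun h' => not_WV_of_PV hq (h' ▸ h.hx)
  have hqy' : q ≠ y := fun h' => not_WV_of_PV hq (h' ▸ h.hy)
  have l3 : Loses G S z x 2 := by
    apply loses_iso hv h.hx h.ne.symm h.nzx
    intro u hu hxu
    rw [h.ux u hu hxu]; exact h.zy
  have l4 : Loses G S z q 1 := by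
    apply loses_dead hv hq
    intro u hqu
    by_cases hu : Act G S u
    · rcases uq u hu hqu with rfl | rfl | rfl
      · exact absurd hqu hqz
      · exact absurd hqu hqy
      · apply iso_not_active hv h.hx h.ne.symm
        intro w hw hxw
        rw [h.ux w hw hxw]; exact h.zy
    · exact not_active_of hv (not_act_iff.1 hu)
  exact drop4 hv (loses_self_W h.hz hl) (loses_adj_W hv h.hy h.zy) l3 l4 h.zy.ne h.ne hqz'.symm
    h.yx.ne hqy'.symm hqx'.symm

theorem five_P3_hang {z y x q : V} (h : IsP3 G S z y x) (hq : PV G S q)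
    (uq : ∀ u, Act G S u → G.Adj q u → u = z ∨ u = y ∨ u = x) (hlz : ¬ Leaf G z)
    (hlx : ¬ Leaf G x) : Five G S := by
  by_cases hqy : G.Adj q y
  · exact five_P3_mid h hq hqy
  by_cases hqz : G.Adj q z
  · by_cases hqx : G.Adj q x
    · have hv : Pl G S q := Or.inr hq
      refine ⟨q, hv, ?_⟩
      have hqy' : q ≠ y := fun h' => not_WV_of_PV hq (h' ▸ h.hy)
      have yin : ∀ u, WV G S u → G.Adj y u → G.Adj q u := by
        intro u hu hyu
        rcases h.uy u hu hyu with rfl | rfl
        · exact hqz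
        · exact hqx
      have l1 : Loses G S q z 2 := by
        apply loses_adj_W_two hv h.hz hqz
        intro u hzu
        rcases h.hz.adj hzu with hu | hu
        · rw [h.uz u hu hzu]; exact iso_not_active hv h.hy hqy'.symm yin
        · exact not_active_of hv hu.not_act
      have l2 : Loses G S q y 2 := loses_iso hv h.hy hqy'.symm hqy yin
      exact drop3 hv (loses_self_P hq) l1 l2 hqz.ne hqy' h.zy.ne
    · apply five_P3_hang_aux h.symm hq hqx hqy _ hlx
      intro u hu hqu
      rcases uq u hu hqu with h' | h' | h' <;> tauto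
  · exact five_P3_hang_aux h hq hqz hqy uq hlz

/-! ### replies -/

theorem Pl.drop_one (hv : Pl G S v) : Phi G (insert v S) + 1 ≤ Phi G S := by
  rcases hv with h | h
  · obtain ⟨y, hy, hvy⟩ := h.exists_adj
    exact drop1 (Or.inl h) (loses_adj_W (Or.inl h) hy hvy)
  · exact drop1 (Or.inr h) (loses_self_P h)

theorem Pl.drop_two (hv : Pl G S v) (h : WV G S v → ¬ Leaf G v) :
    Phi G (insert v S) + 2 ≤ Phi G S := by
  rcases hv with h' | h'
  · obtain ⟨y, hy, hvy⟩ := h'.exists_adj
    exact drop2 (Or.inl h') (loses_self_W h' (h h')) (loses_adj_W (Or.inl h') hy hvy) hvy.ne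
  · obtain ⟨y, hy, hvy⟩ := h'.exists_adj
    exact drop2 (Or.inr h') (loses_self_P h') (loses_adj_act (Or.inr h') hy hvy) hvy.ne

theorem drop_three_P (hv : PV G S v) {u u' : V} (hu : Act G S u) (hu' : Act G S u')
    (h : G.Adj v u) (h' : G.Adj v u') (hne : u ≠ u') : Phi G (insert v S) + 3 ≤ Phi G S :=
  drop3 (Or.inr hv) (loses_self_P hv) (loses_adj_act (Or.inr hv) hu h)
    (loses_adj_act (Or.inr hv) hu' h') h.ne h'.ne hne

theorem drop_three_W (hv : WV G S v) {u u' : V} (hu : WV G S u) (hu' : WV G S u')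
    (h : G.Adj v u) (h' : G.Adj v u') (hne : u ≠ u') : Phi G (insert v S) + 3 ≤ Phi G S :=
  drop3 (Or.inl hv) (loses_self_W hv (not_leaf h h' hne)) (loses_adj_W (Or.inl hv) hu h)
    (loses_adj_W (Or.inl hv) hu' h') h.ne h'.ne hne

theorem NL.ins (h : NL G S) (hv : Pl G S v) : NL G (insert v S) := by
  intro w hw
  exact h w ((WV_insert hv w).1 hw).1

/-! ### persistence -/

theorem WV.persist {x y : V} (hx : WV G S x) (hv : Pl G S v) (h1 : x ≠ v) (h2 : ¬ G.Adj v x)
    (hy : WV G S y) (hxy : G.Adj x y) (h3 : ¬ G.Adj v y) : WV G (insert v S) x :=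
  (WV_insert hv x).2 ⟨hx, h1, h2, y, hy, hxy, h3⟩

theorem TV.persist {x : V} (hx : TV G S x) (hv : Pl G S v) (h2 : ¬ G.Adj v x) :
    TV G (insert v S) x := (TV_insert hv x).2 (Or.inl ⟨hx, h2⟩)

theorem PV.persist {x y : V} (hx : PV G S x) (hv : Pl G S v) (h1 : x ≠ v)
    (hy : Act G (insert v S) y) (hxy : G.Adj x y) : PV G (insert v S) x :=
  (PV_insert hv x).2 ⟨h1, Or.inl hx, y, hy, hxy⟩

theorem PV.of_WV {x y : V} (hx : WV G S x) (hv : Pl G S v) (h1 : G.Adj v x)
    (hy : Act G (insert v S) y) (hxy : G.Adj x y) : PV G (insert v S) x :=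
  (PV_insert hv x).2 ⟨h1.ne.symm, Or.inr ⟨hx, h1⟩, y, hy, hxy⟩

theorem WV.of_insert {x : V} (hv : Pl G S v) (h : WV G (insert v S) x) : WV G S x :=
  ((WV_insert hv x).1 h).1

theorem WV.not_adj {x : V} (hv : Pl G S v) (h : WV G (insert v S) x) : ¬ G.Adj v x :=
  ((WV_insert hv x).1 h).2.2.1

theorem WV.ne_insert {x : V} (hv : Pl G S v) (h : WV G (insert v S) x) : x ≠ v :=
  ((WV_insert hv x).1 h).2.1

/-- an active vertex after the move is active before, and not adjacent to the vertex played -/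
theorem Act.of_insert {x : V} (hv : Pl G S v) (h : Act G (insert v S) x) :
    Act G S x ∧ ¬ G.Adj v x := by
  rcases h with h | h
  · exact ⟨Or.inl (h.of_insert hv), h.not_adj hv⟩
  · rcases (TV_insert hv x).1 h with h | ⟨rfl, h⟩
    · exact ⟨Or.inr h.1, h.2⟩
    · exact ⟨Or.inl h, fun h => h.ne rfl⟩

theorem IsP3.persist {z y x : V} (h : IsP3 G S z y x) (hv : Pl G S v) (h1 : v ≠ z) (h2 : v ≠ y)
    (h3 : v ≠ x) (n1 : ¬ G.Adj v z) (n2 : ¬ G.Adj v y) (n3 : ¬ G.Adj v x) :
    IsP3 G (insert v S) z y x where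
  hz := h.hz.persist hv h1.symm n1 h.hy h.zy n2
  hy := h.hy.persist hv h2.symm n2 h.hz h.zy.symm n1
  hx := h.hx.persist hv h3.symm n3 h.hy h.yx.symm n2
  zy := h.zy
  yx := h.yx
  ne := h.ne
  uz := fun u hu hzu => h.uz u (hu.of_insert hv) hzu
  uy := fun u hu hzu => h.uy u (hu.of_insert hv) hzu
  ux := fun u hu hzu => h.ux u (hu.of_insert hv) hzu

/-- Lemma H: the threat of a hanging `P3` survives every reply of drop two. -/
theorem lemmaH (hC : NoK2 G) (hNL : NL G S) {z y x q : V} (h : IsP3 G S z y x) (hq : PV G S q)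
    (hqx : G.Adj q x) (uq : ∀ u, Act G S u → G.Adj q u → u = x) (hv : Pl G S v) :
    Phi G (insert v S) + 3 ≤ Phi G S ∨ Five G (insert v S) := by
  have hlz := hNL z h.hz
  have hlx := hNL x h.hx
  -- the case in which the structure persists
  have pers : v ≠ z → v ≠ y → v ≠ x → v ≠ q → ¬ G.Adj v z → ¬ G.Adj v y → ¬ G.Adj v x →
      Five G (insert v S) := by
    intro h1 h2 h3 h4 n1 n2 n3
    have hP := h.persist hv h1 h2 h3 n1 n2 n3
    apply five_P3_hang hP (hq.persist hv h4.symm (Or.inl hP.hx) hqx) _ hlz hlx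
    intro u hu hqu
    right; right
    exact uq u (Act.of_insert hv hu).1 hqu
  rcases hv with hvW | hvP
  · by_cases h1 : v = z
    · subst h1
      have := four_P3 h hlz
      left; omega
    by_cases h2 : v = x
    · subst h2
      have := four_P3 h.symm hlx
      left; omega
    by_cases h3 : v = y
    · subst h3
      left
      exact drop_three_W h.hy h.hz h.hx h.zy.symm h.yx h.ne
    right
    apply pers h1 h3 h2
    · intro h4
      exact not_WV_of_PV hq (h4 ▸ hvW)
    · intro hvz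
      exact h3 (h.uz v hvW hvz.symm)
    · intro hvy
      rcases h.uy v hvW hvy.symm with h' | h'
      · exact h1 h'
      · exact h2 h'
    · intro hvx
      exact h3 (h.ux v hvW hvx.symm)
  · have hv' : Pl G S v := Or.inr hvP
    have hvz : v ≠ z := fun h' => not_WV_of_PV hvP (h' ▸ h.hz)
    have hvy : v ≠ y := fun h' => not_WV_of_PV hvP (h' ▸ h.hy)
    have hvx : v ≠ x := fun h' => not_WV_of_PV hvP (h' ▸ h.hx)
    by_cases h2 : ∃ u u', u ≠ u' ∧ Act G S u ∧ Act G S u' ∧ G.Adj v u ∧ G.Adj v u'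
    · obtain ⟨u, u', hne, hu, hu', h3, h4⟩ := h2
      exact Or.inl (drop_three_P hvP hu hu' h3 h4 hne)
    have uni : ∀ u u', Act G S u → Act G S u' → G.Adj v u → G.Adj v u' → u = u' := by
      intro u u' hu hu' h3 h4
      by_contra hne
      exact h2 ⟨u, u', hne, hu, hu', h3, h4⟩
    by_cases a1 : G.Adj v z
    · right
      have n2 : ¬ G.Adj v y := fun h' => h.zy.ne (uni z y (Or.inl h.hz) (Or.inl h.hy) a1 h')
      have n3 : ¬ G.Adj v x := fun h' => h.ne (uni z x (Or.inl h.hz) (Or.inl h.hx) a1 h')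
      have hy' := h.hy.persist hv' hvy.symm n2 h.hx h.yx n3
      have hx' := h.hx.persist hv' hvx.symm n3 h.hy h.yx.symm n2
      apply five_K2 hC hy' hx' h.yx
      · intro u hu hyu
        rcases h.uy u (hu.of_insert hv') hyu with rfl | h'
        · exact absurd a1 (hu.not_adj hv')
        · exact h'
      · intro u hu hxu
        exact h.ux u (hu.of_insert hv') hxu
    by_cases a3 : G.Adj v x
    · right
      have n2 : ¬ G.Adj v y := fun h' => h.yx.ne (uni x y (Or.inl h.hx) (Or.inl h.hy) a3 h').symm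
      have hy' := h.hy.persist hv' hvy.symm n2 h.hz h.zy.symm a1
      have hz' := h.hz.persist hv' hvz.symm a1 h.hy h.zy n2
      apply five_K2 hC hz' hy' h.zy
      · intro u hu hzu
        exact h.uz u (hu.of_insert hv') hzu
      · intro u hu hyu
        rcases h.uy u (hu.of_insert hv') hyu with h' | rfl
        · exact h'
        · exact absurd a3 (hu.not_adj hv')
    by_cases a2 : G.Adj v y
    · left
      have l2 : Loses G S v z 2 := by
        apply loses_iso hv' h.hz hvz.symm a1
        intro u hu hzu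
        rw [h.uz u hu hzu]; exact a2
      exact drop2 hv' (loses_self_P hvP) l2 hvz
    right
    apply pers hvz hvy hvx _ a1 a2 a3
    rintro rfl
    exact a3 hqx

/-! ### values -/

/-- the inductive hypothesis -/
def IH (G : SimpleGraph V) (S : Finset V) (I : Finset V → Prop) : Prop :=
  ∀ S', S ⊂ S' → I S' → 3 * gameValue G true S' ≤ Phi G S'

/-- the invariant -/
def Inv (G : SimpleGraph V) (S : Finset V) : Prop :=
  ∀ Q : Finset V, (∀ t ∈ Q, TV G S t) → Q.Nonempty →
    ∃ t ∈ Q, ∃ p, G.Adj p t ∧ ∀ q ∈ Q, G.Adj p q → q = t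

theorem Inv.ins (h : Inv G S) (hv : Pl G S v) : Inv G (insert v S) := by
  intro Q hQ hne
  by_cases hvQ : v ∈ Q
  · have hvW : WV G S v := by
      rcases (TV_insert hv v).1 (hQ v hvQ) with h1 | h1
      · rcases hv with h2 | h2
        · exact h2
        · exact absurd h1.1 (not_TV_of_PV h2)
      · exact h1.2
    obtain ⟨w, hw, hvw⟩ := hvW.exists_adj
    refine ⟨v, hvQ, w, hvw.symm, ?_⟩
    intro q hq hwq
    by_contra hqv
    rcases (TV_insert hv q).1 (hQ q hq) with h1 | h1
    · exact hw.2.1 ⟨q, h1.1.1, hwq.symm⟩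
    · exact hqv h1.1
  · apply h Q _ hne
    intro t ht
    rcases (TV_insert hv t).1 (hQ t ht) with h1 | h1
    · exact h1.1
    · exact absurd (h1.1 ▸ ht) hvQ

theorem Pl.not_mem (hv : Pl G S v) : v ∉ S := by
  rcases hv with h | h
  · exact h.1
  · exact h.1

theorem IH.ins (h : IH G S (Inv G)) (hv : Pl G S v) : IH G (insert v S) (Inv G) := by
  intro S' hS' hI
  exact h S' (lt_trans (Finset.ssubset_insert hv.not_mem) hS') hI

theorem IH.apply2 (h : IH G S (Inv G)) (hI : Inv G S) {d : V} (hd : Pl G S d)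
    (hv : Pl G (insert d S) v) :
    3 * gameValue G true (insert v (insert d S)) ≤ Phi G (insert v (insert d S)) :=
  h _ (lt_trans (Finset.ssubset_insert hd.not_mem) (Finset.ssubset_insert hv.not_mem))
    ((hI.ins hd).ins hv)

/-- greedy: a drop of five pays a debt of one -/
theorem good_of_five (hIH : IH G S (Inv G)) (hI : Inv G S) (hNL : NL G S) (h5 : Five G S) :
    Good G S 1 := by
  obtain ⟨d, hd, h⟩ := h5
  apply good_step hd (by omega)
  intro v hv
  have h1 := hIH.apply2 hI hd hv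
  have h2 := hv.drop_two (fun hw => hNL.ins hd v hw)
  omega

theorem good_four (hIH : IH G S (Inv G)) (hI : Inv G S) (hNL : NL G S) {d : V} (hd : Pl G S d)
    (h4 : Phi G (insert d S) + 4 ≤ Phi G S)
    (h : ∀ v, Pl G (insert d S) v → Phi G (insert v (insert d S)) + 3 ≤ Phi G (insert d S) ∨
      Good G (insert v (insert d S)) 1) : Good G S 1 := by
  apply good_step hd (by omega)
  intro v hv
  have h1 := hIH.apply2 hI hd hv
  have h2 := hv.drop_two (fun hw => hNL.ins hd v hw)
  rcases h v hv with h3 | h3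
  · omega
  · unfold Good at h3
    omega

theorem good_three (hIH : IH G S (Inv G)) (hI : Inv G S) (hNL : NL G S) {d : V} (hd : Pl G S d)
    (h4 : Phi G (insert d S) + 3 ≤ Phi G S)
    (h : ∀ v, Pl G (insert d S) v → Phi G (insert v (insert d S)) + 3 ≤ Phi G (insert d S) ∨
      Good G (insert v (insert d S)) 1) : Good G S 0 := by
  apply good_step hd (by omega)
  intro v hv
  have h1 := hIH.apply2 hI hd hv
  have h2 := hv.drop_two (fun hw => hNL.ins hd v hw)
  rcases h v hv with h3 | h3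
  · omega
  · unfold Good at h3
    omega

/-- double `P3` -/
theorem good_DP3 (hC : NoK2 G) (hIH : IH G S (Inv G)) (hI : Inv G S) (hNL : NL G S)
    {z y x z' y' x' q : V} (h : IsP3 G S z y x) (h' : IsP3 G S z' y' x')
    (d1 : z ≠ z') (d2 : z ≠ y') (d3 : z ≠ x') (d4 : y ≠ z') (d5 : y ≠ y') (d6 : y ≠ x')
    (hq : PV G S q) (hqx' : G.Adj q x') (uq : ∀ u, Act G S u → G.Adj q u → u = x ∨ u = x') :
    Good G S 1 := by
  have hd : Pl G S z := Or.inl h.hz
  apply good_four hIH hI hNL hd (four_P3 h (hNL z h.hz))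
  have n1 : ¬ G.Adj z z' := fun h1 => d4 (h.uz z' h'.hz h1).symm
  have n2 : ¬ G.Adj z y' := fun h1 => d5 (h.uz y' h'.hy h1).symm
  have n3 : ¬ G.Adj z x' := fun h1 => d6 (h.uz x' h'.hx h1).symm
  have hP := h'.persist hd d1 d2 d3 n1 n2 n3
  have hqz : q ≠ z := fun h1 => not_WV_of_PV hq (h1 ▸ h.hz)
  have hq' := hq.persist hd hqz (Or.inl hP.hx) hqx'
  have hx : ¬ WV G (insert z S) x ∧ ¬ TV G (insert z S) x := by
    apply iso_not_active hd h.hx h.ne.symm
    intro u hu hxu
    rw [h.ux u hu hxu]; exact h.zy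
  intro v hv
  rcases lemmaH hC (hNL.ins hd) hP hq' hqx' (by
    intro u hu hqu
    rcases uq u (Act.of_insert hd hu).1 hqu with rfl | h1
    · exact absurd hu (not_act_iff.2 hx)
    · exact h1) hv with h1 | h1
  · exact Or.inl h1
  · right
    exact good_of_five ((hIH.ins hd).ins hv) ((hI.ins hd).ins hv)
      ((hNL.ins hd).ins hv) h1

/-- a white leaf, its neighbour, and an outer grey neighbour -/
theorem five_leaf {v x p : V} (hv : WV G S v) (hx : WV G S x) (hvx : G.Adj v x) (hl : Leaf G v)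
    (ux : ∀ u, WV G S u → G.Adj x u → u = v) (hp : PV G S p) (hpx : G.Adj p x) : Five G S := by
  refine five_K2_aux hx hv hvx.symm ux ?_ hp hpx
  intro u _ hvu
  exact hl u x hvu hvx

/-- Dominator's move of drop four leaves no reply of drop one -/
theorem reply_two (hC : NoK2 G) (no5 : ¬ Five G S) {d : V} (hd : Pl G S d)
    (hrule : WV G S d ∨ ∀ w, WV G S w → ¬ (Phi G (insert w S) + 4 ≤ Phi G S))
    (hv : Pl G (insert d S) v) :
    Phi G (insert v (insert d S)) + 2 ≤ Phi G (insert d S) := by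
  by_cases hl : WV G (insert d S) v ∧ Leaf G v
  swap
  · exact hv.drop_two (fun h1 h2 => hl ⟨h1, h2⟩)
  obtain ⟨hv1, hl⟩ := hl
  have hvS : WV G S v := hv1.of_insert hd
  obtain ⟨x, hx1, hvx⟩ := hv1.exists_adj
  have hxS : WV G S x := hx1.of_insert hd
  have hdx : ¬ G.Adj d x := hx1.not_adj hd
  have huniq : ∀ u, G.Adj v u → u = x := fun u hu => hl u x hu hvx
  by_cases hz : ∃ z, WV G S z ∧ G.Adj z x ∧ z ≠ v
  · obtain ⟨z, hzS, hzx, hzv⟩ := hz
    have hvz : ¬ G.Adj v z := fun h => hzx.ne (huniq z h)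
    by_cases hz' : ∃ z', WV G S z' ∧ G.Adj z z' ∧ z' ≠ x
    · exfalso
      apply no5
      obtain ⟨z', hz'S, hzz', hz'x⟩ := hz'
      exact five_P4 hvS hxS hzS hz'S hzx.symm hzz' hz'x hvx hzv (fun u _ h => huniq u h)
    · have uz : ∀ u, WV G S u → G.Adj z u → u = x := by
        intro u hu hzu
        by_contra h
        exact hz' ⟨u, hu, hzu, h⟩
      by_cases hz1 : WV G (insert d S) z
      · -- v's move isolates z
        have l1 := loses_adj_W hv hx1 hvx
        have l2 : Loses G (insert d S) v z 2 := by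
          apply loses_iso hv hz1 hzv hvz
          intro u hu hzu
          rw [uz u (hu.of_insert hd) hzu]; exact hvx
        have := drop2 hv l1 l2 hzx.ne.symm
        omega
      · exfalso
        have hdz : G.Adj d z := by
          by_contra hdz
          by_cases hzd : z = d
          · subst hzd
            exact hdx hzx
          · exact hz1 (hzS.persist hd hzd hdz hxS hzx hdx)
        have hdP : PV G S d := by
          rcases hd with h | h
          · exfalso
            have := uz d h hdz.symm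
            subst this
            exact hx1.ne_insert (Or.inl h) rfl
          · exact h
        rcases hrule with h | h
        · exact not_WV_of_PV hdP h
        · apply h z hzS
          have hv' : Pl G S z := Or.inl hzS
          have hxd : x ≠ d := hx1.ne_insert hd
          have l1 := loses_self_W hzS (not_leaf hzx hdz.symm hxd)
          have l2 := loses_adj_W hv' hxS hzx
          have l3 : Loses G S z v 2 := by
            apply loses_iso hv' hvS hzv.symm (fun h => hvz h.symm)
            intro u _ hvu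
            rw [huniq u hvu]; exact hzx
          exact drop3 hv' l1 l2 l3 hzx.ne hzv hvx.ne.symm
  · exfalso
    apply no5
    have ux : ∀ u, WV G S u → G.Adj x u → u = v := by
      intro u hu hxu
      by_contra h
      exact hz ⟨u, hu, hxu.symm, h⟩
    obtain ⟨p, hpv, hpx, h⟩ := hC v x hvx
    have hpx' : G.Adj p x := by
      rcases h with h | h
      · exact absurd (huniq p h.symm) hpx
      · exact h
    have hp : PV G S p := by
      rcases hxS.adj hpx'.symm with h | h
      · exact absurd (ux p h hpx'.symm) hpv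
      · exact h
    exact five_leaf hvS hxS hvx hl ux hp hpx'

/-! ### the structure when no move drops the potential by four -/

/-- no move of drop four -/
def No4 (G : SimpleGraph V) (S : Finset V) : Prop :=
  ∀ v, Pl G S v → ¬ (Phi G (insert v S) + 4 ≤ Phi G S)

theorem No4.no5 (h : No4 G S) : ¬ Five G S := by
  rintro ⟨d, hd, h5⟩
  exact h d hd (by omega)

theorem No4.W_three (h : No4 G S) {w a b c : V} (hw : WV G S w) (ha : WV G S a) (hb : WV G S b)
    (hc : WV G S c) (h1 : G.Adj w a) (h2 : G.Adj w b) (h3 : G.Adj w c) (hab : a ≠ b)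
    (hac : a ≠ c) (hbc : b ≠ c) : False := by
  have hv : Pl G S w := Or.inl hw
  apply h w hv
  exact drop4 hv (loses_self_W hw (not_leaf h1 h2 hab)) (loses_adj_W hv ha h1)
    (loses_adj_W hv hb h2) (loses_adj_W hv hc h3) h1.ne h2.ne h3.ne hab hac hbc

theorem No4.P_three (h : No4 G S) {w a b c : V} (hw : PV G S w) (ha : Act G S a)
    (hb : Act G S b) (hc : Act G S c) (h1 : G.Adj w a) (h2 : G.Adj w b) (h3 : G.Adj w c)
    (hab : a ≠ b) (hac : a ≠ c) (hbc : b ≠ c) : False := by
  have hv : Pl G S w := Or.inr hw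
  apply h w hv
  exact drop4 hv (loses_self_P hw) (loses_adj_act hv ha h1)
    (loses_adj_act hv hb h2) (loses_adj_act hv hc h3) h1.ne h2.ne h3.ne hab hac hbc

/-- white degree one: untouched `P3` -/
theorem No4.P3 (h : No4 G S) (hC : NoK2 G) {z y : V} (hz : WV G S z) (hy : WV G S y)
    (hzy : G.Adj z y) (uz : ∀ u, WV G S u → G.Adj z u → u = y) :
    ∃ x, IsP3 G S z y x ∧ Leaf G z ∧ Leaf G x ∧ (∀ u, G.Adj y u → u = z ∨ u = x) := by
  rcases lemmaR hC hz hy hzy uz with h5 | ⟨x, hP⟩
  · exact absurd h5 h.no5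
  refine ⟨x, hP, ?_, ?_, ?_⟩
  · by_contra hl
    exact h z (Or.inl hz) (four_P3 hP hl)
  · by_contra hl
    exact h x (Or.inl hP.hx) (four_P3 hP.symm hl)
  · intro u hyu
    rcases hy.adj hyu with hu | hu
    · exact hP.uy u hu hyu
    · exact absurd (five_P3_mid hP hu hyu.symm) h.no5

/-- a grey vertex with exactly one active neighbour hangs on a selected vertex all of whose
neighbours are such -/
theorem No4.pendant (h : No4 G S) (hC : NoK2 G) {p t : V} (hp : PV G S p) (ht : Act G S t)
    (hpt : G.Adj p t) (up : ∀ u, Act G S u → G.Adj p u → u = t) :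
    TV G S t ∧ ∀ p' u, G.Adj t p' → Act G S u → G.Adj p' u → u = t := by
  have hT : TV G S t := by
    rcases ht with ht | ht
    swap
    · exact ht
    exfalso
    obtain ⟨b, hb, htb⟩ := ht.exists_adj
    by_cases h2 : ∃ b2, WV G S b2 ∧ G.Adj b b2 ∧ b2 ≠ t
    · obtain ⟨b2, hb2, hbb2, hne⟩ := h2
      have hv : Pl G S b := Or.inl hb
      have hpb : p ≠ b := fun h' => not_WV_of_PV hp (h' ▸ hb)
      apply h b hv
      have l4 : Loses G S b p 1 := by
        apply loses_dead hv hp
        intro u hpu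
        by_cases hu : Act G S u
        · rw [up u hu hpu]
          exact not_active_of_adj hv htb.symm
        · exact not_active_of hv (not_act_iff.1 hu)
      refine drop4 hv (loses_self_W hb (not_leaf htb.symm hbb2 hne.symm)) (loses_adj_W hv ht htb.symm)
        (loses_adj_W hv hb2 hbb2) l4 htb.ne.symm hbb2.ne hpb.symm hne.symm ?_ ?_
      · exact hpt.ne.symm
      · rintro rfl
        exact not_WV_of_PV hp hb2
    · have ub : ∀ u, WV G S u → G.Adj b u → u = t := by
        intro u hu hbu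
        by_contra h'
        exact h2 ⟨u, hu, hbu, h'⟩
      obtain ⟨x, hP, -, -, hall⟩ := h.P3 hC hb ht htb.symm ub
      rcases hall p hpt.symm with rfl | rfl
      · exact not_WV_of_PV hp hb
      · exact not_WV_of_PV hp hP.hx
  refine ⟨hT, ?_⟩
  intro p' u htp' hu hp'u
  by_contra hne
  have hp' : PV G S p' := hT.adj htp'
  have hv : Pl G S p' := Or.inr hp'
  have hpp' : p ≠ p' := by
    rintro rfl
    exact hne (up u hu hp'u)
  apply h p' hv
  have l4 : Loses G S p' p 1 := by
    apply loses_dead hv hp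
    intro w hpw
    by_cases hw : Act G S w
    · rw [up w hw hpw]
      exact not_active_of_adj hv htp'.symm
    · exact not_active_of hv (not_act_iff.1 hw)
  refine drop4 hv (loses_self_P hp') (loses_adj_T hv hT htp'.symm) (loses_adj_act hv hu hp'u) l4
    htp'.ne.symm hp'u.ne hpp'.symm (Ne.symm hne) hpt.ne.symm ?_
  rintro rfl
  exact not_act_iff.2 hp.not_act hu

/-- a selected leaf: its neighbour has no other active neighbour -/
theorem No4.leafT (h : No4 G S) {t p : V} (ht : TV G S t) (hl : Leaf G t) (htp : G.Adj t p) :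
    ∀ u, Act G S u → G.Adj p u → u = t := by
  intro u hu hpu
  by_contra hne
  have hp : PV G S p := ht.adj htp
  have hv : Pl G S p := Or.inr hp
  apply h p hv
  exact drop3 hv (loses_self_P hp) (loses_adj_T_leaf hv ht htp.symm hl) (loses_adj_act hv hu hpu)
    htp.ne.symm hpu.ne (Ne.symm hne)

/-- certificates for a drop of at least three -/
inductive Cert (G : SimpleGraph V) (S : Finset V) (v : V) : Prop
  | w2 (b y : V) (hv : WV G S v) (hb : WV G S b) (hy : WV G S y) (h1 : G.Adj v b)
      (h2 : G.Adj v y) (hne : b ≠ y)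
  | p3 (y x : V) (h : IsP3 G S v y x)
  | p2 (b y : V) (hv : PV G S v) (hb : Act G S b) (hy : Act G S y) (h1 : G.Adj v b)
      (h2 : G.Adj v y) (hne : b ≠ y)
  | tl (t : V) (hv : PV G S v) (ht : TV G S t) (h : G.Adj v t) (hl : Leaf G t)
  | tp (t p : V) (hv : PV G S v) (ht : TV G S t) (h : G.Adj v t) (hp : G.Adj t p) (hne : p ≠ v)
      (up : ∀ u, Act G S u → G.Adj p u → u = t)

theorem Cert.drop (h : Cert G S v) : Phi G (insert v S) + 3 ≤ Phi G S := by
  cases h with
  | w2 b y hv hb hy h1 h2 hne => exact drop_three_W hv hb hy h1 h2 hne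
  | p3 y x h =>
    have hv : Pl G S v := Or.inl h.hz
    have l3 : Loses G S v x 2 := by
      apply loses_iso hv h.hx h.ne.symm h.nzx
      intro u hu hxu
      rw [h.ux u hu hxu]; exact h.zy
    exact drop2 hv (loses_adj_W hv h.hy h.zy) l3 h.yx.ne
  | p2 b y hv hb hy h1 h2 hne => exact drop_three_P hv hb hy h1 h2 hne
  | tl t hv ht h hl =>
    exact drop2 (Or.inr hv) (loses_self_P hv) (loses_adj_T_leaf (Or.inr hv) ht h hl) h.ne
  | tp t p hv ht h hp hne up =>
    have hv' : Pl G S v := Or.inr hv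
    have l4 : Loses G S v p 1 := by
      apply loses_dead hv' (ht.adj hp)
      intro w hpw
      by_cases hw : Act G S w
      · rw [up w hw hpw]
        exact not_active_of_adj hv' h
      · exact not_active_of hv' (not_act_iff.1 hw)
    exact drop3 hv' (loses_self_P hv) (loses_adj_T hv' ht h) l4 h.ne hne.symm hp.ne

theorem No4.cert (h : No4 G S) (hC : NoK2 G) (hv : Pl G S v) : Cert G S v := by
  rcases hv with hv | hv
  · obtain ⟨y, hy, hvy⟩ := hv.exists_adj
    by_cases h2 : ∃ b, WV G S b ∧ G.Adj v b ∧ b ≠ y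
    · obtain ⟨b, hb, hvb, hne⟩ := h2
      exact Cert.w2 b y hv hb hy hvb hvy hne
    · obtain ⟨x, hP, -⟩ := h.P3 hC hv hy hvy (by
        intro u hu hvu
        by_contra h'
        exact h2 ⟨u, hu, hvu, h'⟩)
      exact Cert.p3 y x hP
  · obtain ⟨y, hy, hvy⟩ := hv.exists_adj
    by_cases h2 : ∃ b, Act G S b ∧ G.Adj v b ∧ b ≠ y
    · obtain ⟨b, hb, hvb, hne⟩ := h2
      exact Cert.p2 b y hv hb hy hvb hvy hne
    · have uv : ∀ u, Act G S u → G.Adj v u → u = y := by
        intro u hu hvu
        by_contra h'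
        exact h2 ⟨u, hu, hvu, h'⟩
      obtain ⟨hT, hall⟩ := h.pendant hC hv hy hvy uv
      by_cases hl : Leaf G y
      · exact Cert.tl y hv hT hvy hl
      · have : ∃ p, G.Adj y p ∧ p ≠ v := by
          by_contra hcon
          push Not at hcon
          apply hl
          intro a b ha hb
          rw [hcon a ha, hcon b hb]
        obtain ⟨p, hyp, hpv⟩ := this
        exact Cert.tp y p hv hT hvy hyp hpv (fun u hu hpu => hall p u hyp hu hpu)

/-- the vertex `x` and the active vertices are not touched by the move `d` -/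
theorem Act.persist_of {x d : V} (hx : Act G S x) (hd : Pl G S d) (h1 : x ≠ d)
    (h2 : ¬ G.Adj d x) (h3 : ∀ y, WV G S y → G.Adj x y → ¬ G.Adj d y) : Act G (insert d S) x := by
  rcases hx with hx | hx
  · obtain ⟨y, hy, hxy⟩ := hx.exists_adj
    exact Or.inl (hx.persist hd h1 h2 hy hxy (h3 y hy hxy))
  · exact Or.inr (hx.persist hd h2)

/-- Case I: an untouched `P3`. -/
theorem good_case_one (hC : NoK2 G) (hIH : IH G S (Inv G)) (hI : Inv G S) (h : No4 G S)
    {z y : V} (hz : WV G S z) (hy : WV G S y)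
    (hzy : G.Adj z y) (uz : ∀ u, WV G S u → G.Adj z u → u = y) : Good G S 0 := by
  obtain ⟨x, hP, lz, lx, hall⟩ := h.P3 hC hz hy hzy uz
  have hd : Pl G S y := Or.inl hy
  have h3 : Phi G (insert y S) + 3 ≤ Phi G S :=
    drop_three_W hy hz hP.hx hzy.symm hP.yx hP.ne
  apply good_step hd (by omega)
  intro v hv
  have h1 := hIH.apply2 hI hd hv
  suffices Phi G (insert v (insert y S)) + 3 ≤ Phi G (insert y S) by omega
  have hyT : TV G (insert y S) y := (TV_insert hd y).2 (Or.inr ⟨rfl, hy⟩)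
  have zall : ∀ u, G.Adj z u → u = y := fun u hu => lz u y hu hzy
  have xall : ∀ u, G.Adj x u → u = y := fun u hu => lx u y hu hP.yx.symm
  by_cases hvz : v = z
  · subst hvz
    have hzP : PV G (insert y S) v := PV.of_WV hz hd hzy.symm (Or.inr hyT) hzy
    apply Cert.drop
    refine Cert.tp y x hzP hyT hzy hP.yx hP.ne.symm ?_
    intro u _ hxu
    exact xall u hxu
  by_cases hvx : v = x
  · subst hvx
    have hzP : PV G (insert y S) v := PV.of_WV hP.hx hd hP.yx (Or.inr hyT) hP.yx.symm
    apply Cert.drop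
    refine Cert.tp y z hzP hyT hP.yx.symm hzy.symm hP.ne ?_
    intro u _ hxu
    exact zall u hxu
  have hvy : v ≠ y := by
    rintro rfl
    rcases hv with hv | hv
    · exact hv.1 (Finset.mem_insert_self _ _)
    · exact hv.1 (Finset.mem_insert_self _ _)
  -- `v` is playable in `S`
  have hvS : Pl G S v := by
    rcases hv with hv | hv
    · exact Or.inl (hv.of_insert hd)
    · rcases ((PV_insert hd v).1 hv).2.1 with h' | h'
      · exact Or.inr h'
      · exact Or.inl h'.1
  have nvy : ¬ G.Adj y v := by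
    intro h'
    rcases hall v h' with h' | h'
    · exact hvz h'
    · exact hvx h'
  -- a white vertex outside the path persists
  have perW : ∀ u, WV G S u → u ≠ z → u ≠ x → u ≠ y → WV G (insert y S) u := by
    intro u hu h1 h2 h4
    obtain ⟨w, hw, huw⟩ := hu.exists_adj
    refine hu.persist hd h4 ?_ hw huw ?_
    · intro h'
      rcases hall u h' with h' | h'
      · exact h1 h'
      · exact h2 h'
    · intro h'
      rcases hall w h' with h' | h'
      · subst h'; exact h4 (zall u huw.symm)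
      · subst h'; exact h4 (xall u huw.symm)
  have perT : ∀ u, TV G S u → TV G (insert y S) u := by
    intro u hu
    apply hu.persist hd
    intro h'
    rcases hall u h' with rfl | rfl
    · exact not_WV_of_TV hu hz
    · exact not_WV_of_TV hu hP.hx
  have nadj : ∀ u, G.Adj v u → u ≠ z ∧ u ≠ x ∧ u ≠ y := by
    intro u hu
    refine ⟨?_, ?_, ?_⟩
    · rintro rfl; exact hvy (zall v hu.symm)
    · rintro rfl; exact hvy (xall v hu.symm)
    · rintro rfl; exact nvy hu.symm
  have perA : ∀ u, Act G S u → G.Adj v u → Act G (insert y S) u := by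
    intro u hu hvu
    obtain ⟨a1, a2, a3⟩ := nadj u hvu
    rcases hu with hu | hu
    · exact Or.inl (perW u hu a1 a2 a3)
    · exact Or.inr (perT u hu)
  have perP : PV G S v → PV G (insert y S) v := by
    intro hvP
    obtain ⟨u, hu, hvu⟩ := hvP.exists_adj
    exact hvP.persist hd hvy (perA u hu hvu) hvu
  cases h.cert hC hvS with
  | w2 b y' hv' hb hy' h1 h2 hne =>
    apply Cert.drop
    obtain ⟨a1, a2, a3⟩ := nadj b h1
    obtain ⟨b1, b2, b3⟩ := nadj y' h2
    exact Cert.w2 b y' (perW v hv' hvz hvx hvy) (perW b hb a1 a2 a3) (perW y' hy' b1 b2 b3) h1 h2 hne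
  | p3 y' x' hQ =>
    apply Cert.drop
    obtain ⟨a1, a2, a3⟩ := nadj y' hQ.zy
    have hx'z : x' ≠ z := by
      rintro rfl
      exact a3 (zall y' hQ.yx.symm)
    have hx'x : x' ≠ x := by
      rintro rfl
      exact a3 (xall y' hQ.yx.symm)
    have hx'y : x' ≠ y := by
      rintro rfl
      rcases hall y' hQ.yx.symm with h' | h'
      · exact a1 h'
      · exact a2 h'
    refine Cert.p3 y' x' (hQ.persist hd hvy.symm a3.symm hx'y.symm nvy ?_ ?_)
    · intro h'
      rcases hall y' h' with h' | h'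
      · exact a1 h'
      · exact a2 h'
    · intro h'
      rcases hall x' h' with h' | h'
      · exact hx'z h'
      · exact hx'x h'
  | p2 b y' hv' hb hy' h1 h2 hne =>
    apply Cert.drop
    exact Cert.p2 b y' (perP hv') (perA b hb h1) (perA y' hy' h2) h1 h2 hne
  | tl t hv' ht h' hl =>
    apply Cert.drop
    exact Cert.tl t (perP hv') (perT t ht) h' hl
  | tp t p hv' ht h' hp hne up =>
    apply Cert.drop
    refine Cert.tp t p (perP hv') (perT t ht) h' hp hne ?_
    intro u hu hpu
    rcases hu with hu | hu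
    · exact up u (Or.inl (hu.of_insert hd)) hpu
    · rcases (TV_insert hd u).1 hu with hu | hu
      · exact up u (Or.inr hu.1) hpu
      · exfalso
        obtain ⟨rfl, -⟩ := hu
        rcases hall p hpu.symm with rfl | rfl
        · exact not_WV_of_PV (ht.adj hp) hz
        · exact not_WV_of_PV (ht.adj hp) hP.hx

theorem Pl.of_insert {d : V} (hd : Pl G S d) (hv : Pl G (insert d S) v) : Pl G S v := by
  rcases hv with hv | hv
  · exact Or.inl (hv.of_insert hd)
  · rcases ((PV_insert hd v).1 hv).2.1 with h' | h'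
    · exact Or.inr h'
    · exact Or.inl h'.1

theorem Pl.ne_insert {d : V} (hv : Pl G (insert d S) v) : v ≠ d := by
  rintro rfl
  exact hv.not_mem (Finset.mem_insert_self _ _)

/-- Case II: a grey vertex with exactly one active neighbour. -/
theorem good_case_two (hC : NoK2 G) (hIH : IH G S (Inv G)) (hI : Inv G S) (h : No4 G S)
    {p t : V} (hp : PV G S p) (ht : Act G S t)
    (hpt : G.Adj p t) (up : ∀ u, Act G S u → G.Adj p u → u = t) : Good G S 0 := by
  obtain ⟨hT, hall⟩ := h.pendant hC hp ht hpt up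
  have hd : Pl G S p := Or.inr hp
  have h3 : Phi G (insert p S) + 3 ≤ Phi G S := (h.cert hC hd).drop
  apply good_step hd (by omega)
  intro v hv
  have h1 := hIH.apply2 hI hd hv
  suffices Phi G (insert v (insert p S)) + 3 ≤ Phi G (insert p S) by omega
  have hvS := hd.of_insert hv
  have hvp : v ≠ p := hv.ne_insert
  have npW : ∀ u, WV G S u → ¬ G.Adj p u := by
    intro u hu h'
    have := up u (Or.inl hu) h'
    subst this
    exact not_WV_of_TV hT hu
  have pW : ∀ u, WV G S u → u ≠ p := by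
    rintro u hu rfl
    exact not_WV_of_PV hp hu
  have perW : ∀ u, WV G S u → WV G (insert p S) u := by
    intro u hu
    obtain ⟨w, hw, huw⟩ := hu.exists_adj
    exact hu.persist hd (pW u hu) (npW u hu) hw huw (npW w hw)
  have perT : ∀ u, TV G S u → u ≠ t → TV G (insert p S) u := by
    intro u hu hne
    apply hu.persist hd
    intro h'
    exact hne (up u (Or.inr hu) h')
  have perA : ∀ u, Act G S u → u ≠ t → Act G (insert p S) u := by
    intro u hu hne
    rcases hu with hu | hu
    · exact Or.inl (perW u hu)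
    · exact Or.inr (perT u hu hne)
  have subA : ∀ u, Act G (insert p S) u → Act G S u ∧ u ≠ t := by
    intro u hu
    have := Act.of_insert hd hu
    refine ⟨this.1, ?_⟩
    rintro rfl
    exact this.2 hpt
  -- if `v` is adjacent to `t` it is not playable any more
  have nvt : PV G S v → ¬ G.Adj v t := by
    intro hvP hvt
    have hv1 : PV G (insert p S) v := by
      rcases hv with hv | hv
      · exact absurd (hv.of_insert hd) (not_WV_of_PV hvP)
      · exact hv
    obtain ⟨u, hu, hvu⟩ := hv1.exists_adj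
    have h2 := subA u hu
    exact h2.2 (hall v u hvt.symm h2.1 hvu)
  have perP : PV G S v → PV G (insert p S) v := by
    intro hvP
    obtain ⟨u, hu, hvu⟩ := hvP.exists_adj
    have hne : u ≠ t := by
      rintro rfl
      exact nvt hvP hvu
    exact hvP.persist hd hvp (perA u hu hne) hvu
  cases h.cert hC hvS with
  | w2 b y' hv' hb hy' h1 h2 hne =>
    exact (Cert.w2 b y' (perW v hv') (perW b hb) (perW y' hy') h1 h2 hne).drop
  | p3 y' x' hQ =>
    exact (Cert.p3 y' x' (hQ.persist hd (pW _ hQ.hz).symm (pW _ hQ.hy).symm (pW _ hQ.hx).symm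
      (npW _ hQ.hz) (npW _ hQ.hy) (npW _ hQ.hx))).drop
  | p2 b y' hv' hb hy' h1 h2 hne =>
    have hbt : b ≠ t := by
      rintro rfl
      exact nvt hv' h1
    have hyt : y' ≠ t := by
      rintro rfl
      exact nvt hv' h2
    exact (Cert.p2 b y' (perP hv') (perA b hb hbt) (perA y' hy' hyt) h1 h2 hne).drop
  | tl t' hv' ht' h' hl =>
    have hyt : t' ≠ t := by
      rintro rfl
      exact nvt hv' h'
    exact (Cert.tl t' (perP hv') (perT t' ht' hyt) h' hl).drop
  | tp t' p' hv' ht' h' hp' hne up' =>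
    have hyt : t' ≠ t := by
      rintro rfl
      exact nvt hv' h'
    refine (Cert.tp t' p' (perP hv') (perT t' ht' hyt) h' hp' hne ?_).drop
    intro u hu hpu
    exact up' u (subA u hu).1 hpu

/-- The structure in Case III. -/
structure CIII (G : SimpleGraph V) (S : Finset V) : Prop where
  two : ∀ w b, WV G S w → WV G S b → G.Adj w b → ∃ y, WV G S y ∧ G.Adj w y ∧ y ≠ b ∧
    ∀ u, WV G S u → G.Adj w u → u = b ∨ u = y
  ptwo : ∀ p u, PV G S p → Act G S u → G.Adj p u → ∃ u', Act G S u' ∧ G.Adj p u' ∧ u' ≠ u ∧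
    ∀ w, Act G S w → G.Adj p w → w = u ∨ w = u'
  nd2 : ∀ p u w u', PV G S p → WV G S u → WV G S w → WV G S u' → G.Adj u w → G.Adj w u' →
    u ≠ u' → G.Adj p u → G.Adj p u' → False
  nc4 : ∀ a b c d, WV G S a → WV G S b → WV G S c → WV G S d → G.Adj a b → G.Adj b c →
    G.Adj c d → G.Adj d a → a ≠ c → b ≠ d → False

theorem No4.CIII (h : No4 G S)
    (hW : ∀ w b, WV G S w → WV G S b → G.Adj w b → ∃ y, WV G S y ∧ G.Adj w y ∧ y ≠ b)
    (hP : ∀ p u, PV G S p → Act G S u → G.Adj p u → ∃ u', Act G S u' ∧ G.Adj p u' ∧ u' ≠ u) :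
    CIII G S := by
  have two : ∀ w b, WV G S w → WV G S b → G.Adj w b → ∃ y, WV G S y ∧ G.Adj w y ∧ y ≠ b ∧
      ∀ u, WV G S u → G.Adj w u → u = b ∨ u = y := by
    intro w b hw hb hwb
    obtain ⟨y, hy, hwy, hyb⟩ := hW w b hw hb hwb
    refine ⟨y, hy, hwy, hyb, ?_⟩
    intro u hu hwu
    by_contra hcon
    push Not at hcon
    exact h.W_three hw hb hy hu hwb hwy hwu hyb.symm hcon.1.symm hcon.2.symm
  refine ⟨two, ?_, ?_, ?_⟩
  · intro p u hp hu hpu
    obtain ⟨u', hu', hpu', hne⟩ := hP p u hp hu hpu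
    refine ⟨u', hu', hpu', hne, ?_⟩
    intro w hw hpw
    by_contra hcon
    push Not at hcon
    exact h.P_three hp hu hu' hw hpu hpu' hpw hne.symm hcon.1.symm hcon.2.symm
  · intro p u w u' hp hu hw hu' huw hwu' hne hpu hpu'
    have hd : Pl G S p := Or.inr hp
    have hpw : w ≠ p := by
      rintro rfl; exact not_WV_of_PV hp hw
    have key : ∀ z, WV G S z → G.Adj w z → G.Adj p z := by
      intro z hz hwz
      obtain ⟨y, hy, hwy, hyu, hall⟩ := two w u hw hu huw.symm
      rcases hall u' hu' hwu' with h1 | h1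
      · exact absurd h1.symm hne
      · rcases hall z hz hwz with h2 | h2
        · rw [h2]; exact hpu
        · rw [h2, ← h1]; exact hpu'
    by_cases hpw' : G.Adj p w
    · exact h.P_three hp (Or.inl hu) (Or.inl hu') (Or.inl hw) hpu hpu' hpw' hne huw.ne hwu'.ne.symm
    · apply h p hd
      have l := loses_iso hd hw hpw hpw' key
      have := drop4 hd (loses_self_P hp) (loses_adj_W hd hu hpu) (loses_adj_W hd hu' hpu') l
        hpu.ne hpu'.ne hpw.symm hne huw.ne hwu'.ne.symm
      omega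
  · intro a b c d ha hb hc hd' hab hbc hcd hda hac hbd
    have hd : Pl G S a := Or.inl ha
    obtain ⟨y, hy, hcy, hyb, hall⟩ := two c b hc hb hbc.symm
    have hyd : d = y := by
      rcases hall d hd' hcd with h1 | h1
      · exact absurd h1.symm hbd
      · exact h1
    have nac : ¬ G.Adj a c := by
      intro h'
      exact h.W_three ha hb hd' hc hab hda.symm h' hbd hbc.ne hcd.ne.symm
    have l : Loses G S a c 2 := by
      apply loses_iso hd hc hac.symm nac
      intro z hz hcz
      rcases hall z hz hcz with h2 | h2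
      · rw [h2]; exact hab
      · rw [h2, ← hyd]; exact hda.symm
    have := drop4 hd (loses_self_W ha (not_leaf hab hda.symm hbd)) (loses_adj_W hd hb hab)
      (loses_adj_W hd hd' hda.symm) l hab.ne hda.ne.symm hac hbd hbc.ne hcd.ne.symm
    exact h a hd (by omega)

theorem CIII.NL (h : CIII G S) : NL G S := by
  intro w hw
  obtain ⟨b, hb, hwb⟩ := hw.exists_adj
  obtain ⟨y, hy, hwy, hyb, -⟩ := h.two w b hw hb hwb
  exact not_leaf hwb hwy hyb.symm

/-- in Case III there is a white vertex unless the game is over -/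
theorem CIII.exists_W (h : CIII G S) (hI : Inv G S) (hv : Pl G S v) : ∃ w, WV G S w := by
  classical
  by_contra hcon
  push Not at hcon
  have hvP : PV G S v := by
    rcases hv with hv | hv
    · exact absurd hv (hcon v)
    · exact hv
  obtain ⟨u, hu, hvu⟩ := hvP.exists_adj
  have hT : ∀ x, Act G S x → TV G S x := by
    intro x hx
    rcases hx with hx | hx
    · exact absurd hx (hcon x)
    · exact hx
  obtain ⟨t, ht, p, hpt, hp⟩ := hI (Finset.univ.filter (fun x => TV G S x)) (by
    intro t ht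
    exact (Finset.mem_filter.1 ht).2) ⟨u, Finset.mem_filter.2 ⟨Finset.mem_univ _, hT u hu⟩⟩
  have htT : TV G S t := (Finset.mem_filter.1 ht).2
  have hpP : PV G S p := htT.adj hpt.symm
  obtain ⟨u', hu', hpu', hne, -⟩ := h.ptwo p t hpP (Or.inr htT) hpt
  exact hne (hp u' (Finset.mem_filter.2 ⟨Finset.mem_univ _, hT u' hu'⟩) hpu')

/-- `b` and `y` are the two white neighbours of `w` -/
structure WN (G : SimpleGraph V) (S : Finset V) (w b y : V) : Prop where
  hw : WV G S w
  hb : WV G S b
  hy : WV G S y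
  wb : G.Adj w b
  wy : G.Adj w y
  ne : b ≠ y
  all : ∀ u, WV G S u → G.Adj w u → u = b ∨ u = y

theorem WN.symm {w b y : V} (h : WN G S w b y) : WN G S w y b :=
  ⟨h.hw, h.hy, h.hb, h.wy, h.wb, h.ne.symm, fun u hu hwu => (h.all u hu hwu).symm⟩

theorem CIII.wn (h : CIII G S) {w b : V} (hw : WV G S w) (hb : WV G S b) (hwb : G.Adj w b) :
    ∃ y, WN G S w b y := by
  obtain ⟨y, hy, hwy, hyb, hall⟩ := h.two w b hw hb hwb
  exact ⟨y, hw, hb, hy, hwb, hwy, hyb.symm, hall⟩

theorem CIII.mk_wn (h : CIII G S) {w b y : V} (hw : WV G S w) (hb : WV G S b) (hy : WV G S y)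
    (hwb : G.Adj w b) (hwy : G.Adj w y) (hne : b ≠ y) : WN G S w b y := by
  obtain ⟨y', h'⟩ := h.wn hw hb hwb
  rcases h'.all y hy hwy with h1 | h1
  · exact absurd h1.symm hne
  · rw [h1]; exact h'

/-- Dominator's white move at `a`: the new white vertices -/
theorem CIII.W1 (h : CIII G S) {a b y : V} (ha : WN G S a b y) (x : V) :
    WV G (insert a S) x ↔ WV G S x ∧ x ≠ a ∧ x ≠ b ∧ x ≠ y := by
  have hd : Pl G S a := Or.inl ha.hw
  constructor
  · intro hx
    refine ⟨hx.of_insert hd, hx.ne_insert hd, ?_, ?_⟩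
    · rintro rfl; exact hx.not_adj hd ha.wb
    · rintro rfl; exact hx.not_adj hd ha.wy
  · rintro ⟨hx, h1, h2, h3⟩
    have nax : ¬ G.Adj a x := by
      intro h'
      rcases ha.all x hx h' with h' | h'
      · exact h2 h'
      · exact h3 h'
    obtain ⟨c, hc, hxc⟩ := hx.exists_adj
    obtain ⟨e, hxe⟩ := h.wn hx hc hxc
    by_cases hac : G.Adj a c
    · by_cases hae : G.Adj a e
      · exact absurd (h.nc4 a c x e ha.hw hc hx hxe.hy hac hxc.symm hxe.wy hae.symm h1.symm hxe.ne)
          not_false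
      · exact hx.persist hd h1 nax hxe.hy hxe.wy hae
    · exact hx.persist hd h1 nax hc hxc hac

theorem CIII.T1 {a b y : V} (ha : WN G S a b y) (x : V) :
    TV G (insert a S) x ↔ TV G S x ∨ x = a := by
  have hd : Pl G S a := Or.inl ha.hw
  rw [TV_insert hd]
  constructor
  · rintro (h | h)
    · exact Or.inl h.1
    · exact Or.inr h.1
  · rintro (h | rfl)
    · left
      refine ⟨h, ?_⟩
      intro h'
      exact not_WV_of_PV (h.adj h'.symm) ha.hw
    · exact Or.inr ⟨rfl, ha.hw⟩

theorem CIII.A1 (h : CIII G S) {a b y : V} (ha : WN G S a b y) (x : V) :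
    Act G (insert a S) x ↔ Act G S x ∧ x ≠ b ∧ x ≠ y := by
  unfold Act
  rw [h.W1 ha, CIII.T1 ha]
  constructor
  · rintro (⟨h1, h2, h3, h4⟩ | h1 | rfl)
    · exact ⟨Or.inl h1, h3, h4⟩
    · refine ⟨Or.inr h1, ?_, ?_⟩
      · rintro rfl; exact not_WV_of_TV h1 ha.hb
      · rintro rfl; exact not_WV_of_TV h1 ha.hy
    · exact ⟨Or.inl ha.hw, ha.wb.ne, ha.wy.ne⟩
  · rintro ⟨h1 | h1, h2, h3⟩
    · by_cases h4 : x = a
      · exact Or.inr (Or.inr h4)
      · exact Or.inl ⟨h1, h4, h2, h3⟩
    · exact Or.inr (Or.inl h1)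

/-- Staller's answer `v` to Dominator's move `a` is not covered -/
structure Fail (G : SimpleGraph V) (S : Finset V) (a v : V) : Prop where
  pl : Pl G (insert a S) v
  nd : ¬ (Phi G (insert v (insert a S)) + 3 ≤ Phi G (insert a S))
  ng : ¬ Good G (insert v (insert a S)) 1

theorem Fail.no5 {a : V} (hF : Fail G S a v) (ha : Pl G S a) (hIH : IH G S (Inv G))
    (hI : Inv G S) (hNL : NL G S) : ¬ Five G (insert v (insert a S)) := fun h5 =>
  hF.ng (good_of_five ((hIH.ins ha).ins hF.pl) ((hI.ins ha).ins hF.pl)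
    ((hNL.ins ha).ins hF.pl) h5)

theorem WN.nbr {w b y u : V} (h : WN G S w b y) (hwu : G.Adj w u) :
    u = b ∨ u = y ∨ PV G S u := by
  rcases h.hw.adj hwu with hu | hu
  · rcases h.all u hu hwu with h1 | h1
    · exact Or.inl h1
    · exact Or.inr (Or.inl h1)
  · exact Or.inr (Or.inr hu)

/-- what is grey in `S` is inactive two and three moves later -/
theorem inact2 {a u : V} (ha : Pl G S a) (hv : Pl G (insert a S) v) (hu : PV G S u) :
    ¬ WV G (insert v (insert a S)) u ∧ ¬ TV G (insert v (insert a S)) u :=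
  not_active_of hv (not_active_of ha hu.not_act)

/-- Staller answers the white move `a` by the white vertex `v` next to `b`. -/
theorem alpha (h : CIII G S) (hC : NoK2 G) {a b y : V} (ha : WN G S a b y)
    (hv : WV G (insert a S) v) (hbv : G.Adj b v)
    (nd : ¬ (Phi G (insert v (insert a S)) + 3 ≤ Phi G (insert a S)))
    (no5 : ¬ Five G (insert v (insert a S))) :
    ∃ c2 c3 c4 c5, WN G S b a v ∧ WN G S v b c2 ∧ WN G S c2 v c3 ∧ WN G S c3 c2 c4 ∧
      WN G S c4 c3 c5 ∧ WN G S c5 c4 y ∧ IsP3 G (insert v (insert a S)) c3 c4 c5 := by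
  have hd : Pl G S a := Or.inl ha.hw
  have hv' : Pl G (insert a S) v := Or.inl hv
  obtain ⟨hvS, va, vb, vy⟩ := (h.W1 ha v).1 hv
  have hva : ¬ G.Adj v a := by
    intro h'
    rcases ha.all v hvS h'.symm with h' | h'
    · exact vb h'
    · exact vy h'
  have hb : WN G S b a v := h.mk_wn ha.hb ha.hw hvS ha.wb.symm hbv va.symm
  obtain ⟨c2, hv2⟩ := h.wn hvS ha.hb hbv.symm
  have c2a : c2 ≠ a := by
    rintro rfl; exact hva hv2.wy
  have c2b : c2 ≠ b := hv2.ne.symm
  have c2y : c2 ≠ y := by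
    rintro rfl
    exact h.nc4 a b v c2 ha.hw ha.hb hvS ha.hy ha.wb hbv hv2.wy ha.wy.symm va.symm ha.ne
  have hc2 : WV G (insert a S) c2 := (h.W1 ha c2).2 ⟨hv2.hy, c2a, c2b, c2y⟩
  have c2v : c2 ≠ v := hv2.wy.ne.symm
  obtain ⟨c3, h3⟩ := h.wn hv2.hy hvS hv2.wy.symm
  have c3a : c3 ≠ a := by
    rintro rfl
    rcases ha.all c2 hv2.hy h3.wy.symm with h' | h'
    · exact c2b h'
    · exact c2y h'
  have c3b : c3 ≠ b := by
    rintro rfl
    rcases hb.all c2 hv2.hy h3.wy.symm with h' | h'
    · exact c2a h'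
    · exact c2v h'
  have c3v : c3 ≠ v := h3.ne.symm
  by_cases c3y : c3 = y
  · -- cycle of length five
    exfalso
    subst c3y
    apply no5
    have aT1 : TV G (insert a S) a := (TV_insert hd a).2 (Or.inr ⟨rfl, ha.hw⟩)
    have aT : TV G (insert v (insert a S)) a := aT1.persist hv' hva
    have vT : TV G (insert v (insert a S)) v := (TV_insert hv' v).2 (Or.inr ⟨rfl, hv⟩)
    have bP1 : PV G (insert a S) b := PV.of_WV ha.hb hd ha.wb (Or.inr aT1) ha.wb.symm
    have bP : PV G (insert v (insert a S)) b := bP1.persist hv' vb.symm (Or.inr aT) ha.wb.symm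
    have yP1 : PV G (insert a S) c3 := PV.of_WV ha.hy hd ha.wy (Or.inr aT1) ha.wy.symm
    have yP : PV G (insert v (insert a S)) c3 := yP1.persist hv' vy.symm (Or.inr aT) ha.wy.symm
    have c2P : PV G (insert v (insert a S)) c2 := PV.of_WV hc2 hv' hv2.wy (Or.inr vT) hv2.wy.symm
    have hy : WN G S c3 a c2 := h.mk_wn ha.hy ha.hw hv2.hy ha.wy.symm h3.wy.symm c2a.symm
    have hb' : Pl G (insert v (insert a S)) b := Or.inr bP
    refine ⟨b, hb', ?_⟩
    have l1 := loses_self_P bP
    have l2 := loses_adj_T hb' aT ha.wb.symm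
    have l3 := loses_adj_T hb' vT hbv
    have l4 : Loses G (insert v (insert a S)) b c3 1 := by
      apply loses_dead hb' yP
      intro u hu
      rcases hy.nbr hu with rfl | rfl | hu'
      · exact not_active_of_adj hb' ha.wb.symm
      · exact not_active_of hb' c2P.not_act
      · exact not_active_of hb' (inact2 hd hv' hu')
    have l5 : Loses G (insert v (insert a S)) b c2 1 := by
      apply loses_dead hb' c2P
      intro u hu
      rcases h3.nbr hu with rfl | rfl | hu'
      · exact not_active_of_adj hb' hbv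
      · exact not_active_of hb' yP.not_act
      · exact not_active_of hb' (inact2 hd hv' hu')
    exact drop5 hb' l1 l2 l3 l4 l5 ha.wb.ne.symm vb.symm c3b.symm c2b.symm va.symm c3a.symm
      c2a.symm c3v.symm c2v.symm h3.wy.ne.symm
  have hc3 : WV G (insert a S) c3 := (h.W1 ha c3).2 ⟨h3.hy, c3a, c3b, c3y⟩
  obtain ⟨c4, h4⟩ := h.wn h3.hy hv2.hy h3.wy.symm
  have c4a : c4 ≠ a := by
    rintro rfl
    rcases ha.all c3 h3.hy h4.wy.symm with h' | h'
    · exact c3b h'
    · exact c3y h'
  have c4b : c4 ≠ b := by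
    rintro rfl
    rcases hb.all c3 h3.hy h4.wy.symm with h' | h'
    · exact c3a h'
    · exact c3v h'
  have vc3 : ¬ G.Adj v c3 := by
    intro h'
    rcases hv2.all c3 h3.hy h' with h' | h'
    · exact c3b h'
    · exact h3.wy.ne h'.symm
  have c4c2 : c4 ≠ c2 := h4.ne.symm
  have vc4 : ¬ G.Adj v c4 := by
    intro h'
    rcases hv2.all c4 h4.hy h' with h' | h'
    · exact c4b h'
    · exact c4c2 h'
  have c4v : c4 ≠ v := by
    rintro rfl
    exact vc3 h4.wy.symm
  by_cases c4y : c4 = y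
  · -- cycle of length six: `c3` becomes isolated
    exfalso
    apply nd
    have l2 := loses_adj_W hv' hc2 hv2.wy
    have l3 : Loses G (insert a S) v c3 2 := by
      apply loses_iso hv' hc3 c3v vc3
      intro u hu hcu
      rcases h4.all u (hu.of_insert hd) hcu with rfl | rfl
      · exact hv2.wy
      · exact absurd c4y ((h.W1 ha u).1 hu).2.2.2
    exact drop2 hv' l2 l3 h3.wy.ne
  have hc4 : WV G (insert a S) c4 := (h.W1 ha c4).2 ⟨h4.hy, c4a, c4b, c4y⟩
  have hc3' : WV G (insert v (insert a S)) c3 := hc3.persist hv' c3v vc3 hc4 h4.wy vc4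
  have hc4' : WV G (insert v (insert a S)) c4 := hc4.persist hv' c4v vc4 hc3 h4.wy.symm vc3
  have c2not : ¬ WV G (insert v (insert a S)) c2 := fun h' => h'.not_adj hv' hv2.wy
  rcases lemmaR hC hc3' hc4' h4.wy (by
    intro u hu hcu
    rcases h4.all u ((hu.of_insert hv').of_insert hd) hcu with rfl | h'
    · exact absurd hu c2not
    · exact h') with h5 | ⟨c5, hP⟩
  · exact absurd h5 no5
  have hc5 : WV G (insert a S) c5 := hP.hx.of_insert hv'
  obtain ⟨hc5S, c5a, c5b, c5y⟩ := (h.W1 ha c5).1 hc5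
  have c5v : c5 ≠ v := hP.hx.ne_insert hv'
  have c5c2 : c5 ≠ c2 := by
    rintro rfl; exact c2not hP.hx
  have vc5 : ¬ G.Adj v c5 := hP.hx.not_adj hv'
  have h4' : WN G S c4 c3 c5 := h.mk_wn h4.hy h3.hy hc5S h4.wy.symm hP.yx hP.ne
  obtain ⟨c6, h6⟩ := h.wn hc5S h4.hy hP.yx.symm
  have c6y : c6 = y := by
    by_contra c6y
    have c6a : c6 ≠ a := by
      rintro rfl
      rcases ha.all c5 hc5S h6.wy.symm with h' | h'
      · exact c5b h'
      · exact c5y h'
    have c6b : c6 ≠ b := by
      rintro rfl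
      rcases hb.all c5 hc5S h6.wy.symm with h' | h'
      · exact c5a h'
      · exact c5v h'
    have hc6 : WV G (insert a S) c6 := (h.W1 ha c6).2 ⟨h6.hy, c6a, c6b, c6y⟩
    have c6v : c6 ≠ v := by
      rintro rfl
      exact vc5 h6.wy.symm
    have vc6 : ¬ G.Adj v c6 := by
      intro h'
      rcases hv2.all c6 h6.hy h' with h' | h'
      · exact c6b h'
      · subst h'
        rcases h3.all c5 hc5S h6.wy.symm with h' | h'
        · exact c5v h'
        · exact hP.ne h'.symm
    have hc6' : WV G (insert v (insert a S)) c6 := hc6.persist hv' c6v vc6 hc5 h6.wy.symm vc5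
    exact h6.ne (hP.ux c6 hc6' h6.wy).symm
  subst c6y
  exact ⟨c2, c3, c4, c5, hb, hv2, h3, h4, h4', h6, hP⟩

/-- Staller answers the white move `a` by `b` -/
theorem beta_b (h : CIII G S) {a b y : V} (ha : WN G S a b y)
    (nd : ¬ (Phi G (insert b (insert a S)) + 3 ≤ Phi G (insert a S))) : False := by
  apply nd
  have hd : Pl G S a := Or.inl ha.hw
  have aT : TV G (insert a S) a := (TV_insert hd a).2 (Or.inr ⟨rfl, ha.hw⟩)
  have bP : PV G (insert a S) b := PV.of_WV ha.hb hd ha.wb (Or.inr aT) ha.wb.symm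
  have yP : PV G (insert a S) y := PV.of_WV ha.hy hd ha.wy (Or.inr aT) ha.wy.symm
  obtain ⟨c, hb⟩ := h.wn ha.hb ha.hw ha.wb.symm
  by_cases hcy : c = y
  · subst hcy
    have hy : WN G S c a b := h.mk_wn ha.hy ha.hw ha.hb ha.wy.symm hb.wy.symm ha.wb.ne
    have hb' : Pl G (insert a S) b := Or.inr bP
    have l3 : Loses G (insert a S) b c 1 := by
      apply loses_dead hb' yP
      intro u hu
      rcases hy.nbr hu with rfl | rfl | hu'
      · exact not_active_of_adj hb' ha.wb.symm
      · exact not_active_of hb' bP.not_act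
      · exact not_active_of hb' (not_active_of hd hu'.not_act)
    exact drop3 hb' (loses_self_P bP) (loses_adj_T hb' aT ha.wb.symm) l3 ha.wb.ne.symm hb.wy.ne
      ha.wy.ne
  · have hc : Act G (insert a S) c := (h.A1 ha c).2 ⟨Or.inl hb.hy, hb.wy.ne.symm, hcy⟩
    exact drop_three_P bP (Or.inr aT) hc ha.wb.symm hb.wy hb.ne

/-- the white path next to `b` when it is not disturbed -/
theorem path_core (h : CIII G S) (hC : NoK2 G) {a b y c1 : V} (ha : WN G S a b y)
    (hv : Pl G (insert a S) v) (no5 : ¬ Five G (insert v (insert a S)))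
    (hb : WN G S b a c1) (hcy : c1 ≠ y)
    (n1 : ∀ w, WV G (insert a S) w → ¬ G.Adj v w) (n2 : ¬ WV G (insert a S) v) :
    ∃ c2 c3, WN G S c1 b c2 ∧ WN G S c2 c1 c3 ∧ WN G S c3 c2 y ∧
      IsP3 G (insert v (insert a S)) c1 c2 c3 := by
  have hd : Pl G S a := Or.inl ha.hw
  have perW : ∀ w, WV G (insert a S) w → WV G (insert v (insert a S)) w := by
    intro w hw
    obtain ⟨x, hx, hwx⟩ := hw.exists_adj
    refine hw.persist hv ?_ (n1 w hw) hx hwx (n1 x hx)
    rintro rfl; exact n2 hw
  have c1a : c1 ≠ a := hb.ne.symm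
  have c1b : c1 ≠ b := hb.wy.ne.symm
  have hc1 : WV G (insert a S) c1 := (h.W1 ha c1).2 ⟨hb.hy, c1a, c1b, hcy⟩
  obtain ⟨c2, h1⟩ := h.wn hb.hy ha.hb hb.wy.symm
  have c2a : c2 ≠ a := by
    rintro rfl
    rcases ha.all c1 hb.hy h1.wy.symm with h' | h'
    · exact c1b h'
    · exact hcy h'
  have c2y : c2 ≠ y := by
    rintro rfl
    exact h.nc4 a b c1 c2 ha.hw ha.hb hb.hy ha.hy ha.wb hb.wy h1.wy ha.wy.symm c1a.symm ha.ne
  have hc2 : WV G (insert a S) c2 := (h.W1 ha c2).2 ⟨h1.hy, c2a, h1.ne.symm, c2y⟩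
  rcases lemmaR hC (perW c1 hc1) (perW c2 hc2) h1.wy (by
    intro u hu hcu
    have hu1 : WV G (insert a S) u := hu.of_insert hv
    rcases h1.all u (hu1.of_insert hd) hcu with rfl | h'
    · exact absurd rfl ((h.W1 ha u).1 hu1).2.2.1
    · exact h') with h5 | ⟨c3, hP⟩
  · exact absurd h5 no5
  have hc3 : WV G (insert a S) c3 := hP.hx.of_insert hv
  obtain ⟨hc3S, c3a, c3b, c3y⟩ := (h.W1 ha c3).1 hc3
  have h2 : WN G S c2 c1 c3 := h.mk_wn h1.hy hb.hy hc3S h1.wy.symm hP.yx hP.ne
  obtain ⟨c4, h3⟩ := h.wn hc3S h1.hy hP.yx.symm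
  have c4y : c4 = y := by
    by_contra c4y
    have c4a : c4 ≠ a := by
      rintro rfl
      rcases ha.all c3 hc3S h3.wy.symm with h' | h'
      · exact c3b h'
      · exact c3y h'
    have c4b : c4 ≠ b := by
      rintro rfl
      rcases hb.all c3 hc3S h3.wy.symm with h' | h'
      · exact c3a h'
      · exact hP.ne h'.symm
    have hc4 : WV G (insert a S) c4 := (h.W1 ha c4).2 ⟨h3.hy, c4a, c4b, c4y⟩
    exact h3.ne (hP.ux c4 (perW c4 hc4) h3.wy).symm
  subst c4y
  exact ⟨c2, c3, h1, h2, h3, hP⟩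

/-- one side of the white vertex `u` dominated by Staller's reply -/
theorem side (h : CIII G S) (hC : NoK2 G) {a b y u p1 : V} (ha : WN G S a b y)
    (hvP : PV G (insert a S) v)
    (nd : ¬ (Phi G (insert v (insert a S)) + 3 ≤ Phi G (insert a S)))
    (no5 : ¬ Five G (insert v (insert a S)))
    (hu : WV G (insert a S) u) (hvu : G.Adj v u)
    (uq : ∀ w, Act G (insert a S) w → G.Adj v w → w = u)
    (hp1 : WV G (insert a S) p1) (hup : G.Adj u p1) :
    ∃ p2 p3, WN G S p1 u p2 ∧ WN G S p2 p1 p3 ∧ IsP3 G (insert v (insert a S)) p1 p2 p3 := by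
  have hd : Pl G S a := Or.inl ha.hw
  have hv : Pl G (insert a S) v := Or.inr hvP
  have nv : ∀ w, WV G (insert a S) w → w ≠ v := by
    rintro w hw rfl; exact not_WV_of_PV hvP hw
  obtain ⟨p2, h1⟩ := h.wn (hp1.of_insert hd) (hu.of_insert hd) hup.symm
  have vp1 : ¬ G.Adj v p1 := fun h' => hup.ne (uq p1 (Or.inl hp1) h').symm
  have hp2 : WV G (insert a S) p2 := by
    by_contra hp2
    apply nd
    have l2 : Loses G (insert a S) v p1 2 := by
      apply loses_iso hv hp1 (nv p1 hp1) vp1
      intro w hw hpw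
      rcases h1.all w (hw.of_insert hd) hpw with rfl | rfl
      · exact hvu
      · exact absurd hw hp2
    exact drop2 hv (loses_self_P hvP) l2 (nv p1 hp1).symm
  have vp2 : ¬ G.Adj v p2 := fun h' => h1.ne (uq p2 (Or.inl hp2) h').symm
  have hp1' := hp1.persist hv (nv p1 hp1) vp1 hp2 h1.wy vp2
  have hp2' := hp2.persist hv (nv p2 hp2) vp2 hp1 h1.wy.symm vp1
  rcases lemmaR hC hp1' hp2' h1.wy (by
    intro w hw hpw
    rcases h1.all w ((hw.of_insert hv).of_insert hd) hpw with rfl | h'
    · exact absurd hvu (hw.not_adj hv)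
    · exact h') with h5 | ⟨p3, hP⟩
  · exact absurd h5 no5
  · exact ⟨p2, p3, h1, h.mk_wn h1.hy h1.hw ((hP.hx.of_insert hv).of_insert hd) h1.wy.symm
      hP.yx hP.ne, hP⟩

/-- Staller's reply dominates exactly one active vertex, a white one. -/
theorem beta_W (h : CIII G S) (hC : NoK2 G) (hIH : IH G S (Inv G)) (hI : Inv G S)
    {a b y u : V} (ha : WN G S a b y)
    (hF : Fail G S a v) (hvP : PV G (insert a S) v)
    (hu : WV G (insert a S) u) (hvu : G.Adj v u)
    (uq : ∀ w, Act G (insert a S) w → G.Adj v w → w = u) : False := by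
  have hd : Pl G S a := Or.inl ha.hw
  have hv := hF.pl
  have no5 := hF.no5 hd hIH hI h.NL
  obtain ⟨p1, hp1, hup⟩ := hu.exists_adj
  obtain ⟨p2, p3, h1, h2, hP⟩ := side h hC ha hvP hF.nd no5 hu hvu uq hp1 hup
  obtain ⟨m, hm⟩ := h.wn (hu.of_insert hd) (hp1.of_insert hd) hup
  obtain ⟨huS, ua, ub, uy⟩ := (h.W1 ha u).1 hu
  have hNL2 : NL G (insert v (insert a S)) := (h.NL.ins hd).ins hv
  have uP : PV G (insert v (insert a S)) u :=
    PV.of_WV hu hv hvu (Or.inl hP.hz) hup
  -- active neighbours of `u`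
  have act : ∀ w, Act G (insert v (insert a S)) w → G.Adj u w → (w = p1 ∨ w = m) ∧
      WV G (insert a S) w := by
    intro w hw huw
    have hw1 := (Act.of_insert hv hw).1
    rcases (h.A1 ha w).1 hw1 with ⟨hwS, wb, wy⟩
    rcases hm.nbr huw with rfl | rfl | hw'
    · exact ⟨Or.inl rfl, hp1⟩
    · refine ⟨Or.inr rfl, ?_⟩
      apply (h.W1 ha w).2 ⟨hm.hy, ?_, wb, wy⟩
      rintro rfl
      rcases ha.all u huS huw.symm with h' | h'
      · exact ub h'
      · exact uy h'
    · exact absurd hwS (not_act_iff.2 hw'.not_act)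
  by_cases hm1 : WV G (insert a S) m
  · obtain ⟨m2, m3, k1, k2, hQ⟩ := side h hC ha hvP hF.nd no5 hu hvu uq hm1 hm.wy
    have nu : ¬ WV G (insert v (insert a S)) u := fun h' => h'.not_adj hv hvu
    have d6 : p2 ≠ m := by
      rintro rfl
      -- p1 ~ m
      rcases k1.all p1 h1.hw h1.wy.symm with h' | h'
      · exact hup.ne h'.symm
      · subst h'
        rcases h1.all m3 k2.hy k2.wy with h' | h'
        · subst h'; exact nu hQ.hx
        · exact hQ.ne h'.symm
    have d3 : p3 ≠ m := by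
      rintro rfl
      exact h.nc4 u p1 p2 p3 huS h1.hw h1.hy h2.hy hup h1.wy h2.wy hm.wy.symm h1.ne hP.ne
    have d5 : p2 ≠ m2 := by
      rintro rfl
      exact h.nc4 u p1 p2 m huS h1.hw h1.hy hm.hy hup h1.wy k1.wy.symm hm.wy.symm h1.ne hm.ne
    have d2 : p3 ≠ m2 := by
      rintro rfl
      have e1 := hP.ux m hQ.hz hQ.zy.symm
      have e2 := hP.ux m3 hQ.hx hQ.yx
      exact hQ.ne (e1.trans e2.symm)
    have d4 : p2 ≠ m3 := by
      rintro rfl
      have e1 := hQ.ux p1 hP.hz hP.zy.symm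
      have e2 := hQ.ux p3 hP.hx hP.yx
      exact hP.ne (e1.trans e2.symm)
    have d1 : p3 ≠ m3 := by
      rintro rfl
      exact d5 (hP.ux m2 hQ.hy hQ.yx.symm).symm
    apply hF.ng
    refine good_DP3 hC ((hIH.ins hd).ins hv) ((hI.ins hd).ins hv) hNL2 hP.symm hQ.symm d1 d2 d3
      d4 d5 d6 uP hm.wy ?_
    intro w hw huw
    exact (act w hw huw).1
  · apply no5
    apply five_P3_hang hP uP _ (hNL2 _ hP.hz) (hNL2 _ hP.hx)
    intro w hw huw
    obtain ⟨h' | h', hw1⟩ := act w hw huw
    · exact Or.inl h'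
    · subst h'; exact absurd hw1 hm1

/-- failing reply at a triangle -/
structure F3 (G : SimpleGraph V) (S : Finset V) (a b y v t : V) : Prop where
  tri : G.Adj b y
  hv : PV G S v
  ht : TV G S t
  vb : G.Adj v b
  vt : G.Adj v t
  pend : ∀ q, PV G S q → q ≠ v → G.Adj q t → (G.Adj q b ∨ G.Adj q y) → False
  ea : ∀ q u, PV G S q → G.Adj q a → Act G S u → G.Adj q u → u = a ∨ u = t

/-- failing reply at a cycle of length six -/
structure F6 (G : SimpleGraph V) (S : Finset V) (a b y v c1 c2 c3 : V) : Prop where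
  ha : WN G S a b y
  hb : WN G S b a c1
  h1 : WN G S c1 b c2
  h2 : WN G S c2 c1 c3
  h3 : WN G S c3 c2 y
  hv : PV G S v
  vb : G.Adj v b
  P : IsP3 G (insert v (insert a S)) c1 c2 c3

/-- failing reply at a cycle of length eight -/
structure F8 (G : SimpleGraph V) (S : Finset V) (a b y v c2 c3 c4 c5 : V) : Prop where
  ha : WN G S a b y
  hb : WN G S b a v
  h1 : WN G S v b c2
  h2 : WN G S c2 v c3
  h3 : WN G S c3 c2 c4
  h4 : WN G S c4 c3 c5
  h5 : WN G S c5 c4 y
  P : IsP3 G (insert v (insert a S)) c3 c4 c5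

/-- the core of the analysis of grey replies -/
theorem beta_core (h : CIII G S) (hC : NoK2 G) (hIH : IH G S (Inv G)) (hI : Inv G S)
    {a b y u : V} (ha : WN G S a b y)
    (hF : Fail G S a v) (hvS : PV G S v) (hvb : G.Adj v b) (hu : Act G S u) (hvu : G.Adj v u)
    (ub : u ≠ b) (uy : u ≠ y) (uq : ∀ w, Act G S w → G.Adj v w → w = b ∨ w = u) :
    (∃ t, F3 G S a b y v t) ∨ ∃ c1 c2 c3, F6 G S a b y v c1 c2 c3 := by
  have hd : Pl G S a := Or.inl ha.hw
  have hv := hF.pl
  have no5 := hF.no5 hd hIH hI h.NL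
  have hvP : PV G (insert a S) v := by
    rcases hv with hv | hv
    · exact absurd (hv.of_insert hd) (not_WV_of_PV hvS)
    · exact hv
  have uq1 : ∀ w, Act G (insert a S) w → G.Adj v w → w = u := by
    intro w hw hvw
    have hw' := (h.A1 ha w).1 hw
    rcases uq w hw'.1 hvw with h' | h'
    · exact absurd h' hw'.2.1
    · exact h'
  by_cases huW : WV G (insert a S) u
  · exact absurd (beta_W h hC hIH hI ha hF hvP huW hvu uq1) not_false
  -- `u` is a selected vertex now
  have hu1 : Act G (insert a S) u := (h.A1 ha u).2 ⟨hu, ub, uy⟩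
  have huT : TV G (insert a S) u := by
    rcases hu1 with h' | h'
    · exact absurd h' huW
    · exact h'
  have n2 : ¬ WV G (insert a S) v := not_WV_of_PV hvP
  have n1 : ∀ w, WV G (insert a S) w → ¬ G.Adj v w := by
    intro w hw hvw
    have := uq1 w (Or.inl hw) hvw
    subst this
    exact huW hw
  obtain ⟨c1, hb⟩ := h.wn ha.hb ha.hw ha.wb.symm
  by_cases hcy : c1 = y
  · -- triangle
    subst hcy
    have hua : u ≠ a := by
      rintro rfl
      exact h.nd2 v u c1 b hvS ha.hw ha.hy ha.hb ha.wy hb.wy.symm ha.wb.ne hvu hvb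
    have huTS : TV G S u := by
      rcases (CIII.T1 ha u).1 huT with h' | h'
      · exact h'
      · exact absurd h' hua
    left
    have hy : WN G S c1 a b := h.mk_wn ha.hy ha.hw ha.hb ha.wy.symm hb.wy.symm ha.wb.ne
    have aT1 : TV G (insert a S) a := (TV_insert hd a).2 (Or.inr ⟨rfl, ha.hw⟩)
    have hva : ¬ G.Adj v a := by
      intro h'
      rcases uq a (Or.inl ha.hw) h' with h' | h'
      · exact ha.wb.ne h'
      · exact hua h'.symm
    have aT : TV G (insert v (insert a S)) a := aT1.persist hv hva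
    have bP1 : PV G (insert a S) b := PV.of_WV ha.hb hd ha.wb (Or.inr aT1) ha.wb.symm
    have bv : b ≠ v := hvb.ne.symm
    have yv : c1 ≠ v := by
      rintro rfl; exact not_WV_of_PV hvS ha.hy
    have bP : PV G (insert v (insert a S)) b := bP1.persist hv bv (Or.inr aT) ha.wb.symm
    have yP1 : PV G (insert a S) c1 := PV.of_WV ha.hy hd ha.wy (Or.inr aT1) ha.wy.symm
    have yP : PV G (insert v (insert a S)) c1 := yP1.persist hv yv (Or.inr aT) ha.wy.symm
    refine ⟨u, hb.wy, hvS, huTS, hvb, hvu, ?_, ?_⟩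
    · -- no other pendant
      intro q hq hqv hqu hqb
      apply hF.nd
      have hq1 : PV G (insert a S) q := hq.persist hd (by
        rintro rfl; exact not_WV_of_PV hq ha.hw) (Or.inr huT) hqu
      have act : ∀ w, Act G S w → G.Adj q w → w = u ∨ w = b ∨ w = c1 := by
        intro w hw hqw
        rcases hqb with hqb | hqb
        · obtain ⟨w', -, -, -, hall⟩ := h.ptwo q b hq (Or.inl ha.hb) hqb
          rcases hall u (Or.inr huTS) hqu with h' | h'
          · exact absurd h' ub
          · rcases hall w hw hqw with h'' | h''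
            · exact Or.inr (Or.inl h'')
            · exact Or.inl (h''.trans h'.symm)
        · obtain ⟨w', -, -, -, hall⟩ := h.ptwo q c1 hq (Or.inl ha.hy) hqb
          rcases hall u (Or.inr huTS) hqu with h' | h'
          · exact absurd h' uy
          · rcases hall w hw hqw with h'' | h''
            · exact Or.inr (Or.inr h'')
            · exact Or.inl (h''.trans h'.symm)
      have l3 : Loses G (insert a S) v q 1 := by
        apply loses_dead hv hq1
        intro w hqw
        by_cases hw : Act G S w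
        · rcases act w hw hqw with rfl | rfl | rfl
          · exact not_active_of_adj hv hvu
          · exact not_active_of hv bP1.not_act
          · exact not_active_of hv yP1.not_act
        · exact not_active_of hv (not_active_of hd (not_act_iff.1 hw))
      exact drop3 hv (loses_self_P hvP) (loses_adj_T hv huT hvu) l3 hvu.ne hqv.symm hqu.ne.symm
    · -- the edges at `a`
      intro q w hq hqa hw hqw
      by_contra hcon
      push Not at hcon
      apply no5
      have qv : q ≠ v := by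
        rintro rfl; exact hva hqa
      have wb : w ≠ b := by
        rintro rfl
        exact h.nd2 q a c1 w hq ha.hw ha.hy ha.hb ha.wy hb.wy.symm ha.wb.ne hqa hqw
      have wy : w ≠ c1 := by
        rintro rfl
        exact h.nd2 q a b w hq ha.hw ha.hb ha.hy ha.wb hb.wy ha.wy.ne hqa hqw
      have hw1 : Act G (insert a S) w := (h.A1 ha w).2 ⟨hw, wb, wy⟩
      have hvw : ¬ G.Adj v w := by
        intro h'
        exact hcon.2 (uq1 w hw1 h')
      have hw2 : Act G (insert v (insert a S)) w := by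
        rcases hw1 with hw1 | hw1
        · obtain ⟨x, hx, hwx⟩ := hw1.exists_adj
          exact Or.inl (hw1.persist hv (fun h' => n2 (h' ▸ hw1)) hvw hx hwx (n1 x hx))
        · exact Or.inr (hw1.persist hv hvw)
      have hq2 : PV G (insert v (insert a S)) q :=
        (hq.persist hd (by rintro rfl; exact not_WV_of_PV hq ha.hw) (Or.inr aT1) hqa).persist hv
          qv (Or.inr aT) hqa
      have hq' : Pl G (insert v (insert a S)) q := Or.inr hq2
      refine ⟨q, hq', ?_⟩
      have qb : q ≠ b := by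
        rintro rfl; exact not_WV_of_PV hq ha.hb
      have qy : q ≠ c1 := by
        rintro rfl; exact not_WV_of_PV hq ha.hy
      have l4 : Loses G (insert v (insert a S)) q b 1 := by
        apply loses_dead hq' bP
        intro x hx
        rcases hb.nbr hx with rfl | rfl | hx'
        · exact not_active_of_adj hq' hqa
        · exact not_active_of hq' yP.not_act
        · exact not_active_of hq' (inact2 hd hv hx')
      have l5 : Loses G (insert v (insert a S)) q c1 1 := by
        apply loses_dead hq' yP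
        intro x hx
        rcases hy.nbr hx with rfl | rfl | hx'
        · exact not_active_of_adj hq' hqa
        · exact not_active_of hq' bP.not_act
        · exact not_active_of hq' (inact2 hd hv hx')
      exact drop5 hq' (loses_self_P hq2) (loses_adj_T hq' aT hqa) (loses_adj_act hq' hw2 hqw) l4
        l5 hqa.ne hqw.ne qb qy hcon.1.symm ha.wb.ne ha.wy.ne wb wy ha.ne
  · obtain ⟨c2, c3, h1, h2, h3, hP⟩ := path_core h hC ha hv no5 hb hcy n1 n2
    by_cases hua : u = a
    · exfalso
      subst hua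
      apply no5
      have aT1 : TV G (insert u S) u := (TV_insert hd u).2 (Or.inr ⟨rfl, ha.hw⟩)
      have bP1 : PV G (insert u S) b := PV.of_WV ha.hb hd ha.wb (Or.inr aT1) ha.wb.symm
      have bP : PV G (insert v (insert u S)) b :=
        bP1.persist hv hvb.ne.symm (Or.inl hP.hz) hb.wy
      have hNL2 : NL G (insert v (insert u S)) := (h.NL.ins hd).ins hv
      apply five_P3_hang hP bP _ (hNL2 _ hP.hz) (hNL2 _ hP.hx)
      intro w hw hbw
      rcases hb.nbr hbw with h' | h' | h'
      · subst h'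
        exact absurd hvu (Act.of_insert hv hw).2
      · exact Or.inl h'
      · exact absurd hw (not_act_iff.2 (inact2 hd hv h'))
    · exact Or.inr ⟨c1, c2, c3, ha, hb, h1, h2, h3, hvS, hvb, hP⟩

/-- Lemma W -/
theorem lemmaW (h : CIII G S) (hC : NoK2 G) (hIH : IH G S (Inv G)) (hI : Inv G S)
    {a b y : V} (ha : WN G S a b y) (hF : Fail G S a v) :
    (∃ t, F3 G S a b y v t) ∨ (∃ t, F3 G S a y b v t) ∨
    (∃ c1 c2 c3, F6 G S a b y v c1 c2 c3) ∨ (∃ c1 c2 c3, F6 G S a y b v c1 c2 c3) ∨
    (∃ c2 c3 c4 c5, F8 G S a b y v c2 c3 c4 c5) ∨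
    (∃ c2 c3 c4 c5, F8 G S a y b v c2 c3 c4 c5) := by
  have hd : Pl G S a := Or.inl ha.hw
  have hv := hF.pl
  have no5 := hF.no5 hd hIH hI h.NL
  rcases hv with hvW | hvP
  · -- white reply
    obtain ⟨hvS, va, vb, vy⟩ := (h.W1 ha v).1 hvW
    obtain ⟨x, hx, hvx⟩ := hvW.exists_adj
    obtain ⟨x', hvx'⟩ := h.wn hvS (hx.of_insert hd) hvx
    have hx' : ¬ WV G (insert a S) x' := by
      intro hx'
      exact hF.nd (drop_three_W hvW hx hx' hvx hvx'.wy hvx'.ne)
    rw [h.W1 ha] at hx'
    have xa : x' ≠ a := by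
      rintro rfl
      rcases ha.all v hvS hvx'.wy.symm with h' | h'
      · exact vb h'
      · exact vy h'
    by_cases xb : x' = b
    · subst xb
      obtain ⟨c2, c3, c4, c5, g1, g2, g3, g4, g5, g6, g7⟩ :=
        alpha h hC ha hvW hvx'.wy.symm hF.nd no5
      exact Or.inr (Or.inr (Or.inr (Or.inr (Or.inl ⟨c2, c3, c4, c5, ha, g1, g2, g3, g4, g5, g6, g7⟩))))
    · have xy : x' = y := by
        by_contra xy
        exact hx' ⟨hvx'.hy, xa, xb, xy⟩
      subst xy
      obtain ⟨c2, c3, c4, c5, g1, g2, g3, g4, g5, g6, g7⟩ :=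
        alpha h hC ha.symm hvW hvx'.wy.symm hF.nd no5
      exact Or.inr (Or.inr (Or.inr (Or.inr (Or.inr
        ⟨c2, c3, c4, c5, ha.symm, g1, g2, g3, g4, g5, g6, g7⟩))))
  · by_cases vb : v = b
    · subst vb
      exact absurd (beta_b h ha hF.nd) not_false
    by_cases vy : v = y
    · subst vy
      exact absurd (beta_b h ha.symm hF.nd) not_false
    have hvS : PV G S v := by
      rcases ((PV_insert hd v).1 hvP).2.1 with h' | h'
      · exact h'
      · rcases ha.all v h'.1 h'.2 with h'' | h''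
        · exact absurd h'' vb
        · exact absurd h'' vy
    obtain ⟨u, hu, hvu⟩ := hvP.exists_adj
    have hu' := (h.A1 ha u).1 hu
    obtain ⟨u', hu'A, hvu', hne, hall⟩ := h.ptwo v u hvS hu'.1 hvu
    by_cases ub : u' = b
    · subst ub
      rcases beta_core h hC hIH hI ha hF hvS hvu' hu'.1 hvu hu'.2.1 hu'.2.2
        (fun w hw hvw => (hall w hw hvw).symm) with h' | h'
      · exact Or.inl h'
      · exact Or.inr (Or.inr (Or.inl h'))
    by_cases uy : u' = y
    · subst uy
      rcases beta_core h hC hIH hI ha.symm hF hvS hvu' hu'.1 hvu hu'.2.2 hu'.2.1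
        (fun w hw hvw => (hall w hw hvw).symm) with h' | h'
      · exact Or.inr (Or.inl h')
      · exact Or.inr (Or.inr (Or.inr (Or.inl h')))
    exfalso
    exact hF.nd (drop_three_P hvP hu ((h.A1 ha u').2 ⟨hu'A, ub, uy⟩) hvu hvu' hne.symm)

theorem WN.uniq {w b y z : V} (h : WN G S w b y) (h' : WN G S w b z) : y = z := by
  rcases h'.all y h.hy h.wy with h1 | h1
  · exact absurd h1.symm h.ne
  · exact h1

/-- every move of drop three fails -/
def AllFail (G : SimpleGraph V) (S : Finset V) : Prop :=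
  ∀ d, Pl G S d → Phi G (insert d S) + 3 ≤ Phi G S → ∃ v, Fail G S d v

theorem allFail (hIH : IH G S (Inv G)) (hI : Inv G S) (hNL : NL G S) (hng : ¬ Good G S 0) :
    AllFail G S := by
  intro d hd h3
  by_contra hcon
  apply hng
  apply good_three hIH hI hNL hd h3
  intro v hv
  by_contra h'
  push Not at h'
  exact hcon ⟨v, hv, fun h1 => absurd h1 (by omega), h'.2⟩

theorem AllFail.white (hA : AllFail G S) {a b y : V} (ha : WN G S a b y) : ∃ v, Fail G S a v :=
  hA a (Or.inl ha.hw) (drop_three_W ha.hw ha.hb ha.hy ha.wb ha.wy ha.ne)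

theorem WN.pl {a b y : V} (ha : WN G S a b y) : Pl G S a := Or.inl ha.hw

/-- in a triangle only `F3` is possible -/
theorem tri_F3 (h : CIII G S) (hC : NoK2 G) (hIH : IH G S (Inv G)) (hI : Inv G S)
    (hA : AllFail G S)
    {a b y : V} (ha : WN G S a b y) (hby : G.Adj b y) :
    ∃ v t, F3 G S a b y v t ∨ F3 G S a y b v t := by
  obtain ⟨v, hF⟩ := hA.white ha
  have hv := hF.pl
  have hb : WN G S b a y := h.mk_wn ha.hb ha.hw ha.hy ha.wb.symm hby ha.wy.ne
  have hy : WN G S y a b := h.mk_wn ha.hy ha.hw ha.hb ha.wy.symm hby.symm ha.wb.ne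
  have nb : ¬ WV G (insert a S) b := fun h' => h'.not_adj ha.pl ha.wb
  have ny : ¬ WV G (insert a S) y := fun h' => h'.not_adj ha.pl ha.wy
  rcases lemmaW h hC hIH hI ha hF with ⟨t, h1⟩ | ⟨t, h1⟩ | ⟨c1, c2, c3, h1⟩ | ⟨c1, c2, c3, h1⟩ |
    ⟨c2, c3, c4, c5, h1⟩ | ⟨c2, c3, c4, c5, h1⟩
  · exact ⟨v, t, Or.inl h1⟩
  · exact ⟨v, t, Or.inr h1⟩
  · exfalso
    have := h1.hb.uniq hb
    subst this
    exact ny (h1.P.hz.of_insert hv)
  · exfalso
    have := h1.hb.uniq hy
    subst this
    exact nb (h1.P.hz.of_insert hv)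
  · exfalso
    have e1 := h1.hb.uniq hb
    subst e1
    have e2 := h1.h1.uniq hy.symm
    subst e2
    have e3 := h1.h2.uniq ha.symm
    subst e3
    exact nb (h1.P.hz.of_insert hv)
  · exfalso
    have e1 := h1.hb.uniq hy
    subst e1
    have e2 := h1.h1.uniq hb.symm
    subst e2
    have e3 := h1.h2.uniq ha
    subst e3
    exact ny (h1.P.hz.of_insert hv)

theorem no_tri_aux (h : CIII G S) (hC : NoK2 G) (hIH : IH G S (Inv G)) (hI : Inv G S)
    (hA : AllFail G S) {a b y v1 t : V} (ha : WN G S a b y) (h1 : F3 G S a b y v1 t) : False := by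
  have hby := h1.tri
  have hb : WN G S b a y := h.mk_wn ha.hb ha.hw ha.hy ha.wb.symm hby ha.wy.ne
  have hy : WN G S y a b := h.mk_wn ha.hy ha.hw ha.hb ha.wy.symm hby.symm ha.wb.ne
  have tW : ∀ w, WV G S w → t ≠ w := by
    rintro w hw rfl; exact not_WV_of_TV h1.ht hw
  -- no edge between `y` and `t`
  have nyt : ∀ q, PV G S q → G.Adj q y → G.Adj q t → False := by
    intro q hq hqy hqt
    by_cases hqv : q = v1
    · subst hqv
      exact h.nd2 q b a y hq ha.hb ha.hw ha.hy ha.wb.symm ha.wy ha.ne h1.vb hqy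
    · exact h1.pend q hq hqv hqt (Or.inr hqy)
  obtain ⟨v2, t2, h2⟩ := tri_F3 h hC hIH hI hA hb ha.wy
  have ht2 : TV G S t2 := by
    rcases h2 with h2 | h2
    · exact h2.ht
    · exact h2.ht
  have e2 : t = t2 := by
    rcases h2 with h2 | h2
    · rcases h2.ea v1 t h1.hv h1.vb (Or.inr h1.ht) h1.vt with h' | h'
      · exact absurd h' (tW b ha.hb)
      · exact h'
    · rcases h2.ea v1 t h1.hv h1.vb (Or.inr h1.ht) h1.vt with h' | h'
      · exact absurd h' (tW b ha.hb)
      · exact h'
  subst e2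
  rcases h2 with h2 | h2
  swap
  · exact nyt v2 h2.hv h2.vb h2.vt
  obtain ⟨v3, t3, h3⟩ := tri_F3 h hC hIH hI hA hy ha.wb
  rcases h3 with h3 | h3
  · -- `v3 ~ a`
    have e3 : t3 = t := by
      rcases h1.ea v3 t3 h3.hv h3.vb (Or.inr h3.ht) h3.vt with h' | h'
      · exact absurd ha.hw (h' ▸ not_WV_of_TV h3.ht)
      · exact h'
    subst e3
    have hne : v1 ≠ v3 := by
      rintro rfl
      exact h.nd2 v1 a y b h1.hv ha.hw ha.hy ha.hb ha.wy hby.symm ha.wb.ne h3.vb h1.vb
    exact h3.pend v1 h1.hv hne h1.vt (Or.inr h1.vb)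
  · -- `v3 ~ b`
    have e3 : t3 = t := by
      rcases h2.ea v3 t3 h3.hv h3.vb (Or.inr h3.ht) h3.vt with h' | h'
      · exact absurd ha.hb (h' ▸ not_WV_of_TV h3.ht)
      · exact h'
    subst e3
    have hne : v2 ≠ v3 := by
      rintro rfl
      exact h.nd2 v2 a y b h2.hv ha.hw ha.hy ha.hb ha.wy hby.symm ha.wb.ne h2.vb h3.vb
    exact h3.pend v2 h2.hv hne h2.vt (Or.inr h2.vb)

theorem no_F6_aux (h : CIII G S) (hC : NoK2 G) (hIH : IH G S (Inv G)) (hI : Inv G S)
    (hA : AllFail G S) {a b y c1 c2 c3 : V} (hF0 : Pl G (insert a S) v)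
    (h1 : F6 G S a b y v c1 c2 c3) : False := by
  obtain ⟨v', hF⟩ := hA.white h1.h3
  have hv' := hF.pl
  have hd := h1.h3.pl
  have no5 := hF.no5 hd hIH hI h.NL
  have hc1 : WV G (insert a S) c1 := h1.P.hz.of_insert hF0
  have c1y : c1 ≠ y := ((h.W1 h1.ha c1).1 hc1).2.2.2
  have hy : WN G S y a c3 := h.mk_wn h1.ha.hy h1.ha.hw h1.h3.hw h1.ha.wy.symm h1.h3.wy.symm
    (((h.W1 h1.ha c3).1 (h1.P.hx.of_insert hF0)).2.1).symm
  have tri : ¬ G.Adj c2 y := by
    intro h'
    rcases h1.h2.all y h1.ha.hy h' with h'' | h''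
    · exact c1y h''.symm
    · exact h1.h3.wy.ne h''.symm
  have key : ∀ d1 d3, IsP3 G (insert v' (insert c3 S)) d1 b d3 → v ≠ v' → False := by
    intro d1 d3 hP hne
    apply no5
    have hb1 : WV G (insert c3 S) b := hP.hy.of_insert hv'
    have hv1 : PV G (insert c3 S) v := h1.hv.persist hd (by
      rintro rfl; exact not_WV_of_PV h1.hv h1.h3.hw) (Or.inl hb1) h1.vb
    have hv2 : PV G (insert v' (insert c3 S)) v := hv1.persist hv' hne (Or.inl hP.hy) h1.vb
    exact five_P3_mid hP hv2 h1.vb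
  rcases lemmaW h hC hIH hI h1.h3 hF with ⟨t, g⟩ | ⟨t, g⟩ | ⟨d1, d2, d3, g⟩ | ⟨d1, d2, d3, g⟩ |
    ⟨e2, e3, e4, e5, g⟩ | ⟨e2, e3, e4, e5, g⟩
  · exact tri g.tri
  · exact tri g.tri.symm
  · have e1 := g.hb.uniq h1.h2.symm
    subst e1
    have e2 := g.h1.uniq h1.h1.symm
    subst e2
    apply key _ _ g.P
    rintro rfl
    exact h.nd2 v d2 d1 c2 h1.hv h1.hb.hw h1.h1.hw h1.h2.hw h1.h1.wb.symm h1.h1.wy h1.h1.ne h1.vb g.vb
  · have e1 := g.hb.uniq hy.symm
    subst e1
    have e2 := g.h1.uniq h1.ha.symm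
    subst e2
    apply key _ _ g.P
    rintro rfl
    exact h.nd2 v d2 d1 y h1.hv h1.hb.hw h1.ha.hw h1.ha.hy h1.ha.wb.symm h1.ha.wy h1.ha.ne h1.vb g.vb
  · have e1 := g.hb.uniq h1.h2.symm
    subst e1
    have e2' := g.h1.uniq h1.h1.symm
    subst e2'
    have e3' := g.h2.uniq h1.hb.symm
    subst e3'
    have e4' := g.h3.uniq h1.ha
    subst e4'
    exact (g.P.hy.of_insert hv').not_adj hd h1.h3.wy
  · have e1 := g.hb.uniq hy.symm
    subst e1
    have e2' := g.h1.uniq h1.ha.symm
    subst e2'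
    have e3' := g.h2.uniq h1.hb
    subst e3'
    have e4' := g.h3.uniq h1.h1
    subst e4'
    exact (g.P.hy.of_insert hv').not_adj hd h1.h3.wb

/-- a white cycle of length eight -/
structure C8 (G : SimpleGraph V) (S : Finset V) (c : Fin 8 → V) : Prop where
  wn : ∀ i, WN G S (c i) (c (i + 1)) (c (i - 1))
  inj : Function.Injective c

theorem C8.rot {c : Fin 8 → V} (hc : C8 G S c) (k : Fin 8) : C8 G S (fun i => c (i + k)) where
  wn := by
    intro i
    have h := hc.wn (i + k)
    have e1 : ∀ i k : Fin 8, i + k + 1 = i + 1 + k := by decide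
    have e2 : ∀ i k : Fin 8, i + k - 1 = i - 1 + k := by decide
    rw [e1, e2] at h
    exact h
  inj := by
    intro i j hij
    exact add_right_cancel (hc.inj hij)

theorem C8.refl {c : Fin 8 → V} (hc : C8 G S c) : C8 G S (fun i => c (-i)) where
  wn := by
    intro i
    have h := (hc.wn (-i)).symm
    have e1 : ∀ i : Fin 8, -i - 1 = -(i + 1) := by decide
    have e2 : ∀ i : Fin 8, -i + 1 = -(i - 1) := by decide
    rw [e1, e2] at h
    exact h
  inj := by
    intro i j hij
    exact neg_injective (hc.inj hij)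

/-- the eight-cycle of a failing reply -/
theorem F8.c8 (h : CIII G S) {a b y c2 c3 c4 c5 : V} (hF0 : Pl G (insert a S) v)
    (h1 : F8 G S a b y v c2 c3 c4 c5) : C8 G S ![a, b, v, c2, c3, c4, c5, y] := by
  have hd := h1.ha.pl
  have g3 := (h.W1 h1.ha c3).1 (h1.P.hz.of_insert hF0)
  have g4 := (h.W1 h1.ha c4).1 (h1.P.hy.of_insert hF0)
  have g5 := (h.W1 h1.ha c5).1 (h1.P.hx.of_insert hF0)
  have nac2 : c2 ≠ a := by
    rintro rfl
    -- c2 = a : then c3 ~ a
    rcases h1.ha.all c3 h1.h3.hw h1.h2.wy with h' | h'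
    · exact g3.2.2.1 h'
    · exact g3.2.2.2 h'
  have nbc2 : c2 ≠ b := h1.h1.ne.symm
  have vne : v ≠ a := h1.hb.ne.symm
  have vb : v ≠ b := h1.hb.wy.ne.symm
  have vy : v ≠ y := by
    rintro rfl
    -- v = y : y's neighbours are a, b? then c2 = a
    rcases h1.h1.all a h1.ha.hw h1.ha.wy.symm with h' | h'
    · exact h1.ha.wb.ne h'
    · exact nac2 h'.symm
  have c2y : c2 ≠ y := by
    rintro rfl
    exact h.nc4 a b v c2 h1.ha.hw h1.ha.hb h1.h1.hw h1.ha.hy h1.ha.wb h1.hb.wy h1.h1.wy
      h1.ha.wy.symm vne.symm h1.ha.ne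
  have c2v : c2 ≠ v := h1.h1.wy.ne.symm
  have v3 : c3 ≠ v := h1.P.hz.ne_insert hF0
  have v4 : c4 ≠ v := h1.P.hy.ne_insert hF0
  have v5 : c5 ≠ v := h1.P.hx.ne_insert hF0
  have k3 : c3 ≠ c2 := h1.h3.wb.ne
  have k4 : c4 ≠ c2 := h1.h3.ne.symm
  have k5 : c5 ≠ c2 := by
    rintro rfl
    exact h1.P.hx.not_adj hF0 h1.h1.wy
  have hy : WN G S y c5 a := h.mk_wn h1.ha.hy h1.h5.hw h1.ha.hw h1.h5.wy.symm h1.ha.wy.symm g5.2.1
  constructor
  · intro i
    fin_cases i
    · exact h1.ha
    · exact h1.hb.symm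
    · exact h1.h1.symm
    · exact h1.h2.symm
    · exact h1.h3.symm
    · exact h1.h4.symm
    · exact h1.h5.symm
    · exact hy.symm
  · rw [← List.nodup_ofFn]
    have e : List.ofFn ![a, b, v, c2, c3, c4, c5, y] = [a, b, v, c2, c3, c4, c5, y] := by
      simp
    rw [e]
    simp only [List.nodup_cons, List.mem_cons, List.not_mem_nil, or_false, not_or, not_false_eq_true,
      List.nodup_nil, and_true]
    exact ⟨⟨h1.ha.wb.ne, vne.symm, nac2.symm, g3.2.1.symm, g4.2.1.symm, g5.2.1.symm, h1.ha.wy.ne⟩,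
      ⟨vb.symm, nbc2.symm, g3.2.2.1.symm, g4.2.2.1.symm, g5.2.2.1.symm, h1.ha.ne⟩,
      ⟨c2v.symm, v3.symm, v4.symm, v5.symm, vy⟩, ⟨k3.symm, k4.symm, k5.symm, c2y⟩,
      ⟨h1.P.zy.ne, h1.P.ne, g3.2.2.2⟩, ⟨h1.P.yx.ne, g4.2.2.2⟩, g5.2.2.2⟩

namespace C8

variable {c : Fin 8 → V}

theorem w0 (hc : C8 G S c) : WN G S (c 0) (c 1) (c 7) := hc.wn 0
theorem w1 (hc : C8 G S c) : WN G S (c 1) (c 2) (c 0) := hc.wn 1
theorem w2 (hc : C8 G S c) : WN G S (c 2) (c 3) (c 1) := hc.wn 2
theorem w3 (hc : C8 G S c) : WN G S (c 3) (c 4) (c 2) := hc.wn 3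
theorem w4 (hc : C8 G S c) : WN G S (c 4) (c 5) (c 3) := hc.wn 4
theorem w5 (hc : C8 G S c) : WN G S (c 5) (c 6) (c 4) := hc.wn 5
theorem w6 (hc : C8 G S c) : WN G S (c 6) (c 7) (c 5) := hc.wn 6
theorem w7 (hc : C8 G S c) : WN G S (c 7) (c 0) (c 6) := hc.wn 7

theorem ne (hc : C8 G S c) {i j : Fin 8} (h : i ≠ j) : c i ≠ c j := fun h' => h (hc.inj h')

theorem hW (hc : C8 G S c) (i : Fin 8) : WV G S (c i) := (hc.wn i).hw

/-- white neighbours of cycle vertices are on the cycle -/
theorem adj_range (hc : C8 G S c) {i : Fin 8} {u : V} (hu : WV G S u) (h : G.Adj (c i) u) :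
    ∃ j, u = c j := by
  rcases (hc.wn i).all u hu h with h' | h'
  · exact ⟨_, h'⟩
  · exact ⟨_, h'⟩

/-- nonadjacent cycle vertices -/
theorem nadj (hc : C8 G S c) {i j : Fin 8} (h1 : j ≠ i + 1) (h2 : j ≠ i - 1) :
    ¬ G.Adj (c i) (c j) := by
  intro h
  rcases (hc.wn i).all (c j) (hc.hW j) h with h' | h'
  · exact h1 (hc.inj h')
  · exact h2 (hc.inj h')

end C8

/-- the failing reply at `c 0` -/
theorem C8.fail0 (h : CIII G S) (hC : NoK2 G) (hIH : IH G S (Inv G)) (hI : Inv G S)
    (hA : AllFail G S) {c : Fin 8 → V} (hc : C8 G S c) :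
    (Fail G S (c 0) (c 2) ∧ IsP3 G (insert (c 2) (insert (c 0) S)) (c 4) (c 5) (c 6)) ∨
    (Fail G S (c 0) (c 6) ∧ IsP3 G (insert (c 6) (insert (c 0) S)) (c 4) (c 3) (c 2)) := by
  obtain ⟨v, hF⟩ := hA.white hc.w0
  rcases lemmaW h hC hIH hI hc.w0 hF with ⟨t, g⟩ | ⟨t, g⟩ | ⟨d1, d2, d3, g⟩ | ⟨d1, d2, d3, g⟩ |
    ⟨e2, e3, e4, e5, g⟩ | ⟨e2, e3, e4, e5, g⟩
  · exact absurd g.tri (hc.nadj (by decide) (by decide))
  · exact absurd g.tri (hc.nadj (by decide) (by decide))
  · exfalso
    have e1 := g.hb.uniq hc.w1.symm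
    subst e1
    have e2 := g.h1.uniq hc.w2.symm
    subst e2
    have e3 := g.h2.uniq hc.w3.symm
    subst e3
    have e4 := g.h3.uniq hc.w4.symm
    exact hc.ne (by decide) e4
  · exfalso
    have e1 := g.hb.uniq hc.w7
    subst e1
    have e2 := g.h1.uniq hc.w6
    subst e2
    have e3 := g.h2.uniq hc.w5
    subst e3
    have e4 := g.h3.uniq hc.w4
    exact hc.ne (by decide) e4
  · left
    have e1 := g.hb.uniq hc.w1.symm
    subst e1
    have e2' := g.h1.uniq hc.w2.symm
    subst e2'
    have e3' := g.h2.uniq hc.w3.symm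
    subst e3'
    have e4' := g.h3.uniq hc.w4.symm
    subst e4'
    have e5' := g.h4.uniq hc.w5.symm
    subst e5'
    exact ⟨hF, g.P⟩
  · right
    have e1 := g.hb.uniq hc.w7
    subst e1
    have e2' := g.h1.uniq hc.w6
    subst e2'
    have e3' := g.h2.uniq hc.w5
    subst e3'
    have e4' := g.h3.uniq hc.w4
    subst e4'
    have e5' := g.h4.uniq hc.w3
    subst e5'
    exact ⟨hF, g.P⟩

/-- chord between `c 3` and `c 4` -/
theorem C8.chord1 (h : CIII G S) (hC : NoK2 G) (hIH : IH G S (Inv G)) (hI : Inv G S)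
    (hA : AllFail G S) {c : Fin 8 → V} (hc : C8 G S c) {q : V} (hq : PV G S q)
    (h3 : G.Adj q (c 3)) (h4 : G.Adj q (c 4)) : False := by
  obtain ⟨u', -, -, hne, hall⟩ := h.ptwo q (c 3) hq (Or.inl (hc.hW 3)) h3
  have hall' : ∀ w, Act G S w → G.Adj q w → w = c 3 ∨ w = c 4 := by
    intro w hw hqw
    rcases hall (c 4) (Or.inl (hc.hW 4)) h4 with h' | h'
    · exact absurd h' (hc.ne (by decide))
    · rw [h']; exact hall w hw hqw
  have hd := hc.w0.pl
  have q0 : q ≠ c 0 := by
    rintro rfl; exact not_WV_of_PV hq (hc.hW 0)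
  rcases hc.fail0 h hC hIH hI hA with ⟨hF, hP⟩ | ⟨hF, hP⟩
  · have hv := hF.pl
    have hNL2 := (h.NL.ins hd).ins hv
    have hq1 : PV G (insert (c 0) S) q := hq.persist hd q0 (Or.inl (hP.hz.of_insert hv)) h4
    have hq2 : PV G (insert (c 2) (insert (c 0) S)) q := hq1.persist hv (by
      rintro rfl; exact not_WV_of_PV hq (hc.hW 2)) (Or.inl hP.hz) h4
    apply hF.no5 hd hIH hI h.NL
    apply five_P3_hang hP hq2 _ (hNL2 _ hP.hz) (hNL2 _ hP.hx)
    intro w hw hqw
    have hw1 := Act.of_insert hv hw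
    have hw2 := Act.of_insert hd hw1.1
    rcases hall' w hw2.1 hqw with rfl | rfl
    · exact absurd hc.w2.wb hw1.2
    · exact Or.inl rfl
  · have hv := hF.pl
    have hq1 : PV G (insert (c 0) S) q := hq.persist hd q0 (Or.inl (hP.hz.of_insert hv)) h4
    have hq2 : PV G (insert (c 6) (insert (c 0) S)) q := hq1.persist hv (by
      rintro rfl; exact not_WV_of_PV hq (hc.hW 6)) (Or.inl hP.hz) h4
    exact hF.no5 hd hIH hI h.NL (five_P3_mid hP hq2 h3)

/-- chord between `c 1` and `c 4` -/
theorem C8.chord3 (h : CIII G S) (hC : NoK2 G) (hIH : IH G S (Inv G)) (hI : Inv G S)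
    (hA : AllFail G S) {c : Fin 8 → V} (hc : C8 G S c) {q : V} (hq : PV G S q)
    (h1 : G.Adj q (c 1)) (h4 : G.Adj q (c 4)) : False := by
  obtain ⟨u', -, -, hne, hall⟩ := h.ptwo q (c 1) hq (Or.inl (hc.hW 1)) h1
  have hall' : ∀ w, Act G S w → G.Adj q w → w = c 1 ∨ w = c 4 := by
    intro w hw hqw
    rcases hall (c 4) (Or.inl (hc.hW 4)) h4 with h' | h'
    · exact absurd h' (hc.ne (by decide))
    · rw [h']; exact hall w hw hqw
  have hd := hc.w0.pl
  have q0 : q ≠ c 0 := by
    rintro rfl; exact not_WV_of_PV hq (hc.hW 0)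
  rcases hc.fail0 h hC hIH hI hA with ⟨hF, hP⟩ | ⟨hF, hP⟩
  · have hv := hF.pl
    have hNL2 := (h.NL.ins hd).ins hv
    have hq1 : PV G (insert (c 0) S) q := hq.persist hd q0 (Or.inl (hP.hz.of_insert hv)) h4
    have hq2 : PV G (insert (c 2) (insert (c 0) S)) q := hq1.persist hv (by
      rintro rfl; exact not_WV_of_PV hq (hc.hW 2)) (Or.inl hP.hz) h4
    apply hF.no5 hd hIH hI h.NL
    apply five_P3_hang hP hq2 _ (hNL2 _ hP.hz) (hNL2 _ hP.hx)
    intro w hw hqw
    have hw1 := Act.of_insert hv hw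
    have hw2 := Act.of_insert hd hw1.1
    rcases hall' w hw2.1 hqw with rfl | rfl
    · exact absurd hc.w0.wb hw2.2
    · exact Or.inl rfl
  · have hv := hF.pl
    have hNL2 := (h.NL.ins hd).ins hv
    have hq1 : PV G (insert (c 0) S) q := hq.persist hd q0 (Or.inl (hP.hz.of_insert hv)) h4
    have hq2 : PV G (insert (c 6) (insert (c 0) S)) q := hq1.persist hv (by
      rintro rfl; exact not_WV_of_PV hq (hc.hW 6)) (Or.inl hP.hz) h4
    apply hF.no5 hd hIH hI h.NL
    apply five_P3_hang hP hq2 _ (hNL2 _ hP.hz) (hNL2 _ hP.hx)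
    intro w hw hqw
    have hw1 := Act.of_insert hv hw
    have hw2 := Act.of_insert hd hw1.1
    rcases hall' w hw2.1 hqw with rfl | rfl
    · exact absurd hc.w0.wb hw2.2
    · exact Or.inl rfl

/-- chord between `c 1` and `c 5` -/
theorem C8.chord4 (h : CIII G S) (hC : NoK2 G) (hIH : IH G S (Inv G)) (hI : Inv G S)
    (hA : AllFail G S) {c : Fin 8 → V} (hc : C8 G S c) {q : V} (hq : PV G S q)
    (h1 : G.Adj q (c 1)) (h5 : G.Adj q (c 5)) : False := by
  obtain ⟨u', -, -, hne, hall⟩ := h.ptwo q (c 1) hq (Or.inl (hc.hW 1)) h1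
  have hall' : ∀ w, Act G S w → G.Adj q w → w = c 1 ∨ w = c 5 := by
    intro w hw hqw
    rcases hall (c 5) (Or.inl (hc.hW 5)) h5 with h' | h'
    · exact absurd h' (hc.ne (by decide))
    · rw [h']; exact hall w hw hqw
  have hd := hc.w0.pl
  have q0 : q ≠ c 0 := by
    rintro rfl; exact not_WV_of_PV hq (hc.hW 0)
  have hc5 : WV G (insert (c 0) S) (c 5) :=
    (h.W1 hc.w0 (c 5)).2 ⟨hc.hW 5, hc.ne (by decide), hc.ne (by decide), hc.ne (by decide)⟩
  have hq1 : PV G (insert (c 0) S) q := hq.persist hd q0 (Or.inl hc5) h5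
  rcases hc.fail0 h hC hIH hI hA with ⟨hF, hP⟩ | ⟨hF, hP⟩
  · have hv := hF.pl
    have hq2 : PV G (insert (c 2) (insert (c 0) S)) q := hq1.persist hv (by
      rintro rfl; exact not_WV_of_PV hq (hc.hW 2)) (Or.inl hP.hy) h5
    exact hF.no5 hd hIH hI h.NL (five_P3_mid hP hq2 h5)
  · have hv := hF.pl
    have hv6 : WV G (insert (c 0) S) (c 6) :=
      (h.W1 hc.w0 (c 6)).2 ⟨hc.hW 6, hc.ne (by decide), hc.ne (by decide), hc.ne (by decide)⟩
    apply hF.nd
    have l3 : Loses G (insert (c 0) S) (c 6) q 1 := by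
      apply loses_dead hv hq1
      intro w hqw
      by_cases hw : Act G S w
      · rcases hall' w hw hqw with rfl | rfl
        · exact not_active_of hv (not_active_of_adj hd hc.w0.wb)
        · exact not_active_of_adj hv hc.w6.wy
      · exact not_active_of hv (not_active_of hd (not_act_iff.1 hw))
    refine drop3 hv (loses_self_W hv6 (not_leaf hc.w6.wb hc.w6.wy hc.w6.ne))
      (loses_adj_W hv hc5 hc.w6.wy) l3 (hc.ne (by decide)) ?_ h5.ne.symm
    rintro h'
    exact not_WV_of_PV hq (h' ▸ hc.hW 6)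

/-- two different cycle vertices are never joined by a grey vertex -/
theorem C8.no_chord (h : CIII G S) (hC : NoK2 G) (hIH : IH G S (Inv G)) (hI : Inv G S)
    (hA : AllFail G S) {c : Fin 8 → V} (hc : C8 G S c) {q : V} (hq : PV G S q)
    {i j : Fin 8} (hi : G.Adj q (c i)) (hj : G.Adj q (c j)) : i = j := by
  by_contra hne
  have a1 : ∀ i : Fin 8, 3 + (i - 3) = i := by decide
  have a2 : ∀ i : Fin 8, 4 + (i - 3) = i + 1 := by decide
  have a3 : ∀ i : Fin 8, i + 1 + 1 = i + 2 := by decide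
  have a4 : ∀ i : Fin 8, i + 1 - 1 = i := by decide
  have a5 : ∀ i : Fin 8, 1 + (i - 1) = i := by decide
  have a6 : ∀ i : Fin 8, 4 + (i - 1) = i + 3 := by decide
  have a7 : ∀ i : Fin 8, 5 + (i - 1) = i + 4 := by decide
  have key : ∀ (i j : Fin 8), G.Adj q (c i) → G.Adj q (c j) →
      (j = i + 1 ∨ j = i + 2 ∨ j = i + 3 ∨ j = i + 4) → False := by
    intro i j hi hj hij
    rcases hij with h' | h' | h' | h'
    · apply (hc.rot (i - 3)).chord1 h hC hIH hI hA hq
      · show G.Adj q (c (3 + (i - 3)))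
        rw [a1]; exact hi
      · show G.Adj q (c (4 + (i - 3)))
        rw [a2, ← h']; exact hj
    · have w1 := hc.wn (i + 1)
      rw [a3, a4, ← h'] at w1
      exact h.nd2 q (c i) (c (i + 1)) (c j) hq w1.hy w1.hw w1.hb w1.wy.symm w1.wb w1.ne.symm hi hj
    · apply (hc.rot (i - 1)).chord3 h hC hIH hI hA hq
      · show G.Adj q (c (1 + (i - 1)))
        rw [a5]; exact hi
      · show G.Adj q (c (4 + (i - 1)))
        rw [a6, ← h']; exact hj
    · apply (hc.rot (i - 1)).chord4 h hC hIH hI hA hq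
      · show G.Adj q (c (1 + (i - 1)))
        rw [a5]; exact hi
      · show G.Adj q (c (5 + (i - 1)))
        rw [a7, ← h']; exact hj
  have cases : ∀ i j : Fin 8, ¬ i = j → (j = i + 1 ∨ j = i + 2 ∨ j = i + 3 ∨ j = i + 4) ∨
      (i = j + 1 ∨ i = j + 2 ∨ i = j + 3 ∨ i = j + 4) := by
    decide
  rcases cases i j hne with h' | h'
  · exact key i j hi hj h'
  · exact key j i hj hi h'

/-! ### an outer neighbour of the cycle -/

section Out

variable {c : Fin 8 → V} {q x : V}

/-- the situation: the grey vertex `q` is adjacent to `c 0` and to the active vertex `x` which is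
not on the cycle -/
structure OutP (G : SimpleGraph V) (S : Finset V) (c : Fin 8 → V) (q x : V) : Prop where
  hc : C8 G S c
  hq : PV G S q
  q0 : G.Adj q (c 0)
  hx : Act G S x
  qx : G.Adj q x
  xr : ∀ i, x ≠ c i
  all : ∀ w, Act G S w → G.Adj q w → w = c 0 ∨ w = x

theorem OutP.refl (o : OutP G S c q x) : OutP G S (fun i => c (-i)) q x :=
  ⟨o.hc.refl, o.hq, o.q0, o.hx, o.qx, fun i => o.xr (-i), o.all⟩

theorem OutP.pl (o : OutP G S c q x) : Pl G S q := Or.inr o.hq

theorem OutP.drop (o : OutP G S c q x) : Phi G (insert q S) + 3 ≤ Phi G S :=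
  drop_three_P o.hq (Or.inl (o.hc.hW 0)) o.hx o.q0 o.qx (o.xr 0).symm

theorem OutP.W1 (h : CIII G S) (o : OutP G S c q x) (w : V) :
    WV G (insert q S) w ↔ WV G S w ∧ w ≠ c 0 ∧ w ≠ x := by
  have hd := o.pl
  constructor
  · intro hw
    refine ⟨hw.of_insert hd, ?_, ?_⟩
    · rintro rfl; exact hw.not_adj hd o.q0
    · rintro rfl; exact hw.not_adj hd o.qx
  · rintro ⟨hw, h1, h2⟩
    have nqw : ¬ G.Adj q w := by
      intro h'
      rcases o.all w (Or.inl hw) h' with h' | h'
      · exact h1 h'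
      · exact h2 h'
    have hwq : w ≠ q := by
      rintro rfl; exact not_WV_of_PV o.hq hw
    obtain ⟨p, hp, hwp⟩ := hw.exists_adj
    obtain ⟨r, hwr⟩ := h.wn hw hp hwp
    by_cases hqp : G.Adj q p
    · by_cases hqr : G.Adj q r
      · exact absurd (h.nd2 q p w r o.hq hp hw hwr.hy hwp.symm hwr.wy hwr.ne hqp hqr) not_false
      · exact hw.persist hd hwq nqw hwr.hy hwr.wy hqr
    · exact hw.persist hd hwq nqw hp hwp hqp

theorem OutP.A1 (h : CIII G S) (o : OutP G S c q x) (w : V) :
    Act G (insert q S) w ↔ Act G S w ∧ w ≠ c 0 ∧ w ≠ x := by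
  have hd := o.pl
  constructor
  · intro hw
    have hw' := Act.of_insert hd hw
    refine ⟨hw'.1, ?_, ?_⟩
    · rintro rfl; exact hw'.2 o.q0
    · rintro rfl; exact hw'.2 o.qx
  · rintro ⟨hw | hw, h1, h2⟩
    · exact Or.inl ((o.W1 h w).2 ⟨hw, h1, h2⟩)
    · refine Or.inr (hw.persist hd ?_)
      intro h'
      rcases o.all w (Or.inr hw) h' with h' | h'
      · exact h1 h'
      · exact h2 h'

theorem OutP.cW1 (h : CIII G S) (o : OutP G S c q x) {i : Fin 8} (hi : i ≠ 0) :
    WV G (insert q S) (c i) :=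
  (o.W1 h (c i)).2 ⟨o.hc.hW i, o.hc.ne hi, (o.xr i).symm⟩

/-- persistence of a cycle vertex under the reply `v` -/
theorem OutP.cW2 (h : CIII G S) (o : OutP G S c q x) (hv : Pl G (insert q S) v) {i j : Fin 8}
    (hi : i ≠ 0) (hj : j ≠ 0) (hij : G.Adj (c i) (c j)) (h1 : c i ≠ v) (h2 : ¬ G.Adj v (c i))
    (h3 : ¬ G.Adj v (c j)) : WV G (insert v (insert q S)) (c i) :=
  (o.cW1 h hi).persist hv h1 h2 (o.cW1 h hj) hij h3

/-- five from four consecutive white vertices, the first of white degree one -/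
theorem OutP.five (h : CIII G S) (o : OutP G S c q x) (hv : Pl G (insert q S) v)
    {i j k l m : Fin 8}
    (hwn : WN G S (c i) (c m) (c j)) (hjk : G.Adj (c j) (c k)) (hkl : G.Adj (c k) (c l))
    (hlj : l ≠ j) (hki : k ≠ i) (hi : i ≠ 0) (hj : j ≠ 0) (hk : k ≠ 0) (hl : l ≠ 0)
    (nm : ¬ WV G (insert v (insert q S)) (c m))
    (n1 : c i ≠ v) (n2 : c j ≠ v) (n3 : c k ≠ v) (n4 : c l ≠ v)
    (m1 : ¬ G.Adj v (c i)) (m2 : ¬ G.Adj v (c j)) (m3 : ¬ G.Adj v (c k))
    (m4 : ¬ G.Adj v (c l)) : Five G (insert v (insert q S)) := by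
  have hd := o.pl
  have g1 := o.cW2 h hv hi hj hwn.wy n1 m1 m2
  have g2 := o.cW2 h hv hj hk hjk n2 m2 m3
  have g3 := o.cW2 h hv hk hl hkl n3 m3 m4
  have g4 := o.cW2 h hv hl hk hkl.symm n4 m4 m3
  refine five_P4 g1 g2 g3 g4 hjk hkl (o.hc.ne hlj) hwn.wy (o.hc.ne hki) ?_
  intro u hu hcu
  rcases hwn.all u ((hu.of_insert hv).of_insert hd) hcu with h' | h'
  · subst h'; exact absurd hu nm
  · exact h'

theorem OutP.not0 (o : OutP G S c q x) (hv : Pl G (insert q S) v) :
    ¬ WV G (insert v (insert q S)) (c 0) := fun h' =>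
  (h'.of_insert hv).not_adj o.pl o.q0

/-- replies outside of the cycle not touching the cycle -/
theorem OutP.far (h : CIII G S) (o : OutP G S c q x) (hv : Pl G (insert q S) v)
    (hr : ∀ i, v ≠ c i) (hn : ∀ i : Fin 8, i ≠ 0 → ¬ G.Adj v (c i)) :
    Five G (insert v (insert q S)) :=
  o.five h hv (i := 1) (j := 2) (k := 3) (l := 4) (m := 0) o.hc.w1.symm o.hc.w2.wb o.hc.w3.wb
    (by decide) (by decide) (by decide) (by decide) (by decide) (by decide) (o.not0 hv)
    (hr _).symm (hr _).symm (hr _).symm (hr _).symm (hn _ (by decide)) (hn _ (by decide))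
    (hn _ (by decide)) (hn _ (by decide))

/-- the reply `c 1` -/
theorem OutP.reply_c1 (h : CIII G S) (o : OutP G S c q x) (hv : Pl G (insert q S) (c 1)) :
    Five G (insert (c 1) (insert q S)) := by
  have hc := o.hc
  refine o.five h hv (i := 3) (j := 4) (k := 5) (l := 6) (m := 2) hc.w3.symm hc.w4.wb hc.w5.wb
    (by decide) (by decide) (by decide) (by decide) (by decide) (by decide) ?_
    (hc.ne (by decide)) (hc.ne (by decide)) (hc.ne (by decide)) (hc.ne (by decide))
    (hc.nadj (by decide) (by decide)) (hc.nadj (by decide) (by decide))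
    (hc.nadj (by decide) (by decide)) (hc.nadj (by decide) (by decide))
  intro h'
  exact h'.not_adj hv hc.w1.wb

/-- a grey reply with the single active neighbour `c 1` -/
theorem OutP.reply_p1 (h : CIII G S) (o : OutP G S c q x) (hv : PV G (insert q S) v)
    (hvu : G.Adj v (c 1)) (uq : ∀ w, Act G (insert q S) w → G.Adj v w → w = c 1) :
    Five G (insert v (insert q S)) := by
  have hc := o.hc
  have hv' : Pl G (insert q S) v := Or.inr hv
  have nr : ∀ i : Fin 8, i ≠ 0 → c i ≠ v := by
    rintro i hi rfl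
    exact not_WV_of_PV hv (o.cW1 h hi)
  have na : ∀ i : Fin 8, i ≠ 0 → i ≠ 1 → ¬ G.Adj v (c i) := by
    intro i hi h1 h'
    exact hc.ne h1 (uq _ (Or.inl (o.cW1 h hi)) h')
  refine o.five h hv' (i := 2) (j := 3) (k := 4) (l := 5) (m := 1) hc.w2.symm hc.w3.wb hc.w4.wb
    (by decide) (by decide) (by decide) (by decide) (by decide) (by decide) ?_
    (nr _ (by decide)) (nr _ (by decide)) (nr _ (by decide)) (nr _ (by decide))
    (na _ (by decide) (by decide)) (na _ (by decide) (by decide))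
    (na _ (by decide) (by decide)) (na _ (by decide) (by decide))
  intro h'
  exact h'.not_adj hv' hvu

/-- a grey reply with the single active neighbour `c 2` -/
theorem OutP.reply_p2 (h : CIII G S) (o : OutP G S c q x) (hv : PV G (insert q S) v)
    (hvu : G.Adj v (c 2)) (uq : ∀ w, Act G (insert q S) w → G.Adj v w → w = c 2) :
    Phi G (insert v (insert q S)) + 3 ≤ Phi G (insert q S) := by
  have hc := o.hc
  have hv' : Pl G (insert q S) v := Or.inr hv
  have h1 := o.cW1 h (i := 1) (by decide)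
  have hne : c 1 ≠ v := by
    intro h'
    exact not_WV_of_PV hv (h' ▸ h1)
  have l2 : Loses G (insert q S) v (c 1) 2 := by
    apply loses_iso hv' h1 hne
    · intro h'
      exact hc.ne (by decide) (uq _ (Or.inl h1) h')
    · intro w hw hcw
      rcases hc.w1.all w (hw.of_insert o.pl) hcw with rfl | rfl
      · exact hvu
      · exact absurd o.q0 (hw.not_adj o.pl)
  exact drop2 hv' (loses_self_P hv) l2 hne.symm

/-- a grey reply with the single active neighbour `c 3` -/
theorem OutP.reply_p3 (h : CIII G S) (o : OutP G S c q x) (hv : PV G (insert q S) v)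
    (hvu : G.Adj v (c 3)) (uq : ∀ w, Act G (insert q S) w → G.Adj v w → w = c 3) :
    Five G (insert v (insert q S)) := by
  have hc := o.hc
  have hv' : Pl G (insert q S) v := Or.inr hv
  have nr : ∀ i : Fin 8, i ≠ 0 → c i ≠ v := by
    rintro i hi rfl
    exact not_WV_of_PV hv (o.cW1 h hi)
  have na : ∀ i : Fin 8, i ≠ 0 → i ≠ 3 → ¬ G.Adj v (c i) := by
    intro i hi h1 h'
    exact hc.ne h1 (uq _ (Or.inl (o.cW1 h hi)) h')
  refine o.five h hv' (i := 4) (j := 5) (k := 6) (l := 7) (m := 3) hc.w4.symm hc.w5.wb hc.w6.wb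
    (by decide) (by decide) (by decide) (by decide) (by decide) (by decide) ?_
    (nr _ (by decide)) (nr _ (by decide)) (nr _ (by decide)) (nr _ (by decide))
    (na _ (by decide) (by decide)) (na _ (by decide) (by decide))
    (na _ (by decide) (by decide)) (na _ (by decide) (by decide))
  intro h'
  exact h'.not_adj hv' hvu

/-- a grey reply with the single active neighbour `c 4` -/
theorem OutP.reply_p4 (h : CIII G S) (hC : NoK2 G) (hIH : IH G S (Inv G)) (hI : Inv G S)
    (o : OutP G S c q x) (hv : PV G (insert q S) v)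
    (hvu : G.Adj v (c 4)) (uq : ∀ w, Act G (insert q S) w → G.Adj v w → w = c 4) :
    Good G (insert v (insert q S)) 1 := by
  have hc := o.hc
  have hd := o.pl
  have hv' : Pl G (insert q S) v := Or.inr hv
  have nr : ∀ i : Fin 8, i ≠ 0 → c i ≠ v := by
    rintro i hi rfl
    exact not_WV_of_PV hv (o.cW1 h hi)
  have na : ∀ i : Fin 8, i ≠ 0 → i ≠ 4 → ¬ G.Adj v (c i) := by
    intro i hi h1 h'
    exact hc.ne h1 (uq _ (Or.inl (o.cW1 h hi)) h')
  have n4 : ¬ WV G (insert v (insert q S)) (c 4) := fun h' => h'.not_adj hv' hvu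
  have n0 := o.not0 hv'
  have W2 : ∀ i j : Fin 8, i ≠ 0 → i ≠ 4 → j ≠ 0 → j ≠ 4 → G.Adj (c i) (c j) →
      WV G (insert v (insert q S)) (c i) := by
    intro i j hi hi' hj hj' hij
    exact o.cW2 h hv' hi hj hij (nr i hi) (na i hi hi') (na j hj hj')
  have back : ∀ w, WV G (insert v (insert q S)) w → WV G S w := fun w hw =>
    (hw.of_insert hv').of_insert hd
  have P1 : IsP3 G (insert v (insert q S)) (c 1) (c 2) (c 3) := by
    refine ⟨W2 1 2 (by decide) (by decide) (by decide) (by decide) hc.w1.wb,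
      W2 2 3 (by decide) (by decide) (by decide) (by decide) hc.w2.wb,
      W2 3 2 (by decide) (by decide) (by decide) (by decide) hc.w3.wy, hc.w1.wb, hc.w2.wb,
      hc.ne (by decide), ?_, ?_, ?_⟩
    · intro u hu hcu
      rcases hc.w1.all u (back u hu) hcu with h' | h'
      · exact h'
      · subst h'; exact absurd hu n0
    · intro u hu hcu
      exact (hc.w2.all u (back u hu) hcu).symm
    · intro u hu hcu
      rcases hc.w3.all u (back u hu) hcu with h' | h'
      · subst h'; exact absurd hu n4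
      · exact h'
  have P2 : IsP3 G (insert v (insert q S)) (c 7) (c 6) (c 5) := by
    refine ⟨W2 7 6 (by decide) (by decide) (by decide) (by decide) hc.w7.wy,
      W2 6 5 (by decide) (by decide) (by decide) (by decide) hc.w6.wy,
      W2 5 6 (by decide) (by decide) (by decide) (by decide) hc.w5.wb, hc.w7.wy, hc.w6.wy,
      hc.ne (by decide), ?_, ?_, ?_⟩
    · intro u hu hcu
      rcases hc.w7.all u (back u hu) hcu with h' | h'
      · subst h'; exact absurd hu n0
      · exact h'
    · intro u hu hcu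
      exact hc.w6.all u (back u hu) hcu
    · intro u hu hcu
      rcases hc.w5.all u (back u hu) hcu with h' | h'
      · exact h'
      · subst h'; exact absurd hu n4
  have q4 : PV G (insert v (insert q S)) (c 4) :=
    PV.of_WV (o.cW1 h (by decide)) hv' hvu (Or.inl P1.hx) hc.w4.wy
  refine good_DP3 hC ((hIH.ins hd).ins hv') ((hI.ins hd).ins hv') ((h.NL.ins hd).ins hv') P1 P2
    (hc.ne (by decide)) (hc.ne (by decide)) (hc.ne (by decide)) (hc.ne (by decide))
    (hc.ne (by decide)) (hc.ne (by decide)) q4 hc.w4.wb ?_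
  intro u hu hcu
  have hu1 := (Act.of_insert hd (Act.of_insert hv' hu).1).1
  rcases hc.w4.nbr hcu with h' | h' | h'
  · exact Or.inr h'
  · exact Or.inl h'
  · exact absurd hu1 (not_act_iff.2 h'.not_act)

/-- Dominator's move `q` is good. -/
theorem OutP.contra (h : CIII G S) (hC : NoK2 G) (hIH : IH G S (Inv G)) (hI : Inv G S)
    (hA : AllFail G S) (o : OutP G S c q x) : False := by
  have hd := o.pl
  have hc := o.hc
  obtain ⟨v, hF⟩ := hA q hd o.drop
  have no5 := hF.no5 hd hIH hI h.NL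
  have hv := hF.pl
  rcases hv with hvW | hvP
  · -- white reply
    have hv' : Pl G (insert q S) v := Or.inl hvW
    by_cases hr : ∃ i, v = c i
    · obtain ⟨i, rfl⟩ := hr
      have hi0 : i ≠ 0 := by
        rintro rfl
        exact hvW.not_adj hd o.q0
      by_cases hi1 : i = 1
      · subst hi1
        exact no5 (o.reply_c1 h hv')
      by_cases hi7 : i = 7
      · subst hi7
        exact no5 (o.refl.reply_c1 h hv')
      apply hF.nd
      have e1 : ∀ i : Fin 8, i ≠ 0 → i ≠ 1 → i ≠ 7 → i + 1 ≠ 0 ∧ i - 1 ≠ 0 := by decide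
      obtain ⟨e2, e3⟩ := e1 i hi0 hi1 hi7
      exact drop_three_W hvW (o.cW1 h e2) (o.cW1 h e3) (hc.wn i).wb (hc.wn i).wy (hc.wn i).ne
    · push Not at hr
      apply no5
      apply o.far h hv' hr
      intro i _ h'
      obtain ⟨j, hj⟩ := hc.adj_range (hvW.of_insert hd) h'.symm
      exact hr j hj
  · have hv' : Pl G (insert q S) v := Or.inr hvP
    by_cases hvS : PV G S v
    · have hr : ∀ i, v ≠ c i := by
        rintro i rfl; exact not_WV_of_PV hvS (hc.hW i)
      obtain ⟨u, hu, hvu⟩ := hvP.exists_adj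
      have hu' := (o.A1 h u).1 hu
      obtain ⟨u', hu'A, hvu', hne, hall⟩ := h.ptwo v u hvS hu'.1 hvu
      have hu'1 : ¬ Act G (insert q S) u' := fun h' =>
        hF.nd (drop_three_P hvP hu h' hvu hvu' hne.symm)
      have uq : ∀ w, Act G (insert q S) w → G.Adj v w → w = u := by
        intro w hw hvw
        rcases hall w ((o.A1 h w).1 hw).1 hvw with h' | h'
        · exact h'
        · subst h'; exact absurd hw hu'1
      by_cases hur : ∃ i, u = c i
      · obtain ⟨i, rfl⟩ := hur
        have hi0 : i ≠ 0 := by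
          rintro rfl; exact hu'.2.1 rfl
        have cases : ∀ i : Fin 8, i ≠ 0 → i = 1 ∨ i = 2 ∨ i = 3 ∨ i = 4 ∨ i = 5 ∨ i = 6 ∨ i = 7 := by
          decide
        rcases cases i hi0 with rfl | rfl | rfl | rfl | rfl | rfl | rfl
        · exact no5 (o.reply_p1 h hvP hvu uq)
        · exact hF.nd (o.reply_p2 h hvP hvu uq)
        · exact no5 (o.reply_p3 h hvP hvu uq)
        · exact hF.ng (o.reply_p4 h hC hIH hI hvP hvu uq)
        · exact no5 (o.refl.reply_p3 h hvP hvu uq)
        · exact hF.nd (o.refl.reply_p2 h hvP hvu uq)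
        · exact no5 (o.refl.reply_p1 h hvP hvu uq)
      · push Not at hur
        apply no5
        apply o.far h hv' hr
        intro i hi h'
        exact hur i (uq _ (Or.inl (o.cW1 h hi)) h').symm
    · -- `v` was white
      have hvW : WV G S v ∧ G.Adj q v := by
        rcases ((PV_insert hd v).1 hvP).2.1 with h' | h'
        · exact absurd h' hvS
        · exact h'
      apply hF.nd
      rcases o.all v (Or.inl hvW.1) hvW.2 with rfl | rfl
      · exact drop_three_P hvP (Or.inl (o.cW1 h (i := 1) (by decide)))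
          (Or.inl (o.cW1 h (i := 7) (by decide))) hc.w0.wb hc.w0.wy (hc.ne (by decide))
      · obtain ⟨p, hp, hvp⟩ := hvW.1.exists_adj
        obtain ⟨r, hwr⟩ := h.wn hvW.1 hp hvp
        have key : ∀ s, WV G S s → G.Adj v s → WV G (insert q S) s := by
          intro s hs hvs
          refine (o.W1 h s).2 ⟨hs, ?_, hvs.ne.symm⟩
          rintro rfl
          obtain ⟨j, hj⟩ := hc.adj_range hvW.1 hvs.symm
          exact o.xr j hj
        exact drop_three_P hvP (Or.inl (key p hp hvp)) (Or.inl (key r hwr.hy hwr.wy)) hvp hwr.wy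
          hwr.ne

end Out

/-! ### the isolated eight-cycle -/

section Pure

variable {c : Fin 8 → V}

/-- vertices away from the cycle -/
def Away (G : SimpleGraph V) (c : Fin 8 → V) (u : V) : Prop :=
  ∀ i, u ≠ c i ∧ ¬ G.Adj (c i) u

theorem Away.of_W (hc : C8 G S c) {u : V} (hu : WV G S u) (hr : ∀ i, u ≠ c i) : Away G c u := by
  intro i
  refine ⟨hr i, ?_⟩
  intro h'
  obtain ⟨j, hj⟩ := hc.adj_range hu h'
  exact hr j hj

theorem Away.of_T (hc : C8 G S c) {u : V} (hu : TV G S u) : Away G c u := by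
  intro i
  refine ⟨?_, ?_⟩
  · rintro rfl; exact not_WV_of_TV hu (hc.hW i)
  · intro h'
    exact not_WV_of_PV (hu.adj h'.symm) (hc.hW i)

/-- what is needed of the positions after moves on the cycle -/
structure Keep (G : SimpleGraph V) (S S' : Finset V) (c : Fin 8 → V) : Prop where
  W : ∀ u, WV G S u → (∀ i, u ≠ c i) → WV G S' u
  T : ∀ u, TV G S u → TV G S' u
  bW : ∀ u, WV G S' u → WV G S u
  bP : ∀ u, PV G S' u → (∀ i, u ≠ c i) → PV G S u

theorem Keep.start : Keep G S S c :=
  ⟨fun _ h _ => h, fun _ h => h, fun _ h => h, fun _ h _ => h⟩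

theorem Keep.step (hc : C8 G S c) {S' : Finset V} (hk : Keep G S S' c) {i : Fin 8}
    (hd : Pl G S' (c i)) : Keep G S (insert (c i) S') c where
  W := by
    intro u hu hr
    have ha := Away.of_W hc hu hr
    obtain ⟨x, hx, hux⟩ := hu.exists_adj
    have hxr : ∀ j, x ≠ c j := by
      rintro j rfl; exact (ha j).2 hux.symm
    have hxa := Away.of_W hc hx hxr
    exact (hk.W u hu hr).persist hd (hr i) (ha i).2 (hk.W x hx hxr) hux (hxa i).2
  T := by
    intro u hu
    exact (hk.T u hu).persist hd (Away.of_T hc hu i).2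
  bW := fun u hu => hk.bW u (hu.of_insert hd)
  bP := by
    intro u hu hr
    rcases ((PV_insert hd u).1 hu).2.1 with h' | h'
    · exact hk.bP u h' hr
    · obtain ⟨j, hj⟩ := hc.adj_range (hk.bW u h'.1) h'.2
      exact absurd hj (hr j)

/-- replies away from the cycle have drop at least three -/
theorem Keep.reply (h : CIII G S) (hc : C8 G S c)
    (hpure : ∀ p i, PV G S p → ¬ G.Adj p (c i)) {S' : Finset V} (hk : Keep G S S' c)
    (hv : Pl G S' v) (hr : ∀ i, v ≠ c i) : Phi G (insert v S') + 3 ≤ Phi G S' := by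
  rcases hv with hv | hv
  · have hvS := hk.bW v hv
    obtain ⟨p, hp, hvp⟩ := hvS.exists_adj
    obtain ⟨r, hw⟩ := h.wn hvS hp hvp
    have ha := Away.of_W hc hvS hr
    have pr : ∀ i, p ≠ c i := by
      rintro i rfl; exact (ha i).2 hvp.symm
    have rr : ∀ i, r ≠ c i := by
      rintro i rfl; exact (ha i).2 hw.wy.symm
    exact drop_three_W hv (hk.W p hp pr) (hk.W r hw.hy rr) hvp hw.wy hw.ne
  · have hvS := hk.bP v hv hr
    obtain ⟨u, hu, hvu⟩ := hvS.exists_adj
    obtain ⟨u', hu', hvu', hne, -⟩ := h.ptwo v u hvS hu hvu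
    have act : ∀ w, Act G S w → G.Adj v w → Act G S' w := by
      intro w hw hvw
      rcases hw with hw | hw
      · refine Or.inl (hk.W w hw ?_)
        rintro i rfl
        exact hpure v i hvS hvw
      · exact Or.inr (hk.T w hw)
    exact drop_three_P hv (act u hu hvu) (act u' hu' hvu') hvu hvu' hne.symm

/-- all neighbours of cycle vertices are on the cycle -/
theorem C8.nbr (hc : C8 G S c) (hpure : ∀ p i, PV G S p → ¬ G.Adj p (c i)) {i : Fin 8} {u : V}
    (h : G.Adj (c i) u) : u = c (i + 1) ∨ u = c (i - 1) := by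
  rcases (hc.wn i).nbr h with h' | h' | h'
  · exact Or.inl h'
  · exact Or.inr h'
  · exact absurd h.symm (hpure u i h')

theorem pure_good (h : CIII G S) (hC : NoK2 G) (hIH : IH G S (Inv G)) (hI : Inv G S)
    (hc : C8 G S c) (hpure : ∀ p i, PV G S p → ¬ G.Adj p (c i))
    (hF : Fail G S (c 0) (c 2))
    (hP : IsP3 G (insert (c 2) (insert (c 0) S)) (c 4) (c 5) (c 6)) : False := by
  have hd0 := hc.w0.pl
  have hd2 := hF.pl
  have hd4 : Pl G (insert (c 2) (insert (c 0) S)) (c 4) := Or.inl hP.hz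
  have hNL2 := (h.NL.ins hd0).ins hd2
  have k0 := (Keep.start (G := G) (S := S) (c := c)).step hc hd0
  have k2 := k0.step hc hd2
  have k4 := k2.step hc hd4
  -- colours
  have t0a : TV G (insert (c 0) S) (c 0) := (TV_insert hd0 _).2 (Or.inr ⟨rfl, hc.hW 0⟩)
  have t0b : TV G (insert (c 2) (insert (c 0) S)) (c 0) :=
    t0a.persist hd2 (hc.nadj (by decide) (by decide))
  have t0 : TV G (insert (c 4) (insert (c 2) (insert (c 0) S))) (c 0) :=
    t0b.persist hd4 (hc.nadj (by decide) (by decide))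
  have hw2 : WV G (insert (c 0) S) (c 2) :=
    (h.W1 hc.w0 (c 2)).2 ⟨hc.hW 2, hc.ne (by decide), hc.ne (by decide), hc.ne (by decide)⟩
  have hw3 : WV G (insert (c 0) S) (c 3) :=
    (h.W1 hc.w0 (c 3)).2 ⟨hc.hW 3, hc.ne (by decide), hc.ne (by decide), hc.ne (by decide)⟩
  have t2b : TV G (insert (c 2) (insert (c 0) S)) (c 2) := (TV_insert hd2 _).2 (Or.inr ⟨rfl, hw2⟩)
  have t2 : TV G (insert (c 4) (insert (c 2) (insert (c 0) S))) (c 2) :=
    t2b.persist hd4 (hc.nadj (by decide) (by decide))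
  have t4 : TV G (insert (c 4) (insert (c 2) (insert (c 0) S))) (c 4) :=
    (TV_insert hd4 _).2 (Or.inr ⟨rfl, hP.hz⟩)
  have p1 : PV G (insert (c 4) (insert (c 2) (insert (c 0) S))) (c 1) :=
    ((PV.of_WV (hc.hW 1) hd0 hc.w0.wb (Or.inr t0a) hc.w0.wb.symm).persist hd2
      (hc.ne (by decide)) (Or.inr t0b) hc.w0.wb.symm).persist hd4 (hc.ne (by decide))
      (Or.inr t0) hc.w0.wb.symm
  have p7 : PV G (insert (c 4) (insert (c 2) (insert (c 0) S))) (c 7) :=
    ((PV.of_WV (hc.hW 7) hd0 hc.w0.wy (Or.inr t0a) hc.w0.wy.symm).persist hd2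
      (hc.ne (by decide)) (Or.inr t0b) hc.w0.wy.symm).persist hd4 (hc.ne (by decide))
      (Or.inr t0) hc.w0.wy.symm
  have p3 : PV G (insert (c 4) (insert (c 2) (insert (c 0) S))) (c 3) :=
    (PV.of_WV hw3 hd2 hc.w2.wb (Or.inr t2b) hc.w2.wb.symm).persist hd4 (hc.ne (by decide))
      (Or.inr t2) hc.w2.wb.symm
  have p5 : PV G (insert (c 4) (insert (c 2) (insert (c 0) S))) (c 5) :=
    PV.of_WV hP.hy hd4 hP.zy (Or.inr t4) hP.zy.symm
  have n6 : ¬ WV G (insert (c 4) (insert (c 2) (insert (c 0) S))) (c 6) ∧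
      ¬ TV G (insert (c 4) (insert (c 2) (insert (c 0) S))) (c 6) := by
    apply iso_not_active hd4 hP.hx (hc.ne (by decide))
    intro u hu hcu
    rw [hP.ux u hu hcu]; exact hP.zy
  apply hF.ng
  apply good_four ((hIH.ins hd0).ins hd2) ((hI.ins hd0).ins hd2) hNL2 hd4
    (four_P3 hP (hNL2 _ hP.hz))
  intro w hw
  by_cases hr : ∃ i, w = c i
  swap
  · push Not at hr
    exact Or.inl (k4.reply h hc hpure hw hr)
  obtain ⟨i, rfl⟩ := hr
  have cases : ∀ i : Fin 8, i = 0 ∨ i = 1 ∨ i = 2 ∨ i = 3 ∨ i = 4 ∨ i = 5 ∨ i = 6 ∨ i = 7 := by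
    decide
  have hNL4 := hNL2.ins hd4
  rcases cases i with rfl | rfl | rfl | rfl | rfl | rfl | rfl | rfl
  · exact absurd t0.1 hw.not_mem
  · exact Or.inl (drop_three_P p1 (Or.inr t0) (Or.inr t2) hc.w1.wy hc.w1.wb (hc.ne (by decide)))
  · exact absurd t2.1 hw.not_mem
  · exact Or.inl (drop_three_P p3 (Or.inr t2) (Or.inr t4) hc.w3.wy hc.w3.wb (hc.ne (by decide)))
  · exact absurd t4.1 hw.not_mem
  · -- reply `c 5`; Dominator plays `c 1`
    right
    apply good_of_five ((((hIH.ins hd0).ins hd2).ins hd4).ins hw)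
      ((((hI.ins hd0).ins hd2).ins hd4).ins hw) (hNL4.ins hw)
    have t0' := t0.persist hw (hc.nadj (by decide) (by decide))
    have t2' := t2.persist hw (hc.nadj (by decide) (by decide))
    have q1 := p1.persist hw (hc.ne (by decide)) (Or.inr t0') hc.w1.wy
    have q7 := p7.persist hw (hc.ne (by decide)) (Or.inr t0') hc.w7.wb
    have q3 := p3.persist hw (hc.ne (by decide)) (Or.inr t2') hc.w3.wy
    have n4' := not_active_of_adj hw hc.w5.wy
    have n6' := not_active_of hw n6
    have hd1 : Pl G (insert (c 5) (insert (c 4) (insert (c 2) (insert (c 0) S)))) (c 1) :=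
      Or.inr q1
    refine ⟨c 1, hd1, ?_⟩
    have l7 : Loses G (insert (c 5) (insert (c 4) (insert (c 2) (insert (c 0) S)))) (c 1)
        (c 7) 1 := by
      apply loses_dead hd1 q7
      intro u hu
      rcases hc.nbr hpure hu with rfl | rfl
      · exact not_active_of_adj hd1 hc.w1.wy
      · exact not_active_of hd1 n6'
    have l3 : Loses G (insert (c 5) (insert (c 4) (insert (c 2) (insert (c 0) S)))) (c 1)
        (c 3) 1 := by
      apply loses_dead hd1 q3
      intro u hu
      rcases hc.nbr hpure hu with rfl | rfl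
      · exact not_active_of hd1 n4'
      · exact not_active_of_adj hd1 hc.w1.wb
    exact drop5 hd1 (loses_self_P q1) (loses_adj_T hd1 t0' hc.w1.wy)
      (loses_adj_T hd1 t2' hc.w1.wb) l7 l3 (hc.ne (by decide)) (hc.ne (by decide))
      (hc.ne (by decide)) (hc.ne (by decide)) (hc.ne (by decide)) (hc.ne (by decide))
      (hc.ne (by decide)) (hc.ne (by decide)) (hc.ne (by decide)) (hc.ne (by decide))
  · exfalso
    rcases hw with hw | hw
    · exact n6.1 hw
    · rcases ((PV_insert hd4 _).1 hw).2.1 with h' | h'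
      · exact not_WV_of_PV h' hP.hx
      · exact hP.nzx h'.2
  · -- reply `c 7`; Dominator plays `c 3`
    right
    apply good_of_five ((((hIH.ins hd0).ins hd2).ins hd4).ins hw)
      ((((hI.ins hd0).ins hd2).ins hd4).ins hw) (hNL4.ins hw)
    have t2' := t2.persist hw (hc.nadj (by decide) (by decide))
    have t4' := t4.persist hw (hc.nadj (by decide) (by decide))
    have q1 := p1.persist hw (hc.ne (by decide)) (Or.inr t2') hc.w1.wb
    have q5 := p5.persist hw (hc.ne (by decide)) (Or.inr t4') hc.w5.wy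
    have q3 := p3.persist hw (hc.ne (by decide)) (Or.inr t2') hc.w3.wy
    have n0' := not_active_of_adj hw hc.w7.wb
    have n6' := not_active_of hw n6
    have hd3 : Pl G (insert (c 7) (insert (c 4) (insert (c 2) (insert (c 0) S)))) (c 3) :=
      Or.inr q3
    refine ⟨c 3, hd3, ?_⟩
    have l1 : Loses G (insert (c 7) (insert (c 4) (insert (c 2) (insert (c 0) S)))) (c 3)
        (c 1) 1 := by
      apply loses_dead hd3 q1
      intro u hu
      rcases hc.nbr hpure hu with rfl | rfl
      · exact not_active_of_adj hd3 hc.w3.wy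
      · exact not_active_of hd3 n0'
    have l5 : Loses G (insert (c 7) (insert (c 4) (insert (c 2) (insert (c 0) S)))) (c 3)
        (c 5) 1 := by
      apply loses_dead hd3 q5
      intro u hu
      rcases hc.nbr hpure hu with rfl | rfl
      · exact not_active_of hd3 n6'
      · exact not_active_of_adj hd3 hc.w3.wb
    exact drop5 hd3 (loses_self_P q3) (loses_adj_T hd3 t2' hc.w3.wy)
      (loses_adj_T hd3 t4' hc.w3.wb) l1 l5 (hc.ne (by decide)) (hc.ne (by decide))
      (hc.ne (by decide)) (hc.ne (by decide)) (hc.ne (by decide)) (hc.ne (by decide))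
      (hc.ne (by decide)) (hc.ne (by decide)) (hc.ne (by decide)) (hc.ne (by decide))

end Pure

/-- no eight-cycle when everything fails -/
theorem C8.contra (h : CIII G S) (hC : NoK2 G) (hIH : IH G S (Inv G)) (hI : Inv G S)
    (hA : AllFail G S) {c : Fin 8 → V} (hc : C8 G S c) : False := by
  by_cases hp : ∃ p i, PV G S p ∧ G.Adj p (c i)
  · obtain ⟨p, i, hp, hpi⟩ := hp
    obtain ⟨x, hx, hpx, hne, hall⟩ := h.ptwo p (c i) hp (Or.inl (hc.hW i)) hpi
    by_cases hr : ∃ j, x = c j
    · obtain ⟨j, rfl⟩ := hr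
      have := hc.no_chord h hC hIH hI hA hp hpi hpx
      subst this
      exact hne rfl
    · push Not at hr
      have a1 : ∀ i : Fin 8, 0 + i = i := by decide
      have o : OutP G S (fun k => c (k + i)) p x :=
        ⟨hc.rot i, hp, by show G.Adj p (c (0 + i)); rw [a1]; exact hpi, hx, hpx,
          fun k => hr _, by
            intro w hw hpw
            show w = c (0 + i) ∨ w = x
            rw [a1]; exact hall w hw hpw⟩
      exact o.contra h hC hIH hI hA
  · push Not at hp
    rcases hc.fail0 h hC hIH hI hA with ⟨hF, hP⟩ | ⟨hF, hP⟩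
    · exact pure_good h hC hIH hI hc hp hF hP
    · exact pure_good h hC hIH hI hc.refl (fun p i => hp p (-i)) hF hP

/-- the inductive step -/
theorem good_all_step (hC : NoK2 G) (hIH : IH G S (Inv G)) (hI : Inv G S) : Good G S 0 := by
  by_cases hPl : ∃ v, Pl G S v
  swap
  · push Not at hPl
    unfold Good
    rw [value_true_zero hPl]
    omega
  by_cases h5 : Five G S
  · obtain ⟨d, hd, h⟩ := h5
    apply good_step hd (by omega)
    intro v hv
    have h1 := hIH.apply2 hI hd hv
    have h2 := hv.drop_one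
    omega
  by_cases h4 : ∃ d, Pl G S d ∧ Phi G (insert d S) + 4 ≤ Phi G S
  · have : ∃ d, Pl G S d ∧ Phi G (insert d S) + 4 ≤ Phi G S ∧
        (WV G S d ∨ ∀ w, WV G S w → ¬ (Phi G (insert w S) + 4 ≤ Phi G S)) := by
      by_cases hW : ∃ w, WV G S w ∧ Phi G (insert w S) + 4 ≤ Phi G S
      · obtain ⟨w, hw, h⟩ := hW
        exact ⟨w, Or.inl hw, h, Or.inl hw⟩
      · obtain ⟨d, hd, h⟩ := h4
        exact ⟨d, hd, h, Or.inr (fun w hw h' => hW ⟨w, hw, h'⟩)⟩
    obtain ⟨d, hd, h, hrule⟩ := this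
    apply good_step hd (by omega)
    intro v hv
    have h1 := hIH.apply2 hI hd hv
    have h2 := reply_two hC h5 hd hrule hv
    omega
  have hN : No4 G S := fun v hv h => h4 ⟨v, hv, h⟩
  by_cases c1 : ∃ z y, WV G S z ∧ WV G S y ∧ G.Adj z y ∧ ∀ u, WV G S u → G.Adj z u → u = y
  · obtain ⟨z, y, hz, hy, hzy, uz⟩ := c1
    exact good_case_one hC hIH hI hN hz hy hzy uz
  by_cases c2 : ∃ p t, PV G S p ∧ Act G S t ∧ G.Adj p t ∧ ∀ u, Act G S u → G.Adj p u → u = t
  · obtain ⟨p, t, hp, ht, hpt, up⟩ := c2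
    exact good_case_two hC hIH hI hN hp ht hpt up
  have h3 : CIII G S := by
    apply hN.CIII
    · intro w b hw hb hwb
      by_contra hcon
      push Not at hcon
      apply c1
      refine ⟨w, b, hw, hb, hwb, ?_⟩
      intro u hu hwu
      exact hcon u hu hwu
    · intro p u hp hu hpu
      by_contra hcon
      push Not at hcon
      apply c2
      refine ⟨p, u, hp, hu, hpu, ?_⟩
      intro w hw hpw
      exact hcon w hw hpw
  by_contra hng
  have hA := allFail hIH hI h3.NL hng
  obtain ⟨v, hv⟩ := hPl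
  obtain ⟨a, ha⟩ := h3.exists_W hI hv
  obtain ⟨b, hb, hab⟩ := ha.exists_adj
  obtain ⟨y, hw⟩ := h3.wn ha hb hab
  obtain ⟨r, hF⟩ := hA.white hw
  rcases lemmaW h3 hC hIH hI hw hF with ⟨t, g⟩ | ⟨t, g⟩ | ⟨d1, d2, d3, g⟩ | ⟨d1, d2, d3, g⟩ |
    ⟨e2, e3, e4, e5, g⟩ | ⟨e2, e3, e4, e5, g⟩
  · exact no_tri_aux h3 hC hIH hI hA hw g
  · exact no_tri_aux h3 hC hIH hI hA hw.symm g
  · exact no_F6_aux h3 hC hIH hI hA hF.pl g
  · exact no_F6_aux h3 hC hIH hI hA hF.pl g
  · exact (g.c8 h3 hF.pl).contra h3 hC hIH hI hA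
  · exact (g.c8 h3 hF.pl).contra h3 hC hIH hI hA

theorem good_all (hC : NoK2 G) : ∀ n : ℕ, ∀ S : Finset V, (univ \ S).card = n → Inv G S →
    Good G S 0 := by
  intro n
  induction n using Nat.strong_induction_on with
  | _ n ih =>
    intro S hS hI
    apply good_all_step hC _ hI
    intro S' hSS' hI'
    have hlt : (univ \ S').card < n := by
      rw [← hS]
      apply Finset.card_lt_card
      obtain ⟨x, hx, hxS⟩ := Finset.exists_of_ssubset hSS'
      refine Finset.ssubset_iff_subset_ne.2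
        ⟨Finset.sdiff_subset_sdiff (le_refl _) hSS'.subset, ?_⟩
      intro he
      have h1 : x ∈ univ \ S := by simpa using hxS
      rw [← he] at h1
      simp [hx] at h1
    have := ih _ hlt S' rfl hI'
    unfold Good at this
    simpa using this

theorem main (hC : NoK2 G) : 3 * gameTotalIsolationNumber G ≤ 2 * Fintype.card V := by
  have h1 : Good G ∅ 0 := good_all hC _ ∅ rfl (by
    intro Q hQ hne
    obtain ⟨t, ht⟩ := hne
    exact absurd (hQ t ht).1 (Finset.notMem_empty _))
  have h2 : Phi G (∅ : Finset V) ≤ 2 * Fintype.card V := by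
    unfold Phi
    calc ∑ x, wt G ∅ x ≤ ∑ _x : V, 2 := Finset.sum_le_sum (fun x _ => wt_le_two x)
      _ = 2 * Fintype.card V := by
        rw [Finset.sum_const, Finset.card_univ, smul_eq_mul, mul_comm]
  unfold Good at h1
  unfold gameTotalIsolationNumber
  omega

theorem noK2_of_components (h : ∀ c : G.ConnectedComponent, 3 ≤ c.supp.ncard) : NoK2 G := by
  intro x y hxy
  by_contra hcon
  push Not at hcon
  have key : ∀ u z, G.Walk u z → (u = x ∨ u = y) → (z = x ∨ z = y) := by
    intro u z p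
    induction p with
    | nil => exact fun h => h
    | cons hadj _ ih =>
      intro hu
      apply ih
      rename_i a b c q
      by_contra hb
      push Not at hb
      have := hcon b hb.1 hb.2
      rcases hu with rfl | rfl
      · exact this.1 hadj.symm
      · exact this.2 hadj.symm
  have hsub : (G.connectedComponentMk x).supp ⊆ {x, y} := by
    intro z hz
    rw [SimpleGraph.ConnectedComponent.mem_supp_iff, SimpleGraph.ConnectedComponent.eq] at hz
    obtain ⟨p⟩ := hz.symm
    rcases key x z p (Or.inl rfl) with h' | h'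
    · exact Or.inl h'
    · exact Or.inr h'
  have h1 := Set.ncard_le_ncard hsub (Set.toFinite _)
  have h2 : ({x, y} : Set V).ncard ≤ 2 := by
    rw [Set.ncard_pair hxy.ne]
  have h3 := h (G.connectedComponentMk x)
  omega

end TotalIsolation
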